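import Pool.Agent.helper85.AQ.Defs
import Pool.Agent.helper46.TD.SpecL

/-!
# Project aq (MP_3703a7_ag, all primes `q` at once), rows ta:B*: specification, part B: good reduction in residue characteristic `p`, the place of an Eisenstein polynomial, irreducibility

THE GOAL (BRF): for `C : y^l = f(x)`, `f ∈ ℤ[x]` an Eisenstein polynomial at `p` (after a translation) of prime degree `m` (or `y^l = f(x)^μ`), `p = 1` modulo `l`, `p` a primitive root modulo `m`, `q ≠ p`: every eigenspace of `ζ` in `Ω ⊗ V_q(J)` is irreducible under the automorphisms of `ℚbar` over `ℚ(ζ_l)`.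
At a place `O` of `ℚbar` over `p` the roots are `a_j = a_0 ω^j (1 + small)`, `ω` an `m`-th root of unity; `x = a_0 X`, `y = c Y` give good reduction to `Y^l = X^m - 1`; an element `τ` of the inertia group which moves `a_0` acts on the reduction as `X ↦ ω X` (times a root of unity on `Y`).

Rules: every `XX_stmt` is proved in `Pool/Agent/<seat>/AQ/XX.lean`: `import Pool.Agent.helper85.AQ.SpecB`, `set_option autoImplicit false`, `namespace Pool.Agent.AQ`, the open lines of this file, `noncomputable section`,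
`theorem XX (h : YY_stmt) ... : XX_stmt`; hypotheses: other statements of the project (not circularly) and ANY proved statement of the older projects (`FJ.B1_stmt`, `FJ.B3_stmt`, `FJ.E2_stmt`, `TK.KA1_stmt` - `TK.KA7_stmt`, `TK.KB1_stmt` - `TK.KB6_stmt`, `GJ.R1_stmt` - `GJ.R6_stmt`,
`CM.YA1_stmt` - `CM.YA6_stmt`, `CM.YD0_stmt`, `CM.YI0_stmt`, `CM.YT0_stmt`, `CM.YT1_stmt`, `CM.STD_stmt`, `TQJ.TOR_stmt`, `TD.V0_stmt` - `TD.VF_stmt`, `TD.VK_stmt`, `TD.MK_stmt`, `TD.MN_stmt`, `TD.NBK_stmt`, `TD.CONJ_stmt`, ..). Auxiliary lemmas are prefixed `XX_`. No sorry, no double quotes, no `congr!`, no `convert`.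
-/

set_option autoImplicit false

namespace Pool.Agent.AQ

open Polynomial Pool.Agent.HC Pool.Agent.HC.SJ Pool.Agent.SJ Pool.Agent.GJ Pool.Agent.TK Pool.Agent.CM
open Pool.Agent.TQJ Pool.Agent.TQG
open Pool.Agent.FJ (VT Om chiO rf rs IsFrobO)
open Pool.Agent.TD (zK DvK bC mK IsPhiK Stab)
open scoped TensorProduct NumberField

noncomputable section

/-! ## The moving lemma and the reduction of functions in any residue characteristic `≠ l`: the rows MV1, MV2, M6, RD1, RD2, YPO of project td with `[NeZero (l : rf O)]` in the place of `[CharZero (rf O)]` -/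

/-- BM1 (short; adapt `Pool/Agent/helper85/TD/MV1.lean`; the only use of the characteristic is `l ≠ 0` in `rf O` (and so in `K`); `rf O` is infinite as it is algebraically closed). -/
def BM1_stmt : Prop := ∀ (K : Type) [Field K] [IsAlgClosed K] (O : ValuationSubring K)
  (l n : ℕ) [Fact l.Prime] [NeZero (l : rf O)], l ≠ 2 → ∀ (μ : Fin (n + 1) → ℕ) (a' : Fin (n + 1) → O) (a : Fin (n + 1) → K)
  (b : Fin (n + 1) → rf O) [Good K l μ a] [Good (rf O) l μ b] (h : ∀ j, O.subtype (a' j) = a j)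
  (_ : ∀ j, rs O (a' j) = b j) [IsDedekindDomain (CR K l μ a)] (B : Finset (rf O)) (q0 : Pc K l μ a),
  q0.1.1 ∈ O → ∃ S : Multiset (Pc O l μ a'),
    cl q0 * ((S.map (mapPc O.subtype h)).map cl).prod = 1 ∧ ∀ q ∈ S, rs O q.1.1 ∉ B

/-- BM2 (short; adapt `Pool/Agent/helper56/TD/MV2.lean`). -/
def BM2_stmt : Prop := ∀ (K : Type) [Field K] [IsAlgClosed K] (O : ValuationSubring K)
  (l n : ℕ) [Fact l.Prime] [NeZero (l : rf O)], l ≠ 2 → ∀ (μ : Fin (n + 1) → ℕ) (a' : Fin (n + 1) → O) (a : Fin (n + 1) → K)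
  (b : Fin (n + 1) → rf O) [Good K l μ a] [Good (rf O) l μ b] (h : ∀ j, O.subtype (a' j) = a j)
  (_ : ∀ j, rs O (a' j) = b j) [IsDedekindDomain (CR K l μ a)] (q0 : Pc K l μ a),
  q0.1.1 ∉ O → ∃ S : Multiset (Pc O l μ a'), cl q0 * ((S.map (mapPc O.subtype h)).map cl).prod = 1

/-- BM6 (short; adapt `Pool/Agent/helper46/TD/M6.lean`). THE MOVING LEMMA. Uses BM1, BM2. -/
def BM6_stmt : Prop := ∀ (K : Type) [Field K] [IsAlgClosed K] (O : ValuationSubring K)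
  (l n : ℕ) [Fact l.Prime] [NeZero (l : rf O)], l ≠ 2 → ∀ (μ : Fin (n + 1) → ℕ) (a' : Fin (n + 1) → O) (a : Fin (n + 1) → K)
  (b : Fin (n + 1) → rf O) [Good K l μ a] [Good (rf O) l μ b] (h : ∀ j, O.subtype (a' j) = a j)
  (_ : ∀ j, rs O (a' j) = b j) [IsDedekindDomain (CR K l μ a)] (B : Finset (rf O))
  (c : ClassGroup (CR K l μ a)), ∃ S : Multiset (Pc O l μ a'),
    c = ((S.map (mapPc O.subtype h)).map cl).prod ∧ ∀ q ∈ S, rs O q.1.1 ∉ B

/-- BD1 (short; adapt `Pool/Agent/helper44/TD/RD1.lean`). -/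
def BD1_stmt : Prop := ∀ (K : Type) [Field K] [IsAlgClosed K] (O : ValuationSubring K)
  (l n : ℕ) [Fact l.Prime] [NeZero (l : rf O)] (μ : Fin (n + 1) → ℕ) (a' : Fin (n + 1) → O) (a : Fin (n + 1) → K)
  (b : Fin (n + 1) → rf O) [Good K l μ a] [Good (rf O) l μ b] (h : ∀ j, O.subtype (a' j) = a j)
  (h' : ∀ j, rs O (a' j) = b j) (f : CR O l μ a') (S : Multiset (Pc O l μ a')),
  NFK (mp O.subtype h f : CR K l μ a) (S.map (mapPc O.subtype h)) →
  (mp (rs O) h' f : CR (rf O) l μ b) ≠ 0 →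
  NFK (mp (rs O) h' f : CR (rf O) l μ b) (S.map (mapPc (rs O) h'))

/-- BD2 (short; adapt `Pool/Agent/helper3/TD/RD2.lean`). -/
def BD2_stmt : Prop := ∀ (K : Type) [Field K] [IsAlgClosed K] (O : ValuationSubring K)
  (l n : ℕ) [Fact l.Prime] [NeZero (l : rf O)] (μ : Fin (n + 1) → ℕ) (a' : Fin (n + 1) → O) (a : Fin (n + 1) → K)
  (b : Fin (n + 1) → rf O) [Good K l μ a] [Good (rf O) l μ b] (h : ∀ j, O.subtype (a' j) = a j)
  (h' : ∀ j, rs O (a' j) = b j) (f g : CR O l μ a') (S T : Multiset (Pc O l μ a'))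
  (U U' : Multiset (Pc (rf O) l μ b)), NFK (mp (rs O) h' f : CR (rf O) l μ b) U →
  NFK (mp (rs O) h' g : CR (rf O) l μ b) U' → (∀ q ∈ S + T, ∀ q' ∈ U + U', rs O q.1.1 ≠ q'.1.1) →
  ∃ y : O, IsUnit y ∧ (y : K) = hvK (mp O.subtype h f : CR K l μ a) (mp O.subtype h g)
      (S.map (mapPc O.subtype h)) (T.map (mapPc O.subtype h)) ∧
    rs O y = hvK (mp (rs O) h' f : CR (rf O) l μ b) (mp (rs O) h' g)
      (S.map (mapPc (rs O) h')) (T.map (mapPc (rs O) h'))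

/-- BYP (short; adapt `Pool/Agent/helper65/TD/YPO.lean`). Uses BM6, BD1. -/
def BYP_stmt : Prop := ∀ (K : Type) [Field K] [IsAlgClosed K] (O : ValuationSubring K)
  (l n : ℕ) [Fact l.Prime] [NeZero (l : rf O)], l ≠ 2 → ∀ (μ : Fin (n + 1) → ℕ) (a' : Fin (n + 1) → O) (a : Fin (n + 1) → K)
  (b : Fin (n + 1) → rf O) [Good K l μ a] [Good (rf O) l μ b] (h : ∀ j, O.subtype (a' j) = a j)
  (h' : ∀ j, rs O (a' j) = b j) [IsDedekindDomain (CR K l μ a)] [IsDedekindDomain (CR (rf O) l μ b)]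
  (sp : ClassGroup (CR K l μ a) →* ClassGroup (CR (rf O) l μ b)), IsSp O h h' sp →
  ∀ (B : Finset (rf O)) (N : ℕ), 0 < N → ∀ c : ClassGroup (CR K l μ a), c ^ N = 1 →
  ∃ (S T : Multiset (Pc O l μ a')) (f g : CR O l μ a'),
    DvK N c (S.map (mapPc O.subtype h)) (T.map (mapPc O.subtype h)) (mp O.subtype h f) (mp O.subtype h g) ∧
    DvK N (sp c) (S.map (mapPc (rs O) h')) (T.map (mapPc (rs O) h')) (mp (rs O) h' f) (mp (rs O) h' g) ∧
    ∀ q ∈ S + T, rs O q.1.1 ∉ B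

/-! ## Lifting normalised functions from the residue field -/

/-- the expansion `z = ∑_s γ_s(x) ∏ (x - a_k)^(-m_(k,s)) y^s`, `m_(k,s) = ⌊s μ_k / l⌋` (multiplied by `fp(x)`), with the bound for the order at infinity: `z` has no poles at the `a_k` and a pole of order at most `D` at infinity -/
structure Ex {A : Type} [CommRing A] {l n : ℕ} {μ : Fin (n + 1) → ℕ} {a : Fin (n + 1) → A} (D : ℕ) (z : CR A l μ a) (γ : Fin l → A[X]) : Prop where
  eq : z * CR.pol (fp A μ a) = ∑ s : Fin l, CR.pol (γ s * ∏ k, (X - C (a k)) ^ (μ k - (s : ℕ) * μ k / l)) * CR.y ^ (s : ℕ)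
  deg : ∀ s : Fin l, γ s = 0 ∨ l * (γ s).natDegree + (s : ℕ) * ∑ k, μ k ≤ D + l * ∑ k, (s : ℕ) * μ k / l

/-- BE1 (medium). THE EXPANSION OF A NORMALISED FUNCTION. GJ.R4, R5: valuations `v_k`, `v_∞` (`IsV`). YD0: `ofB (norm z) = nm s z`, so `l v(z) = v(norm z)` (`IsV.aut`), which is `0` for `v_k` (`x_q ≠ a_k`: YA4; R6 or `x - x_q = (x - a_k) + (a_k - x_q)`) and `- l card S` for `v_∞`. GJ.R1: `z = ∑ ofB (g_s) y^s`; the orders
`v_k(ofB g_s y^s) = l o_k + s μ_k` (R6) are different for different `s` (modulo `l`), so their minimum is `v_k(z) = 0`: `o_k ≥ - ⌊s μ_k / l⌋`; similarly `- l dg_s - s M ≥ - card S` at infinity (compare the proof of R7: `Pool/Agent/helper28/GJ/R7.lean`, lemmas `R7_sum`, `R7_dvd`). Every element of `K[x, 1/f]` is `p / fp^N`: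
the multiplicity of `a_k` in `p` is `o_k + N μ_k ≥ N μ_k - ⌊s μ_k / l⌋`, so `g_s fp = γ_s ∏ (X - a_k)^(μ_k - ⌊s μ_k / l⌋)` (`s < l`) with `deg γ_s = dg_s + ∑ ⌊s μ_k / l⌋`. -/
def BE1_stmt : Prop := ∀ (K : Type) [Field K] [IsAlgClosed K] (l n : ℕ) [Fact l.Prime] [NeZero (l : K)]
  (μ : Fin (n + 1) → ℕ) (a : Fin (n + 1) → K) [Good K l μ a] (z : CR K l μ a) (S : Multiset (Pc K l μ a)), NFK z S →
  ∃ γ : Fin l → K[X], Ex (Multiset.card S) z γ

/-- BE2 (medium). THE NORM OF A FUNCTION WITH AN EXPANSION is a polynomial of degree `≤ D`. `z = 0`: `R = 0`. `z ≠ 0`: `v_k` of every non zero term `g_s y^s` of `z` is `≥ 0`, `v_∞` is `≥ - D` (R6, `IsV`), so `v_k(z) ≥ 0`, `v_∞(z) ≥ - D`; YD0: `ofB (norm z) = nm s z`: `v_k(norm z) = l v_k(z) ≥ 0`, `v_∞(norm z) ≥ - l D`.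
So (R6, elements of `K[x, 1/f]` are `p / fp^N`) the norm is a polynomial of degree `≤ D`. (Or by the determinant of the multiplication by `z` in the basis `1, y, .., y^(l-1)`.) -/
def BE2_stmt : Prop := ∀ (K : Type) [Field K] [IsAlgClosed K] (l n : ℕ) [Fact l.Prime] [NeZero (l : K)]
  (μ : Fin (n + 1) → ℕ) (a : Fin (n + 1) → K) [Good K l μ a] (z : CR K l μ a) (D : ℕ) (γ : Fin l → K[X]), Ex D z γ →
  ∃ R : K[X], R.natDegree ≤ D ∧ Algebra.norm (BR K μ a) z = algebraMap K[X] (BR K μ a) R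

/-- BCO (short-medium). A NORMALISED FUNCTION IS DETERMINED BY ITS DIVISOR up to a constant. `f = ε f'`, `ε` a unit (`Ideal.span_singleton_eq_span_singleton`), its norm is a constant, so all `v_k(ε) = 0`, `v_∞(ε) = 0` (`l v(ε) = v(norm ε)`, YD0). As in the proof of R7 (for `w`): `ε = ∑ g_i y^i`, all `v_k(g_i y^i) ≥ 0`, `≥ 1` for `i ≥ 1`,
`v_∞(g_i y^i) ≥ 1` for `i ≥ 1`: a contradiction to R6 unless `ε = g_0`, a constant. (BE1 for `z = ε`, `S = 0` gives it faster: `l deg γ_s + s M ≤ l ∑ ⌊s μ_k / l⌋`, but `⌊s μ_k / l⌋ < s μ_k / l` for `0 < s < l`: so `γ_s = 0` for `s ≥ 1` and `γ_0` is a constant: `ε fp = γ_0 fp`.) -/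
def BCO_stmt : Prop := ∀ (K : Type) [Field K] [IsAlgClosed K] (l n : ℕ) [Fact l.Prime] [NeZero (l : K)]
  (μ : Fin (n + 1) → ℕ) (a : Fin (n + 1) → K) [Good K l μ a] (f f' : CR K l μ a) (S : Multiset (Pc K l μ a)), NFK f S → NFK f' S →
  ∃ κ : K, κ ≠ 0 ∧ f = algebraMap K (CR K l μ a) κ * f'

/-- BLI (medium). LIFTING NORMALISED FUNCTIONS. BE1 over `rf O` (algebraically closed: FJ.B1_stmt): `γ̄_s`; lift `γ̄_s` to `γ_s ∈ O[X]` of the same degree (`0` to `0`; `Polynomial.lifts`), `G = u ∑ pol(γ_s ∏ (X - a'_k)^(..)) y^s`, `u` the inverse of the unit `pol fp` of `CR O l μ a'` (`CR.unit_f`): `mp (rs O) h' G = h̄` (multiply by the unit `pol fp`) and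
`Ex D (mp O.subtype h G) ..` with `D = card U`. BE2: `norm (mp G) = R`, `deg R ≤ D`. KB3: `g ∈ O[X]`, `N`: `R fp^N = g` over `K` (`BR_inj`); `fp` is monic over `O`: `R ∈ O[X]` (`g` is divisible by the monic polynomial `fp^N` over `K`, so over `O`: uniqueness of the division with remainder); its reduction is `norm h̄ = c̄ ∏_U (X - x̄_q)` of degree `D`, `c̄ ≠ 0`:
so `R` has degree `D` and its leading coefficient is a unit of `O`; its roots are in `O` (FJ.B3_stmt: the number of the roots in `O` is `D`), their reductions are the `x̄_q`, which are not the `b_k` (YA4). So `R(a_k) ≠ 0` (the reduction of `R(a'_k)` is not zero), TD.MK_stmt: `span {mp G} = dvI S'`, `R = C c ∏_(S') (X - x_q)`: `NFK (mp G) S'`; the `x_q`, `q ∈ S'`, are in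
`O` with reductions `≠ b_k`: KB1: `S' = S1.map (mapPc O.subtype h)`. KB4 and KB1 (3): `span {h̄} = dvI (S1.map (mapPc (rs O) h'))`; KA5 (3). -/
def BLI_stmt : Prop := ∀ (K : Type) [Field K] [IsAlgClosed K] (O : ValuationSubring K)
  (l n : ℕ) [Fact l.Prime] [NeZero (l : rf O)] (μ : Fin (n + 1) → ℕ) (a' : Fin (n + 1) → O) (a : Fin (n + 1) → K)
  (b : Fin (n + 1) → rf O) [Good K l μ a] [Good (rf O) l μ b] (h : ∀ j, O.subtype (a' j) = a j)
  (h' : ∀ j, rs O (a' j) = b j) (hb : CR (rf O) l μ b) (U : Multiset (Pc (rf O) l μ b)), NFK hb U →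
  ∃ (G : CR O l μ a') (S1 : Multiset (Pc O l μ a')),
    NFK (mp O.subtype h G : CR K l μ a) (S1.map (mapPc O.subtype h)) ∧ (mp (rs O) h' G : CR (rf O) l μ b) = hb ∧ S1.map (mapPc (rs O) h') = U

/-- BIN (medium-long; compare `Pool/Agent/helper31/TD/INJ.lean`, which is the same in residue characteristic zero with V5 over the residue field; here the lifting BLI replaces it). THE SPECIALISATION IS INJECTIVE ON `V_q`, `q` and `l` invertible in the residue field.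
`Std` for `K`, `φ` (STD_stmt): `L`, `F`, `Y`; `Φ` (V3); `E`, `d` (YI0). Let `x ∈ ℚ_q`, `N = q^m`, `m` large: `c = v(x)`, `c^N = 1`, `sp c = 1`. CLAIM: `l^3 d c = 0`; so `l^3 d v = 0`, `v = 0`. (1) `Φ(c) = u / N`, `u ∈ L`. Let `w ∈ L`; as in INJ: `c'`, `c'^N = 1`, `Φ(c') = l w / N`.
(2) BYP for `c` (`B = ∅`): `S, T, f, g`; let `h̄` be a function with `NFK h̄ (l • S̄)` (`S̄` the reduction of `S`, `[S̄] = sp c = 1`: KA7 (3), YA5 (1)); BLI: `G`, `S1` with `S1` reducing to `l • S̄`. BYP for `c'` with `B` = the residues of the coordinates of `S + T + S1`: `S', T', f', g'`. V5 for `c`, `c'`: `s = hvK f' g' (l S) (card S T) / hvK f g (l S') (card S' T')`,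
`s^N = 1`, `φ(s)^d = exp(2 π i E(u, l w) / N)`. V5 for the class `1 = [S1]` with `DvK N 1 S1 T (G^(N l)) (g^l)` (`NFK (mp G) S1`: YA5 (2); `card S1 = l card S`), `u = 0`: `s1 = hvK f' g' (l S1) (card S1 T) / hvK (G^(N l)) (g^l) (l S') (card S' T')`, `φ(s1)^d = 1`, so `s1^d = 1`.
Reductions (BD2, several times): `s̄1 = s̄^l`: `l • S̄1 = l • (l • S̄)`, so the first factor of `s̄1` is the `l`-th power of that of `s̄`; for the second: `f̄ = κ h̄^N` (BCO: both are normalised functions with the divisor `N • (l • S̄)`) and `κ` cancels as `card (l S') = card (card S' T')` (`card T' = l`, IsFib).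
So `s̄^(l d) = 1`; `s^(l d)` is an `N`-th root of unity with residue `1`, and `N ≠ 0` in `rf O`: `s^(l d) = 1` (if `ξ^N = 1`, `ξ ≠ 1` then `1 + ξ + .. + ξ^(N-1) = 0`, with residue `N ≠ 0`). So `exp(2 π i l E(u, l w) / N) = 1`: `N ∣ l^2 E(u, w)` for all `w ∈ L`.
(3) `u = Y ψ`, `E(u, w) = d ψ(w)`: `(l^2 d / N) ψ` is integral on `L`, so (`Std0.int`) `(l^2 d / N) u ∈ L`: `Φ(l^2 d c) = 0`, VK: `l^3 d c = 0`. -/
def BIN_stmt : Prop := ∀ (K : Type) [Field K] [IsAlgClosed K] [Countable K] (_ : K →+* ℂ)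
  (O : ValuationSubring K) (l n q : ℕ) [Fact l.Prime] [Fact q.Prime] [NeZero (l : rf O)], ((q : ℕ) : rf O) ≠ 0 →
  l ≠ 2 → 0 < n → ∀ (μ : Fin (n + 1) → ℕ) (a' : Fin (n + 1) → O) (a : Fin (n + 1) → K)
  (b : Fin (n + 1) → rf O) [Good K l μ a] [Good (rf O) l μ b] (h : ∀ j, O.subtype (a' j) = a j)
  (h' : ∀ j, rs O (a' j) = b j) [IsDedekindDomain (CR K l μ a)] [IsDedekindDomain (CR (rf O) l μ b)]
  (sp : ClassGroup (CR K l μ a) →* ClassGroup (CR (rf O) l μ b)), IsSp O h h' sp →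
  ∀ v : VT q (JC K l μ a), (∀ x, sp (Additive.toMul (v.val x)) = 1) → v = 0

/-! ## Isomorphisms of curves -/

/-- BT1 (medium). THE ISOMORPHISM `(u, v) ↦ (c σ(u) + e, d σ(v))`. Points: `(d σ v)^l = d^l ∏ (σ u - σ a_j)^(μ_j) = d^l c^(-M) ∏ (c σ u + e - a'_(π j))^(μ_j)`. The ring homomorphism `CR K l μ a → CR K' l μ a'`, `x ↦ c⁻¹ (x - e)`, `y ↦ d⁻¹ y`, `σ` on the constants (`CR.lift`: `∏ (c⁻¹ (x - e) - σ a_j)^(μ_j) = c^(-M) ∏ (x - a'_(π j))^(μ_j)`, a unit);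
its inverse is the one for `σ⁻¹`, `σ⁻¹(c⁻¹)`, `- σ⁻¹(c⁻¹ e)`, `σ⁻¹(d⁻¹)`, `π⁻¹` (`CR.hom_ext`). `E = ClassGroup.mulEquiv` of it; it maps `ptI q = (x - u, y - v)` (KA1) to `(c⁻¹ (x - e) - σ u, d⁻¹ y - σ v) = (x - (c σ u + e), y - d σ v)`. Compare the proof of KA7 (1) and `mapP`, `autP` in `Defs.lean`. -/
def BT1_stmt : Prop := ∀ (K K' : Type) [Field K] [Field K'] [IsAlgClosed K] [IsAlgClosed K'] (l n : ℕ) [Fact l.Prime] [NeZero (l : K)] [NeZero (l : K')]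
  (μ : Fin (n + 1) → ℕ) (a : Fin (n + 1) → K) (a' : Fin (n + 1) → K') [Good K l μ a] [Good K' l μ a']
  [IsDedekindDomain (CR K l μ a)] [IsDedekindDomain (CR K' l μ a')] (σ : K ≃+* K') (c e d : K') (π : Equiv.Perm (Fin (n + 1))),
  IsQ l μ a a' σ c e d π → (∃ E : ClassGroup (CR K l μ a) ≃* ClassGroup (CR K' l μ a'), IsT σ c e d E.toMonoidHom) ∧
    ∀ q : Pc K l μ a, ∃ q' : Pc K' l μ a', q'.1.1 = c * σ q.1.1 + e ∧ q'.1.2 = d * σ q.1.2

/-- BT2 (short). COMPOSITION. Both sides are homomorphisms in `C`; `C = cl q` (KA7 (2)); the intermediate point exists by BT1 (2). -/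
def BT2_stmt : Prop := ∀ (K K' K'' : Type) [Field K] [Field K'] [Field K''] [IsAlgClosed K] [IsAlgClosed K'] [IsAlgClosed K''] (l n : ℕ) [Fact l.Prime]
  [NeZero (l : K)] [NeZero (l : K')] [NeZero (l : K'')] (μ : Fin (n + 1) → ℕ) (a : Fin (n + 1) → K) (a' : Fin (n + 1) → K') (a'' : Fin (n + 1) → K'')
  [Good K l μ a] [Good K' l μ a'] [Good K'' l μ a''] [IsDedekindDomain (CR K l μ a)] [IsDedekindDomain (CR K' l μ a')] [IsDedekindDomain (CR K'' l μ a'')]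
  (σ : K ≃+* K') (c e d : K') (π : Equiv.Perm (Fin (n + 1))) (σ' : K' ≃+* K'') (c' e' d' : K'') (π' : Equiv.Perm (Fin (n + 1)))
  (E : ClassGroup (CR K l μ a) →* ClassGroup (CR K' l μ a')) (E' : ClassGroup (CR K' l μ a') →* ClassGroup (CR K'' l μ a''))
  (E'' : ClassGroup (CR K l μ a) →* ClassGroup (CR K'' l μ a'')), IsQ l μ a a' σ c e d π → IsQ l μ a' a'' σ' c' e' d' π' → IsT σ c e d E → IsT σ' c' e' d' E' →
  IsT (σ.trans σ') (c' * σ' c) (c' * σ' e + e') (d' * σ' d) E'' → ∀ C, E' (E C) = E'' C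

/-- BT3 (short). `actP` and `CR.aut` in this notation. KA7 (1) for the second; the first as KA7 (1): `autP σ h` maps `ptI q = (x - u, y - v)` to `(x - σ u, y - σ v)` (`mapP_x`, `mapP_y`, `mapP_C`). -/
def BT3_stmt : Prop := ∀ (K : Type) [Field K] [IsAlgClosed K] (l n : ℕ) [Fact l.Prime] [NeZero (l : K)]
  (μ : Fin (n + 1) → ℕ) (a : Fin (n + 1) → K) [Good K l μ a] [IsDedekindDomain (CR K l μ a)] (σ : K ≃+* K),
  (∀ (π : Equiv.Perm (Fin (n + 1))) (h : IsP σ μ a a π), IsT σ 1 0 1 (ClassGroup.mulEquiv (autP (l := l) σ h)).toMonoidHom) ∧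
  ∀ (h : ∀ j, σ (a j) = a j) (s : rootsOfUnity l K), IsT σ 1 0 (((s⁻¹ : rootsOfUnity l K) : Kˣ) : K)
    (ClassGroup.mulEquiv (CR.aut σ h s : CR K l μ a ≃+* CR K l μ a)).toMonoidHom

/-- BGP (short-medium). THE ACTION OF `G = {σ | PF D σ}` ON `V_q(J_i)`. BT3, BT2, KA7 (2): the actions on the class group agree on the classes of points; the permutation in `PF` does not matter. `VT.map` is functorial. (`(σ * τ) x = σ (τ x)`.) -/
def BGP_stmt : Prop := ∀ (l q : ℕ) [Fact l.Prime] [Fact q.Prime] (D : Dat l),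
  PF D 1 ∧ (∀ σ τ : Om ≃+* Om, PF D σ → PF D τ → PF D (σ * τ)) ∧ (∀ σ : Om ≃+* Om, PF D σ → PF D σ⁻¹) ∧ ∀ i : Fin D.k,
  (∀ (σ τ : Om ≃+* Om) (h1 : PF D σ) (h2 : PF D τ) (h3 : PF D (σ * τ)) v, galP q h3 i v = galP q h1 i (galP q h2 i v)) ∧
  (∀ (h : PF D 1) v, galP q h i v = v) ∧
  (∀ (σ : Om ≃+* Om) (h : PF D σ) (h' : D.Fix σ) v, galP q h i v = TQ.galA q h' i v) ∧
  (∀ (σ : Om ≃+* Om) (h : PF D σ) (s : rootsOfUnity l Om) v, galP q h i (zK q s v) = zK q s (galP q h i v)) ∧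
  ∀ (σ : Om ≃+* Om) (h : PF D σ) v, (∀ x : ℤ_[q], v.val (x : ℚ_[q]) = 0) → ∀ x : ℤ_[q], (galP q h i v).val (x : ℚ_[q]) = 0

/-- BPA (short). Every `σ` which fixes the `l`-th roots of unity is in `PF`, if for every `i` the branch points are rational or they are the roots of a rational polynomial and the `μ_j` are equal: `σ` permutes the roots of `f_i` (the map `j ↦ j'` with `σ(a_j) = a_(j')` is injective (`Good.inj`), so bijective). -/
def BPA_stmt : Prop := ∀ (l : ℕ) [Fact l.Prime] (D : Dat l),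
  (∀ i, (∀ j, ∃ x : ℚ, D.a i j = (x : Om)) ∨ ((∀ j, D.μ i j = D.μ i 0) ∧ ∃ F : ℚ[X], F.map (algebraMap ℚ Om) = ∏ j, (X - C (D.a i j)))) →
  ∀ σ : Om ≃+* Om, (∀ s : Om, s ^ l = 1 → σ s = s) → PF D σ

/-- BSE (short-medium; compare `Pool/Agent/helper89/TD/SP1.lean`). THE SPECIALISATION COMMUTES with the isomorphisms which fix `O`. Both sides are homomorphisms in `C`; `C = cl q`, `q = (u, v)` (KA7 (2)); `E (cl q) = cl (c τ u, d τ v)` (the point exists: BT1 (2)). If `q` comes from a point over `O` (KB1: `u ∈ O`, `ū ≠ b_j`) then so does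
`(c τ u, d τ v)`, with the reduction `(c̄ τ'(ū), d̄ τ'(v̄))` (`c̄ τ'(b_j) = b_(π j)`, the reduction of the equation for the `a_j`); if not then `c τ u ∉ O` or its residue is one of the `b_j` (`Stab`, `c` is a unit, `π` is bijective). -/
def BSE_stmt : Prop := ∀ (K : Type) [Field K] [IsAlgClosed K] (O : ValuationSubring K)
  (l n : ℕ) [Fact l.Prime] [NeZero (l : rf O)] (μ : Fin (n + 1) → ℕ) (a' : Fin (n + 1) → O) (a : Fin (n + 1) → K)
  (b : Fin (n + 1) → rf O) [Good K l μ a] [Good (rf O) l μ b] (h : ∀ j, O.subtype (a' j) = a j)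
  (h' : ∀ j, rs O (a' j) = b j) [IsDedekindDomain (CR K l μ a)] [IsDedekindDomain (CR (rf O) l μ b)]
  (sp : ClassGroup (CR K l μ a) →* ClassGroup (CR (rf O) l μ b)), IsSp O h h' sp →
  ∀ (τ : K ≃+* K) (τ' : rf O ≃+* rf O), Stab O τ → Rd O τ τ' → ∀ (c d : O) (π : Equiv.Perm (Fin (n + 1))), IsUnit c → IsUnit d →
  IsQ l μ a a τ (c : K) 0 (d : K) π → ∀ (E : ClassGroup (CR K l μ a) →* ClassGroup (CR K l μ a)) (E' : ClassGroup (CR (rf O) l μ b) →* ClassGroup (CR (rf O) l μ b)),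
  IsT τ (c : K) 0 (d : K) E → IsT τ' (rs O c) 0 (rs O d) E' → ∀ C, sp (E C) = E' (sp C)

/-- BRO (medium). THE AUTOMORPHISM `X ↦ s X` OF `Y^l = (X^m - 1)^μ`, `m = n + 1` a prime number: `∑_(i < m) E^i = 0` on the class group. `C = cl q`, `q = (u, v)` (KA7 (2)): `E^i (cl q) = cl (s^i u, v)` (these are points: `∏ (X - b_j) = X^m - 1` as the `b_j` are `m` different `m`-th roots of unity). `k μ_0 = l e + 1`; `h = y^k w`, `w` the inverse of the unit `∏ (x - b_j)^e`,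
`h^l = ∏ (x - b_j) = x^m - 1`; `v1 = h(q)` (`ev q h`), `v1^l = u^m - 1 ≠ 0` (`u` is not a `b_j`). The function `F = h - v1`: its norm is `- v1^l + ∏ (X - b_j) = X^m - u^m` (TD.MN_stmt for the constant `α = - v1`, `r_i = 1`), not zero at the `b_j`. TD.MK_stmt: `span {F} = dvI S`, `X^m - u^m = C c ∏_S (X - x_q)`. The points `q' ∈ S` satisfy `h(q') = v1`
(`F ∈ dvI S ≤ ptI q'`), `x(q') = s^j u` for some `j` (`s` is a primitive `m`-th root of unity), and `y = h^(μ_0) * unit in x`: `h^(μ_0) = y^(k μ_0) w^(μ_0) = y y^(l e) w^(μ_0) = y (x^m - 1)^(e μ_0) / (x^m - 1)^(e μ_0) = y`; so `y(q') = v1^(μ_0) = v`: `q' = (s^j u, v)`. `X^m - u^m = ∏_(i < m) (X - s^i u)` (`IsPrimitiveRoot.pow_sub_pow_eq_prod_sub_mul` or similar):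
`S` = the multiset of the `(s^i u, v)`, `i < m` (compare the first coordinates: `Multiset.map` of roots). KA7 (3): `∏ cl (s^i u, v) = 1`. -/
def BRO_stmt : Prop := ∀ (k : Type) [Field k] [IsAlgClosed k] (l n : ℕ) [Fact l.Prime] [NeZero (l : k)], l ≠ 2 → (n + 1).Prime →
  ∀ (μ : Fin (n + 1) → ℕ) (b : Fin (n + 1) → k) [Good k l μ b] [IsDedekindDomain (CR k l μ b)], (∀ j, μ j = μ 0) → (∀ j, b j ^ (n + 1) = 1) →
  ∀ s : k, s ^ (n + 1) = 1 → s ≠ 1 → ∀ E : ClassGroup (CR k l μ b) →* ClassGroup (CR k l μ b), IsT (RingEquiv.refl k) s 0 1 E →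
  ∀ C, ∏ i ∈ Finset.range (n + 1), (E^[i]) C = 1

/-! ## The arithmetic at an Eisenstein prime -/

/-- BEI (medium). THE ROOTS OF AN EISENSTEIN POLYNOMIAL at a place over `p`. `m = n + 1`, `F = X^m + ∑ c_i X^i`, `p ∣ c_i`, `c_0 = p c`, `p ∤ c`; `p` is in the maximal ideal of `O`, integers prime to `p` are units of `O`. The `a_j` are in `O` (integral), `a_j ≠ 0`; `a_j^m = - p (c + ∑_(0<i<m) (c_i / p) a_j^i)` is in the maximal ideal, so is `a_j`, so `a_j^m = - p (c + small)`: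
`(a_j / a_0)^m` is a unit with residue `1`; `α_j = a_j / a_0 ∈ O` (`O` is integrally closed), its residue `b_j` satisfies `b_j^m = 1`. DIFFERENT: `∏ (X - α_j) = F(a_0 X) / a_0^m = X^m + ∑_(0<i<m) c_i a_0^(i-m) X^i + c_0 a_0^(-m)` over `K`; `p / a_0^m = - 1 / (c + small) ∈ O`, so the coefficients for `0 < i < m` are in the maximal ideal and `c_0 / a_0^m` has residue `- 1`:
`∏ (X - b_j) = X^m - 1` over `rf O`, which is separable as `m ≠ 0`. -/
def BEI_stmt : Prop := ∀ (K : Type) [Field K] [CharZero K] (O : ValuationSubring K) (p n : ℕ), p.Prime → ((p : ℕ) : rf O) = 0 → ((n + 1 : ℕ) : rf O) ≠ 0 →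
  ∀ F : ℤ[X], F.Monic → F.IsEisensteinAt (Ideal.span {(p : ℤ)}) → ∀ a : Fin (n + 1) → K, F.map (Int.castRingHom K) = ∏ j, (X - C (a j)) →
  a 0 ≠ 0 ∧ (∃ x : O, IsUnit x ∧ a 0 ^ (n + 1) = (p : K) * x) ∧
  ∃ α : Fin (n + 1) → O, (∀ j, (α j : K) = a j / a 0) ∧ (∀ j, IsUnit (α j) ∧ rs O (α j) ^ (n + 1) = 1) ∧ Function.Injective fun j => rs O (α j)

/-- BIL (medium). LIFTING INERTIA. Extend `τ0` to `τ1 : Om ≃ₐ[ℚ] Om` (`AlgEquiv.liftNormal` or `restrictNormalHom_surjective`). `τ1(O)` and `O` have the same intersection with `L` (`x ∈ L`: `x ∈ O ↔ τ0 x ∈ O`: by the hypothesis for `→`; for `←`: if `x ∉ O` then `x⁻¹ ∈ O` is not a unit, `τ0 (x⁻¹)` is in `O` with the same residue `0`, so `τ0 x ∉ O`).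
TD.CONJ_stmt for `k = L`: `γ ∈ Gal(Om / L)` with `γ τ1(O) = O`; `τ2 = γ τ1` satisfies `Stab O`, extends `τ0`. It induces an automorphism `κ` of `rf O` which is the identity on the residue field `F_0` of `L ∩ O`; `F_0` is finite, or: `κ` is the identity on the residues of `L ∩ O`. Surjectivity of `{γ ∈ Gal(Om / L) | Stab O γ} → Aut(rf O / F_0)`: Mathlib
`Ideal.Quotient.stabilizerHom_surjective_of_profinite` (`RingTheory/Invariant/Profinite.lean`) for `A = L ∩ O` (`O.comap`), `B` its integral closure in `Om`, `Q = B ∩ m_O`, `B ⧸ Q → rf O` is bijective (every `x ∈ O` is `u / v`, `u, v ∈ B`, `v ∉ Q`: see `TD.CONJ_stmt` and its proof `Pool/Agent/*/TD/CONJ.lean`, and `B ⧸ Q` is a field, as it is algebraic over the field `A ⧸ (A ∩ Q)`): `γ2` with the action `κ`; `τ = γ2⁻¹ τ2`. -/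
def BIL_stmt : Prop := ∀ (O : ValuationSubring Om) (L : IntermediateField ℚ Om) [FiniteDimensional ℚ L] [IsGalois ℚ L] (τ0 : L ≃ₐ[ℚ] L),
  (∀ x : L, ((x : L) : Om) ∈ O → ∃ y : O, (y : Om) = ((τ0 x : L) : Om) - ((x : L) : Om) ∧ rs O y = 0) →
  ∃ τ : Om ≃+* Om, (∀ x : L, τ ((x : L) : Om) = ((τ0 x : L) : Om)) ∧ Stab O τ ∧ ∀ y z : O, τ (y : Om) = z → rs O z = rs O y

/-- BIF (medium-long). AN ELEMENT OF THE INERTIA GROUP WHICH MOVES `a_0`. `L` = the splitting field of `F` in `Om` (generated by the `a_j`), Galois over `ℚ`; `P = {x ∈ 𝓞 L | rs O x = 0}`, a prime over `p` (`p ∈ P`; not `⊥`). `m = n + 1`. BEI: `a_0^m = p x`, `x ∈ O` a unit (and `x ∈ L`), `a_0 ∈ 𝓞 L`; the localisation of `𝓞 L` at `P` is a discrete valuation ring contained in `L ∩ O`, so equal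
to it (`u / v`, `v ∉ P` is in `O`; a proper overring of a discrete valuation ring is the field, but `1/p ∉ O`): `m v_P(a_0) = v_P(p) = e`, the ramification index (`Ideal.ramificationIdx`): `m ∣ e`. Mathlib `Ideal.card_inertia_eq_ramificationIdxIn` (`NumberTheory/RamificationInertia/Galois.lean`, for `ℤ`, `𝓞 L`, `Gal(L/ℚ)`): the inertia group of `P` has order `e`; Cauchy
(`exists_prime_orderOf_dvd_card`): an element `τ0` of order `m` in it. `τ0` permutes the roots `a_j` of `F` (different: `F` is irreducible in characteristic zero, or BEI); `τ0 ≠ 1` and `L` is generated by the `a_j`: some `a_j` is moved; the orbits of `⟨τ0⟩` have `1` or `m` elements, and there are `m` points, so `a_0` is moved. The condition of BIL: `x ∈ L ∩ O` is `u / v` with `u, v ∈ 𝓞 L`,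
`v ∉ P`; `τ0 x - x = (v (τ0 u - u) - u (τ0 v - v)) / (v τ0 v)`. BIL. -/
def BIF_stmt : Prop := ∀ (O : ValuationSubring Om) (p n : ℕ) [Fact p.Prime] [CharP (rf O) p], (n + 1).Prime → n + 1 ≠ p →
  ∀ F : ℤ[X], F.Monic → F.IsEisensteinAt (Ideal.span {(p : ℤ)}) → ∀ a : Fin (n + 1) → Om, F.map (Int.castRingHom Om) = ∏ j, (X - C (a j)) →
  ∃ τ : Om ≃+* Om, Stab O τ ∧ (∀ y z : O, τ (y : Om) = z → rs O z = rs O y) ∧ τ (a 0) ≠ a 0

/-- BFR (short-medium). A PLACE OVER `p` WITH A FROBENIUS ELEMENT. FJ.E2_stmt for `L = ⊥` and the prime `P` of `𝓞 ⊥` over `p` (`𝓞 ⊥ ≃ ℤ`, `Rat.ringOfIntegersEquiv`, `IntermediateField.botEquiv`; `absNorm P = p`: the quotient is `ℤ / p`). `p ∈ P`: `CharP (rf O) p`. `Stab`: if `φ x ∈ O` and `x ∉ O` then `x⁻¹ ∈ O` has residue `0`, so has `φ (x⁻¹)`, a contradiction to `φ x ∈ O`. -/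
def BFR_stmt : Prop := ∀ (p : ℕ) [Fact p.Prime], ∃ (O : ValuationSubring Om) (φ : Om ≃+* Om), CharP (rf O) p ∧ Stab O φ ∧ IsFrobO O φ p

/-- BPR (short). THE PRIMITIVE ROOT. `p` is a unit of `ZMod m`, of order at least `m - 1`, so it generates the group of units (`m - 1` elements). -/
def BPR_stmt : Prop := ∀ m p : ℕ, m.Prime → p.Prime → p ≠ m → (∀ r : ℕ, 0 < r → m ∣ p ^ r - 1 → m - 1 ≤ r) →
  ∀ x y : ZMod m, x ≠ 0 → y ≠ 0 → ∃ k : ℕ, y = (p : ZMod m) ^ k * x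

/-- BEF (short). THE POLYNOMIAL. `F = X^m + ∑ f_k X^k`, `m = n + 1`; the `a_j - c` are `m` different roots of `F` over `K`, so `F = ∏ (X - (a_j - c))`; for the second: `F(X - c)`. -/
def BEF_stmt : Prop := ∀ (K : Type) [Field K] [CharZero K] (n p : ℕ), p.Prime → ∀ (a : Fin (n + 1) → K), Function.Injective a → ∀ (f : Fin (n + 1) → ℤ) (c : ℤ),
  (∀ k, (p : ℤ) ∣ f k) → ¬ (p : ℤ) ^ 2 ∣ f 0 → (∀ j, (a j - (c : K)) ^ (n + 1) + ∑ k : Fin (n + 1), (f k : K) * (a j - (c : K)) ^ (k : ℕ) = 0) →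
  (∃ F : ℤ[X], F.Monic ∧ F.IsEisensteinAt (Ideal.span {(p : ℤ)}) ∧ F.map (Int.castRingHom K) = ∏ j, (X - C (a j - (c : K)))) ∧
  ∃ F : ℚ[X], F.map (algebraMap ℚ K) = ∏ j, (X - C (a j))

/-! ## The assembly -/

/-- BST (medium). THE SPECIALISATION AT THE EISENSTEIN PLACE. `w = a_0 - u ≠ 0`, BEI for `a_j - u`: `α_j = (a_j - u) / w`, `b_j = rs O (α_j)`, `b_0 = 1`; `Good Om l μ α`, `Good (rf O) l μ b` (`inj` from BEI, the rest from `Good Om l μ a`), Dedekind: TK.KA4_stmt. `w' ∈ Om` with `w'^l = w^M`, `M = ∑ μ_j`. BT1 for `σ = 1`, `c = w⁻¹`, `e = - u w⁻¹`, `d = w'⁻¹`, `π = 1`: `E0`.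
KB6: `sp`; `S = sp ∘ E0`. Injectivity: `v' = VT.map E0 v`, BIN: `v' = 0`, and `E0` is an isomorphism. (`q`, `l` are not zero in `rf O`: `CharP (rf O) p`, `q, l ≠ p`.) EQUIVARIANCE. `g` with `Stab O g`, `Rd O g g'`, `IsP g μ a a π` (`g u = u`, `u` is an integer): `E0 ∘ (class of (x, y) ↦ class of (g x, g y)) = E_g ∘ E0` with `E_g` as in BT1 for `g`, `c = g w / w = (a_(π 0) - u) / w = α_(π 0)`, a
unit (BEI), `e = 0`, `d = g w' / w'`, `d^l = c^M`, so `d` is a unit of `O` (integrally closed): BT2 (two times). BSE: `sp (E_g C) = E' (sp C)`; `c̄ = b_(π 0)`, `d̄` = the residue of `g w' / w'`; `IsQ l μ b b g' c̄ 0 d̄ π` is the reduction of `IsQ l μ α α g c 0 d π`. For `CR.aut (refl) _ s`: `IsT refl 1 0 s⁻¹` on both curves (BT3, BT2), BSE. -/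
def BST_stmt : Prop := ∀ (O : ValuationSubring Om) (l n p : ℕ) [Fact l.Prime] [Fact p.Prime] [CharP (rf O) p], l ≠ 2 → l ≠ p → 0 < n → ¬ p ∣ n + 1 →
  ∀ (μ : Fin (n + 1) → ℕ) (a : Fin (n + 1) → Om) [Good Om l μ a] [IsDedekindDomain (CR Om l μ a)], (∀ j, μ j = μ 0) →
  ∀ (F : ℤ[X]) (u : ℤ), F.Monic → F.IsEisensteinAt (Ideal.span {(p : ℤ)}) → F.map (Int.castRingHom Om) = ∏ j, (X - C (a j - (u : Om))) →
  ∃ (b : Fin (n + 1) → rf O) (_ : Good (rf O) l μ b) (_ : IsDedekindDomain (CR (rf O) l μ b)) (S : ClassGroup (CR Om l μ a) →* ClassGroup (CR (rf O) l μ b)),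
    b 0 = 1 ∧ (∀ j, b j ^ (n + 1) = 1) ∧
    (∀ (q : ℕ) [Fact q.Prime], q ≠ p → ∀ v : VT q (JC Om l μ a), (∀ x, S (Additive.toMul (v.val x)) = 1) → v = 0) ∧
    (∀ (g : Om ≃+* Om) (g' : rf O ≃+* rf O), Stab O g → Rd O g g' → ∀ (π : Equiv.Perm (Fin (n + 1))) (h : IsP g μ a a π),
      ∃ d : rf O, IsQ l μ b b g' (b (π 0)) 0 d π ∧ ∀ E' : ClassGroup (CR (rf O) l μ b) →* ClassGroup (CR (rf O) l μ b), IsT g' (b (π 0)) 0 d E' →
        ∀ C, S (ClassGroup.mulEquiv (autP (l := l) g h) C) = E' (S C)) ∧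
    ∀ (s : rootsOfUnity l Om) (y : O), (y : Om) = ((s : Omˣ) : Om) → ∀ E' : ClassGroup (CR (rf O) l μ b) →* ClassGroup (CR (rf O) l μ b),
      IsT (RingEquiv.refl (rf O)) 1 0 (rs O y)⁻¹ E' → ∀ C, S (ClassGroup.mulEquiv (CR.aut (RingEquiv.refl Om) (fun _ => rfl) s) C) = E' (S C)

/-- BPL (medium-long). THE TWO OPERATORS ON `V_q(J_i)`, the same automorphisms for all `q ≠ p`. BFR: `O`, `φ`; BIF for the `a_j - u`: `τ`, `τ (a_0) ≠ a_0`. Both fix the `l`-th roots of unity: an `l`-th root of unity is determined by its residue (`l ≠ 0` in `rf O`, as `l ∣ p - 1`), `τ s = s` modulo the maximal ideal, `φ s = s^p = s`. So they are in `PF`; `b`, `S` from BST (`n + 1 ≠ p`; `π`, `π'` the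
permutations in `PF` for `τ`, `φ`). `Rd O τ refl`; `Rd O φ φ'`, `φ' x = x^p` (`rf O` is algebraically closed: FJ.B1_stmt, so perfect; or the automorphism induced by `φ`). `s = b_(π 0) ≠ 1 = b_0` (`π 0 ≠ 0` as `τ a_0 ≠ a_0`), `d` from BST for `τ`: `d^l = s^M = 1` (`M = (n + 1) μ_0`): `d` is the residue of an `l`-th root of unity `r` (the `l`-th roots of unity reduce bijectively).
`T = galP τ ∘ zK r`; BT1 over `rf O`: `R` with `IsT refl s 0 1 R`; `S (actP τ (act_r C)) = R (S C)`: BST for `τ` and for `r`, BT2 over `rf O`. So `S ((∑ T^j v)(x)) = ∏ R^j (S (v x)) = 1` (BRO) for all `x`: `∑ T^j v = 0` by injectivity. `Φ = galP φ`: `Φ'` with `IsT φ' b_(π' 0) 0 d' Φ'`; `Φ' R = R^p Φ'`: both are `(X, Y) ↦ (b_(π' 0) s^p X^p, d' Y^p)`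
(BT2, induction for `R^p`: `IsT refl (s^k) 0 1 (R^k)`). So `S ((Φ T v)(x)) = S ((T^p Φ v)(x))`, `Φ T v = T^p Φ v` by injectivity for the difference. -/
def BPL_stmt : Prop := ∀ (l p : ℕ) [Fact l.Prime] [Fact p.Prime], l ≠ 2 → l ∣ p - 1 → ∀ D : Dat l,
  (∀ σ : Om ≃+* Om, (∀ s : Om, s ^ l = 1 → σ s = s) → PF D σ) → ∀ i : Fin D.k, (D.n i + 1).Prime → D.n i + 1 ≠ p → (∀ j, D.μ i j = D.μ i 0) →
  ∀ (F : ℤ[X]) (u : ℤ), F.Monic → F.IsEisensteinAt (Ideal.span {(p : ℤ)}) → F.map (Int.castRingHom Om) = ∏ j, (X - C (D.a i j - (u : Om))) →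
  ∃ (τ φ : Om ≃+* Om) (hτ : PF D τ) (hφ : PF D φ) (r : rootsOfUnity l Om), ∀ (q : ℕ) [Fact q.Prime], q ≠ p →
    ∑ j ∈ Finset.range (D.n i + 1), ((galP q hτ i ∘ₗ zK q r : Module.End ℚ_[q] (VT q (JC Om l (D.μ i) (D.a i))))) ^ j = 0 ∧
    ∀ v, galP q hφ i ((galP q hτ i ∘ₗ zK q r) v) = ((galP q hτ i ∘ₗ zK q r : Module.End ℚ_[q] (VT q (JC Om l (D.μ i) (D.a i)))) ^ p) (galP q hφ i v)

/-- BRF (medium). THE RESULT OF THIS PART. BPL: `τ`, `φ`, `r`. Let `q ≠ p`; `T`, `Φ` on `V = V_q(J_i)`. `Z = zK z`; TD.VF_stmt for `K = Om` (countable, `Om → ℂ`): the basis; TD.NBK_stmt: `∑ Z^j = 0`; LDE: the eigenspace `E_s = eg (1 ⊗ Z) ζ s` has dimension `n = m - 1`. `galP τ`, `galP φ`, `zK r` are invertible (BGP: inverses) and commute with `Z` (BGP; `r` is a power of `z`: `zK r` is a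
power of `Z`), so they act on `E_s` (restrictions: linear equivalences); `zK r` acts on `E_s` by a scalar, an `l`-th root of unity. LIB for `E_s`, `1 ⊗ T`, `1 ⊗ Φ`: the basis (`c` = the inverse of the scalar). LIR: if `W` is stable under `1 ⊗ galP τ` and `1 ⊗ Φ` then it is stable under `1 ⊗ T`. (`p ≠ m`: `m ≥ 3` or `p = m = 2`, but `l ∣ p - 1`.) -/
def BRF_stmt : Prop := ∀ (l p : ℕ) [Fact l.Prime] [Fact p.Prime], l ≠ 2 → l ∣ p - 1 → ∀ D : Dat l,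
  (∀ σ : Om ≃+* Om, (∀ s : Om, s ^ l = 1 → σ s = s) → PF D σ) → ∀ i : Fin D.k, (D.n i + 1).Prime →
  (∀ x y : ZMod (D.n i + 1), x ≠ 0 → y ≠ 0 → ∃ k : ℕ, y = (p : ZMod (D.n i + 1)) ^ k * x) → (∀ j, D.μ i j = D.μ i 0) →
  ∀ (F : ℤ[X]) (u : ℤ), F.Monic → F.IsEisensteinAt (Ideal.span {(p : ℤ)}) → F.map (Int.castRingHom Om) = ∏ j, (X - C (D.a i j - (u : Om))) →
  ∃ (τ φ : Om ≃+* Om) (hτ : PF D τ) (hφ : PF D φ), ∀ (q : ℕ) [Fact q.Prime], q ≠ p →
  ∀ (Ω : Type) [Field Ω] [IsAlgClosed Ω] [CharZero Ω] [Algebra ℚ_[q] Ω] (ζ : Ω), IsPrimitiveRoot ζ l → ∀ z : rootsOfUnity l Om, Prim z → ∀ s : ℕ, 0 < s → s < l →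
  (∃ (c ω : Ω) (v : Module.Basis (Fin (D.n i)) Ω (eg (LinearMap.baseChange Ω (zK q z : VT q (JC Om l (D.μ i) (D.a i)) →ₗ[ℚ_[q]] VT q (JC Om l (D.μ i) (D.a i)))) ζ s)),
    c ^ l = 1 ∧ IsPrimitiveRoot ω (D.n i + 1) ∧
    (∀ j, LinearMap.baseChange Ω (galP q hτ i) (v j : Ω ⊗[ℚ_[q]] VT q (JC Om l (D.μ i) (D.a i))) = (c * ω ^ ((j : ℕ) + 1)) • (v j : Ω ⊗[ℚ_[q]] VT q (JC Om l (D.μ i) (D.a i)))) ∧
    ∀ j j' : Fin (D.n i), ((((j' : ℕ) + 1) * p : ℕ) : ZMod (D.n i + 1)) = (((j : ℕ) + 1 : ℕ) : ZMod (D.n i + 1)) → ∃ d : Ω, d ≠ 0 ∧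
      LinearMap.baseChange Ω (galP q hφ i) (v j : Ω ⊗[ℚ_[q]] VT q (JC Om l (D.μ i) (D.a i))) = d • (v j' : Ω ⊗[ℚ_[q]] VT q (JC Om l (D.μ i) (D.a i)))) ∧
  ∀ W : Submodule Ω (Ω ⊗[ℚ_[q]] VT q (JC Om l (D.μ i) (D.a i))), W ≤ eg (LinearMap.baseChange Ω (zK q z)) ζ s →
    (∀ w ∈ W, LinearMap.baseChange Ω (galP q hτ i) w ∈ W) → (∀ w ∈ W, LinearMap.baseChange Ω (galP q hφ i) w ∈ W) → W = ⊥ ∨ W = eg (LinearMap.baseChange Ω (zK q z)) ζ s

end

end Pool.Agent.AQ
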