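import Pool.Agent.helper85.AQ.SpecB

/-!
# Project aq, row BM1
-/

set_option autoImplicit false

namespace Pool.Agent.AQ

open Polynomial Pool.Agent.HC Pool.Agent.HC.SJ Pool.Agent.SJ Pool.Agent.GJ Pool.Agent.TK Pool.Agent.CM
open Pool.Agent.TQJ Pool.Agent.TQG
open Pool.Agent.FJ (VT Om chiO rf rs IsFrobO)
open Pool.Agent.TD (zK DvK bC mK IsPhiK Stab)
open scoped TensorProduct NumberField

noncomputable section

/-! ## The polynomials -/

/-- `α = (X - u) (X - e)^(n+1) - w` -/
def BM1_al {A : Type} [CommRing A] (n : ℕ) (u e w : A) : A[X] :=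
  (X - C u) * (X - C e) ^ (n + 1) - C w

/-- `∏ (X - a_i)^(r_i)` -/
def BM1_Q {A : Type} [CommRing A] {n : ℕ} (r : Fin (n + 1) → ℕ) (a : Fin (n + 1) → A) : A[X] :=
  ∏ i, (X - C (a i)) ^ r i

/-- `α^l + ∏ (X - a_i)^(r_i)` -/
def BM1_P {A : Type} [CommRing A] {n : ℕ} (l : ℕ) (r : Fin (n + 1) → ℕ) (a : Fin (n + 1) → A)
    (u e w : A) : A[X] := BM1_al n u e w ^ l + BM1_Q r a

theorem BM1_al_map {A B : Type} [CommRing A] [CommRing B] (φ : A →+* B) (n : ℕ) (u e w : A) :
    (BM1_al n u e w).map φ = BM1_al n (φ u) (φ e) (φ w) := by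
  simp [BM1_al]

theorem BM1_Q_map {A B : Type} [CommRing A] [CommRing B] (φ : A →+* B) {n : ℕ} (r : Fin (n + 1) → ℕ)
    (a : Fin (n + 1) → A) (b : Fin (n + 1) → B) (h : ∀ i, φ (a i) = b i) :
    (BM1_Q r a).map φ = BM1_Q r b := by
  simp [BM1_Q, Polynomial.map_prod, h]

theorem BM1_P_map {A B : Type} [CommRing A] [CommRing B] (φ : A →+* B) {n : ℕ} (l : ℕ)
    (r : Fin (n + 1) → ℕ) (a : Fin (n + 1) → A) (b : Fin (n + 1) → B) (h : ∀ i, φ (a i) = b i)
    (u e w : A) : (BM1_P l r a u e w).map φ = BM1_P l r b (φ u) (φ e) (φ w) := by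
  unfold BM1_P
  rw [Polynomial.map_add, Polynomial.map_pow, BM1_al_map, BM1_Q_map φ r a b h]

theorem BM1_al_eval {A : Type} [CommRing A] (n : ℕ) (u e w x : A) :
    (BM1_al n u e w).eval x = (x - u) * (x - e) ^ (n + 1) - w := by
  simp [BM1_al]

theorem BM1_Q_eval {A : Type} [CommRing A] {n : ℕ} (r : Fin (n + 1) → ℕ) (a : Fin (n + 1) → A) (x : A) :
    (BM1_Q r a).eval x = ∏ i, (x - a i) ^ r i := by
  simp [BM1_Q, eval_prod]

theorem BM1_P_eval {A : Type} [CommRing A] {n : ℕ} (l : ℕ) (r : Fin (n + 1) → ℕ)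
    (a : Fin (n + 1) → A) (u e w x : A) :
    (BM1_P l r a u e w).eval x = ((x - u) * (x - e) ^ (n + 1) - w) ^ l + ∏ i, (x - a i) ^ r i := by
  rw [BM1_P, eval_add, eval_pow, BM1_al_eval, BM1_Q_eval]

theorem BM1_P_monic {A : Type} [CommRing A] [Nontrivial A] {n : ℕ} (l : ℕ) (r : Fin (n + 1) → ℕ)
    (a : Fin (n + 1) → A) (u e w : A) (hl : 0 < l) (hr : ∀ i, r i < l) :
    (BM1_P l r a u e w).Monic := by
  have m1 : ((X - C u) * (X - C e) ^ (n + 1) : A[X]).Monic :=
    (monic_X_sub_C u).mul ((monic_X_sub_C e).pow _)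
  have d1 : ((X - C u) * (X - C e) ^ (n + 1) : A[X]).natDegree = n + 2 := by
    rw [(monic_X_sub_C u).natDegree_mul ((monic_X_sub_C e).pow _), (monic_X_sub_C e).natDegree_pow,
      natDegree_X_sub_C, natDegree_X_sub_C]
    ring
  have m2 : (BM1_al n u e w).Monic := by
    refine m1.sub_of_left ?_
    rw [degree_eq_natDegree m1.ne_zero, d1]
    refine lt_of_le_of_lt degree_C_le ?_
    exact_mod_cast Nat.succ_pos (n + 1)
  have d2 : (BM1_al n u e w).natDegree = n + 2 := by
    rw [BM1_al, natDegree_sub_C, d1]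
  have m3 : (BM1_Q r a).Monic := monic_prod_of_monic _ _ fun i _ => (monic_X_sub_C _).pow _
  have d3 : (BM1_Q r a).natDegree = ∑ i, r i := by
    rw [BM1_Q, natDegree_prod_of_monic _ _ fun i _ => (monic_X_sub_C _).pow _]
    refine Finset.sum_congr rfl fun i _ => ?_
    rw [(monic_X_sub_C _).natDegree_pow, natDegree_X_sub_C, mul_one]
  refine (m2.pow l).add_of_left ?_
  rw [degree_eq_natDegree m3.ne_zero, degree_eq_natDegree (m2.pow l).ne_zero, d3, m2.natDegree_pow, d2]
  have e1 : ∑ i, r i ≤ ∑ _i : Fin (n + 1), l := Finset.sum_le_sum fun i _ => (hr i).le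
  have e2 : ∑ _i : Fin (n + 1), l = (n + 1) * l := by simp
  have e3 : ∑ i, r i < l * (n + 2) := by
    rw [e2] at e1
    refine lt_of_le_of_lt e1 ?_
    nlinarith
  exact_mod_cast e3

theorem BM1_der {k : Type} [Field k] {n : ℕ} (l : ℕ) (r : Fin (n + 1) → ℕ)
    (a : Fin (n + 1) → k) (u e w : k) :
    (derivative (BM1_P l r a u e w)).eval u =
      l * (-w) ^ (l - 1) * (u - e) ^ (n + 1) + (derivative (BM1_Q r a)).eval u := by
  have h1 : (derivative (BM1_al n u e w)).eval u = (u - e) ^ (n + 1) := by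
    rw [BM1_al, derivative_sub, derivative_mul, derivative_C]
    simp
  rw [BM1_P, derivative_add, derivative_pow, eval_add, eval_mul, eval_mul, h1, eval_pow, BM1_al_eval]
  simp

/-! ## Finiteness of the set of bad parameters -/

theorem BM1_fin1 {k : Type} [Field k] (N : ℕ) (hN : 0 < N) (c : k) : {x : k | x ^ N = c}.Finite := by
  classical
  refine ((nthRoots N c).toFinset.finite_toSet).subset ?_
  intro x hx
  have : x ∈ nthRoots N c := (mem_nthRoots hN).2 hx
  simpa using this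

theorem BM1_fin2 {k : Type} [Field k] (N : ℕ) (hN : 0 < N) (A β c : k) (hA : A ≠ 0) :
    {e : k | A * (β - e) ^ N = c}.Finite := by
  have h1 := BM1_fin1 N hN (c / A)
  have h2 : ({e : k | β - e ∈ {x : k | x ^ N = c / A}}).Finite := by
    refine Set.Finite.preimage ?_ h1
    intro x _ y _ hxy
    have h3 : β - x = β - y := hxy
    exact sub_right_injective h3
  refine h2.subset ?_
  intro e he
  have h3 : A * (β - e) ^ N = c := he
  show (β - e) ^ N = c / A
  rw [eq_div_iff hA, ← h3]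
  ring

theorem BM1_fin3 {k : Type} [Field k] (l N : ℕ) (hl : 0 < l) (hN : 0 < N) (A β w c : k) (hA : A ≠ 0) :
    {e : k | (A * (β - e) ^ N - w) ^ l + c = 0}.Finite := by
  have h1 := BM1_fin1 l hl (-c)
  have h2 : (⋃ z ∈ {x : k | x ^ l = -c}, {e : k | A * (β - e) ^ N = z + w}).Finite :=
    h1.biUnion fun z _ => BM1_fin2 N hN A β (z + w) hA
  refine h2.subset ?_
  intro e he
  have h3 : (A * (β - e) ^ N - w) ^ l + c = 0 := he
  rw [Set.mem_iUnion₂]
  refine ⟨A * (β - e) ^ N - w, ?_, ?_⟩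
  · show (A * (β - e) ^ N - w) ^ l = -c
    exact eq_neg_of_add_eq_zero_left h3
  · show A * (β - e) ^ N = A * (β - e) ^ N - w + w
    ring

/-- the exponent `s` -/
theorem BM1_s {k : Type} [Field k] {l n : ℕ} [hlf : Fact l.Prime] (μ : Fin (n + 1) → ℕ)
    (b : Fin (n + 1) → k) [Good k l μ b] (ub : k) :
    ∃ s : ℕ, ¬ l ∣ s ∧ ∀ j, ub = b j → s * μ j % l = 1 := by
  have hl : l.Prime := hlf.out
  by_cases H : ∃ j, ub = b j
  · obtain ⟨j0, hj0⟩ := H
    have hp := Good.pos (K := k) (l := l) (μ := μ) (a := b) j0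
    have hlt := Good.lt (K := k) (l := l) (μ := μ) (a := b) j0
    have hcop : Nat.Coprime (μ j0) l :=
      (hl.coprime_iff_not_dvd.2 (Nat.not_dvd_of_pos_of_lt hp hlt)).symm
    obtain ⟨m, -, hm⟩ := Nat.exists_mul_mod_eq_one_of_coprime hcop hl.one_lt
    refine ⟨m, ?_, ?_⟩
    · intro hd
      rw [Nat.mul_mod, Nat.eq_zero_of_dvd_of_lt (a := l) (b := m % l)
        ((Nat.dvd_mod_iff (dvd_refl l)).2 hd) (Nat.mod_lt _ hl.pos)] at hm
      simp at hm
    · intro j hj
      have : j = j0 := by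
        apply Good.inj (K := k) (l := l) (μ := μ) (a := b)
        rw [← hj, ← hj0]
      rw [this, mul_comm]
      exact hm
  · refine ⟨1, ?_, ?_⟩
    · intro hd
      exact hl.one_lt.ne' (Nat.dvd_one.1 hd)
    · intro j hj
      exact absurd ⟨j, hj⟩ H

theorem BM1_Qder {k : Type} [Field k] {n : ℕ} (r : Fin (n + 1) → ℕ) (b : Fin (n + 1) → k)
    (hb : Function.Injective b) (j : Fin (n + 1)) (hj : r j = 1) :
    (derivative (BM1_Q r b)).eval (b j) ≠ 0 := by
  classical
  have h1 : BM1_Q r b = (X - C (b j)) * ∏ i ∈ Finset.univ.erase j, (X - C (b i)) ^ r i := by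
    rw [BM1_Q, ← Finset.mul_prod_erase Finset.univ (fun i => (X - C (b i)) ^ r i) (Finset.mem_univ j)]
    simp only [hj, pow_one]
  rw [h1, derivative_mul, eval_add, eval_mul, eval_mul]
  simp only [derivative_sub, derivative_X, derivative_C, sub_zero, eval_one, one_mul, eval_sub, eval_X,
    eval_C, sub_self, zero_mul, add_zero]
  rw [eval_prod, Finset.prod_ne_zero_iff]
  intro i hi
  rw [eval_pow, eval_sub, eval_X, eval_C]
  refine pow_ne_zero _ (sub_ne_zero.2 fun h => ?_)
  exact (Finset.ne_of_mem_erase hi) (hb h).symm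

theorem BM1_fin4 {k : Type} [Field k] {l n : ℕ} [hlk : NeZero (l : k)] (hl : l.Prime)
    (r : Fin (n + 1) → ℕ) (b : Fin (n + 1) → k) (hb : Function.Injective b) (hr : ∀ i, 0 < r i)
    (ub w : k) (hw : w ^ l = ∏ i, (ub - b i) ^ r i) (hj : ∀ j, ub = b j → r j = 1) :
    {e : k | (derivative (BM1_P l r b ub e w)).eval ub = 0}.Finite := by
  by_cases H : ∃ j, ub = b j
  · obtain ⟨j, hj0⟩ := H
    have hw0 : w = 0 := by
      have h1 : w ^ l = 0 := by
        rw [hw]
        refine Finset.prod_eq_zero (Finset.mem_univ j) ?_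
        rw [hj0, sub_self, zero_pow (hr j).ne']
      exact (pow_eq_zero_iff hl.ne_zero).1 h1
    have h2 : {e : k | (derivative (BM1_P l r b ub e w)).eval ub = 0} = ∅ := by
      rw [Set.eq_empty_iff_forall_notMem]
      intro e he
      have h3 : (derivative (BM1_P l r b ub e w)).eval ub = 0 := he
      have hl1 : l - 1 ≠ 0 := by
        have := hl.one_lt
        omega
      rw [BM1_der, hw0, neg_zero, zero_pow hl1, mul_zero, zero_mul, zero_add, hj0] at h3
      exact BM1_Qder r b hb j (hj j hj0) h3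
    rw [h2]
    exact Set.finite_empty
  · push Not at H
    have hw0 : w ≠ 0 := by
      intro h0
      rw [h0, zero_pow hl.ne_zero] at hw
      have := Finset.prod_eq_zero_iff.1 hw.symm
      obtain ⟨i, _, hi⟩ := this
      exact H i (sub_eq_zero.1 ((pow_eq_zero_iff (hr i).ne').1 hi))
    have hA : (l : k) * (-w) ^ (l - 1) ≠ 0 :=
      mul_ne_zero hlk.out (pow_ne_zero _ (neg_ne_zero.2 hw0))
    refine (BM1_fin2 (n + 1) n.succ_pos _ ub (-((derivative (BM1_Q r b)).eval ub)) hA).subset ?_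
    intro e he
    have h3 : (derivative (BM1_P l r b ub e w)).eval ub = 0 := he
    rw [BM1_der] at h3
    exact eq_neg_of_add_eq_zero_left h3

/-- the choice of `e` -/
theorem BM1_choose {K : Type} [Field K] (O : ValuationSubring K) [Infinite (rf O)] {l n : ℕ} [NeZero (l : rf O)]
    (hl : l.Prime) (r : Fin (n + 1) → ℕ) (a' : Fin (n + 1) → O)
    (b : Fin (n + 1) → rf O) (h' : ∀ j, rs O (a' j) = b j) (hb : Function.Injective b)
    (hr : ∀ i, 0 < r i) (u w : O) (hu : ∀ i, a' i ≠ u) (hw : w ^ l = ∏ i, (u - a' i) ^ r i)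
    (hj : ∀ j, rs O u = b j → r j = 1) (B : Finset (rf O)) :
    ∃ e : O, (∀ i, (a' i - u) * (a' i - e) ^ (n + 1) - w ≠ 0) ∧
      (∀ β ∈ B, β ≠ rs O u → (BM1_P l r b (rs O u) (rs O e) (rs O w)).eval β ≠ 0) ∧
      (derivative (BM1_P l r b (rs O u) (rs O e) (rs O w))).eval (rs O u) ≠ 0 := by
  classical
  have f1 : ∀ i, {e : O | (a' i - u) * (a' i - e) ^ (n + 1) - w = 0}.Finite := by
    intro i
    have hA : ((a' i : K) - u) ≠ 0 := by
      intro h
      exact hu i (Subtype.ext (sub_eq_zero.1 h))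
    have h1 := BM1_fin2 (n + 1) n.succ_pos ((a' i : K) - u) (a' i : K) (w : K) hA
    have h2 : ({e : O | (e : K) ∈ {e : K | ((a' i : K) - u) * ((a' i : K) - e) ^ (n + 1) = w}}).Finite :=
      Set.Finite.preimage (Subtype.val_injective.injOn) h1
    refine h2.subset ?_
    intro e he
    have h3 : (a' i - u) * (a' i - e) ^ (n + 1) - w = 0 := he
    have h4 : (a' i - u) * (a' i - e) ^ (n + 1) = w := sub_eq_zero.1 h3
    have h5 := congrArg (fun z : O => (z : K)) h4
    simpa using h5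
  have f2 : ∀ β, β ≠ rs O u →
      {e : rf O | (BM1_P l r b (rs O u) e (rs O w)).eval β = 0}.Finite := by
    intro β hβ
    refine (BM1_fin3 l (n + 1) hl.pos n.succ_pos (β - rs O u) β (rs O w)
      (∏ i, (β - b i) ^ r i) (sub_ne_zero.2 hβ)).subset ?_
    intro e he
    have h3 : (BM1_P l r b (rs O u) e (rs O w)).eval β = 0 := he
    rw [BM1_P_eval] at h3
    exact h3
  have hw' : rs O w ^ l = ∏ i, (rs O u - b i) ^ r i := by
    rw [← map_pow, hw, map_prod]
    refine Finset.prod_congr rfl fun i _ => ?_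
    rw [map_pow, map_sub, h']
  have f3 := BM1_fin4 hl r b hb hr (rs O u) (rs O w) hw' hj
  have F1 : (⋃ i, (rs O '' {e : O | (a' i - u) * (a' i - e) ^ (n + 1) - w = 0})).Finite :=
    Set.finite_iUnion fun i => (f1 i).image _
  have F2 : (⋃ β ∈ (B.filter fun β => β ≠ rs O u),
      {e : rf O | (BM1_P l r b (rs O u) e (rs O w)).eval β = 0}).Finite := by
    refine Set.Finite.biUnion (Finset.finite_toSet _) ?_
    intro β hβ
    exact f2 β (Finset.mem_filter.1 hβ).2
  obtain ⟨eb, heb⟩ := ((F1.union (F2.union f3)).infinite_compl).nonempty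
  obtain ⟨e, he⟩ := IsLocalRing.residue_surjective (R := O) eb
  have he' : rs O e = eb := he
  refine ⟨e, ?_, ?_, ?_⟩
  · intro i hi
    apply heb
    left
    rw [Set.mem_iUnion]
    exact ⟨i, e, hi, he'⟩
  · intro β hβ hne h0
    apply heb
    right
    left
    rw [Set.mem_iUnion₂]
    refine ⟨β, Finset.mem_filter.2 ⟨hβ, hne⟩, ?_⟩
    rw [he'] at h0
    exact h0
  · intro h0
    apply heb
    right
    right
    rw [he'] at h0
    exact h0

theorem BM1_dbl {k : Type} [Field k] (u : k) (G : k[X]) (hG : G.eval u = 0) :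
    (derivative ((X - C u) * G)).eval u = 0 := by
  rw [derivative_mul, eval_add, eval_mul, eval_mul, hG]
  simp

/-- lifting a multiset -/
theorem BM1_lift {α β : Type} (f : α → β) (p : α → Prop) (S : Multiset β) :
    (∀ y ∈ S, ∃ x, f x = y ∧ p x) → ∃ T : Multiset α, T.map f = S ∧ ∀ x ∈ T, p x := by
  induction S using Multiset.induction_on with
  | empty =>
    intro _
    exact ⟨0, rfl, fun x hx => absurd hx (Multiset.notMem_zero x)⟩
  | cons y S ih =>
    intro h
    obtain ⟨T, hT, hp⟩ := ih fun z hz => h z (Multiset.mem_cons_of_mem hz)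
    obtain ⟨x, hx, hpx⟩ := h y (Multiset.mem_cons_self y S)
    refine ⟨x ::ₘ T, by rw [Multiset.map_cons, hT, hx], ?_⟩
    intro z hz
    rcases Multiset.mem_cons.1 hz with h1 | h1
    · rw [h1]
      exact hpx
    · exact hp z h1

/-- products of the `x - a_i` are units -/
theorem BM1_unit {K : Type} [Field K] {l n : ℕ} (μ : Fin (n + 1) → ℕ) (a : Fin (n + 1) → K)
    (hμ : ∀ i, 0 < μ i) (m : Fin (n + 1) → ℕ) :
    ∃ z : CR K l μ a, z * CR.pol (∏ i, (X - C (a i)) ^ m i) = 1 := by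
  have h1 : ∀ i, IsUnit (CR.pol (X - C (a i)) : CR K l μ a) := by
    intro i
    have h2 : (CR.pol (X - C (a i)) : CR K l μ a) ∣ CR.pol (fp K μ a) := by
      apply _root_.map_dvd
      rw [fp]
      refine dvd_trans (dvd_pow_self _ (hμ i).ne') (Finset.dvd_prod_of_mem _ (Finset.mem_univ i))
    exact isUnit_of_dvd_unit h2 CR.unit_f
  have h3 : IsUnit (CR.pol (∏ i, (X - C (a i)) ^ m i) : CR K l μ a) := by
    rw [map_prod]
    refine IsUnit.prod_univ_iff.2 fun i => ?_
    rw [map_pow]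
    exact (h1 i).pow _
  obtain ⟨z, hz⟩ := h3.exists_left_inv
  exact ⟨z, hz⟩

/-- the value `w0` of `h` at the point is in `O` -/
theorem BM1_w0 {K : Type} [Field K] (O : ValuationSubring K) {l : ℕ} (hl : 0 < l) (z : O) (w : K)
    (h : w ^ l = z) : w ∈ O := by
  rcases O.mem_or_inv_mem w with h1 | h1
  · exact h1
  · by_cases hw : w = 0
    · rw [hw]
      exact O.zero_mem
    · have h2 : w = (z : K) * (w⁻¹) ^ (l - 1) := by
        rw [← h]
        obtain ⟨m, rfl⟩ : ∃ m, l = m + 1 := ⟨l - 1, by omega⟩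
        rw [Nat.add_sub_cancel, inv_pow, pow_succ']
        field_simp
      rw [h2]
      exact O.mul_mem _ _ z.2 (O.pow_mem h1 _)

theorem BM1 (hMN : TD.MN_stmt) (hMK : TD.MK_stmt) (_h4 : YA4_stmt) (h7 : KA7_stmt) (hB1 : KB1_stmt)
    (_hF1 : FJ.B1_stmt) (hF3 : FJ.B3_stmt) : BM1_stmt := by
  intro K _ _ O l n hlf hNl hl2 μ a' a b hGK hGk h h' hDD B q0 hq0
  classical
  have hl : l.Prime := hlf.out
  have hac : IsAlgClosed (rf O) := (_hF1 K O).1
  have hinf : Infinite (rf O) := IsAlgClosed.instInfinite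
  have hNZ : NeZero (l : K) := by
    refine ⟨fun h0 => ?_⟩
    have h1 : (l : O) = 0 := by
      apply Subtype.ext
      simpa using h0
    have h2 : (l : rf O) = 0 := by
      have := congrArg (rs O) h1
      simpa using this
    exact hNl.out h2
  have hμpos := Good.pos (K := K) (l := l) (μ := μ) (a := a)
  have hμlt := Good.lt (K := K) (l := l) (μ := μ) (a := a)
  have hbinj := Good.inj (K := rf O) (l := l) (μ := μ) (a := b)
  set u : O := ⟨q0.1.1, hq0⟩ with hu
  have huK : (u : K) = q0.1.1 := rfl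
  set v : K := q0.1.2 with hv
  -- `u` is not a branch point
  have hua : ∀ i, (u : K) - a i ≠ 0 := by
    have h1 : v ^ l ≠ 0 := pow_ne_zero _ q0.2.2.ne_zero
    rw [hv, q0.2.1, Finset.prod_ne_zero_iff] at h1
    intro i h0
    apply h1 i (Finset.mem_univ i)
    have h3 : q0.1.1 - a i = 0 := h0
    rw [h3, zero_pow (hμpos i).ne']
  -- the exponents
  obtain ⟨s, hs1, hs2⟩ := BM1_s (k := rf O) (l := l) μ b (rs O u)
  set m : Fin (n + 1) → ℕ := fun i => s * μ i / l with hm
  set r : Fin (n + 1) → ℕ := fun i => s * μ i % l with hr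
  have hsmr : ∀ i, s * μ i = l * m i + r i := fun i => (Nat.div_add_mod _ _).symm
  have hrpos : ∀ i, 0 < r i := by
    intro i
    rw [Nat.pos_iff_ne_zero]
    intro h0
    have h1 : l ∣ s * μ i := Nat.dvd_of_mod_eq_zero h0
    rcases hl.dvd_mul.1 h1 with h2 | h2
    · exact hs1 h2
    · exact Nat.not_dvd_of_pos_of_lt (hμpos i) (hμlt i) h2
  have hrlt : ∀ i, r i < l := fun i => Nat.mod_lt _ hl.pos
  obtain ⟨z, hz⟩ := BM1_unit (l := l) μ a hμpos m
  -- the value `w0`
  set w0 : K := v ^ s * ev q0 z with hw0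
  have hzev : ev q0 z * ∏ i, ((u : K) - a i) ^ m i = 1 := by
    have h1 := congrArg (ev q0) hz
    rw [map_mul, ev_pol, map_one, eval_prod] at h1
    simpa using h1
  have hw0l : w0 ^ l = ∏ i, ((u : K) - a i) ^ r i := by
    have h1 : v ^ l = ∏ i, ((u : K) - a i) ^ μ i := q0.2.1
    have h2 : (∏ i, ((u : K) - a i) ^ m i) ≠ 0 :=
      Finset.prod_ne_zero_iff.2 fun i _ => pow_ne_zero _ (hua i)
    have h3 : w0 ^ l * (∏ i, ((u : K) - a i) ^ m i) ^ l = v ^ (l * s) := by
      rw [hw0, mul_pow, mul_assoc, ← mul_pow, hzev, one_pow, mul_one, ← pow_mul, mul_comm]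
    have h4 : v ^ (l * s) = (∏ i, ((u : K) - a i) ^ r i) * (∏ i, ((u : K) - a i) ^ m i) ^ l := by
      rw [pow_mul, h1, ← Finset.prod_pow, ← Finset.prod_pow, ← Finset.prod_mul_distrib]
      refine Finset.prod_congr rfl fun i _ => ?_
      rw [← pow_mul, ← pow_mul, ← pow_add, mul_comm (μ i) s, hsmr i, add_comm, mul_comm (m i) l]
    rw [h4] at h3
    exact mul_right_cancel₀ (pow_ne_zero _ h2) h3
  have hprod : ((∏ i, (u - a' i) ^ r i : O) : K) = ∏ i, ((u : K) - a i) ^ r i := by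
    have h1 : O.subtype (∏ i, (u - a' i) ^ r i) = ∏ i, ((u : K) - a i) ^ r i := by
      rw [map_prod]
      refine Finset.prod_congr rfl fun i _ => ?_
      rw [map_pow, map_sub, h]
      rfl
    exact h1
  have hw0O : w0 ∈ O := BM1_w0 O hl.pos (∏ i, (u - a' i) ^ r i) w0 (by rw [hw0l, hprod])
  set W : O := ⟨w0, hw0O⟩ with hW
  have hWl : W ^ l = ∏ i, (u - a' i) ^ r i := by
    apply Subtype.ext
    rw [hprod, ← hw0l]
    rfl
  -- the choice of `e`
  have hua' : ∀ i, a' i ≠ u := by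
    intro i h0
    apply hua i
    rw [← h i, h0]
    exact sub_self _
  obtain ⟨e, he1, he2, he3⟩ := BM1_choose O hl r a' b h' hbinj hrpos u W hua' hWl
    (fun j hj => hs2 j hj) (B ∪ Finset.univ.image b)
  -- the polynomial over `O`
  set P0 : O[X] := BM1_P l r a' u e W with hP0
  have hP0m : P0.Monic := BM1_P_monic l r a' u e W hl.pos hrlt
  have hP0K : P0.map O.subtype = BM1_P l r a (u : K) (e : K) w0 := BM1_P_map O.subtype l r a' a h u e W
  have hP0k : P0.map (rs O) = BM1_P l r b (rs O u) (rs O e) (rs O W) :=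
    BM1_P_map (rs O) l r a' b h' u e W
  set P : K[X] := BM1_P l r a (u : K) (e : K) w0 with hP
  have hPne : P ≠ 0 := by
    rw [← hP0K]
    exact (hP0m.map _).ne_zero
  have hPa : ∀ i, P.eval (a i) ≠ 0 := by
    intro i
    have h1 : (∏ j, (a i - a j) ^ r j) = 0 := by
      refine Finset.prod_eq_zero (Finset.mem_univ i) ?_
      rw [sub_self, zero_pow (hrpos i).ne']
    rw [hP, BM1_P_eval, h1, add_zero]
    refine pow_ne_zero _ fun h0 => he1 i ?_
    apply Subtype.ext
    have h2 : O.subtype ((a' i - u) * (a' i - e) ^ (n + 1) - W) =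
        (a i - u) * (a i - e) ^ (n + 1) - w0 := by
      rw [map_sub, map_mul, map_pow, map_sub, map_sub, h]
      rfl
    exact h2.trans h0
  -- the function `F`
  set F : CR K l μ a := CR.pol (BM1_al n (u : K) (e : K) w0) + CR.y ^ s * z with hF
  have hnorm : Algebra.norm (BR K μ a) F = algebraMap K[X] (BR K μ a) P :=
    hMN K l n hl2 μ a s m r z (BM1_al n (u : K) (e : K) w0) hs1 hsmr hz
  have hFq0 : ev q0 F = 0 := by
    rw [hF, map_add, map_mul, map_pow, ev_pol, ev_y, BM1_al_eval, ← huK, sub_self, zero_mul, zero_sub]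
    exact neg_add_cancel w0
  obtain ⟨S, c, hc, hspan, hPS, hmem⟩ := hMK K l n μ a F P hPne hPa hnorm
  obtain ⟨S', hS'⟩ := Multiset.exists_cons_of_mem (hmem q0 hFq0)
  -- the reduction
  have hB3 := hF3 K O P0 c (S.map fun q => q.1.1) (hP0m.map _).ne_zero (by
    rw [hP0K, Multiset.map_map]
    exact hPS)
  obtain ⟨R', hR', c', hc', hR⟩ := hB3
  have hfil : (S.map fun q => q.1.1).filter (fun x => x ∈ O) =
      (u : K) ::ₘ ((S'.map fun q => q.1.1).filter (fun x => x ∈ O)) := by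
    rw [hS', Multiset.map_cons]
    exact Multiset.filter_cons_of_pos _ hq0
  have hmu : u ∈ R' := by
    have h1 : (u : K) ∈ R'.map (fun u : O => (u : K)) := by
      rw [hR', hfil]
      exact Multiset.mem_cons_self _ _
    obtain ⟨u', hu', hu''⟩ := Multiset.mem_map.1 h1
    have h2 : u' = u := Subtype.ext hu''
    rwa [h2] at hu'
  obtain ⟨R'', hR''⟩ := Multiset.exists_cons_of_mem hmu
  have hR''K : R''.map (fun u : O => (u : K)) = (S'.map fun q => q.1.1).filter (fun x => x ∈ O) := by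
    rw [hfil, hR'', Multiset.map_cons] at hR'
    exact (Multiset.cons_inj_right _).1 hR'
  -- the other points
  have hother : ∀ q ∈ S', ∃ y : O, (y : K) = q.1.1 ∧ rs O y ∉ B ∧ ∀ j, rs O y ≠ b j := by
    intro q hq
    have hroot : P.eval q.1.1 = 0 := by
      rw [hPS, eval_mul, eval_multiset_prod]
      refine mul_eq_zero_of_right _ (Multiset.prod_eq_zero ?_)
      rw [Multiset.map_map]
      refine Multiset.mem_map.2 ⟨q, by rw [hS']; exact Multiset.mem_cons_of_mem hq, ?_⟩
      simp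
    have hint : IsIntegral O q.1.1 := by
      refine ⟨P0, hP0m, ?_⟩
      have h1 : eval₂ (algebraMap O K) q.1.1 P0 = (P0.map (algebraMap O K)).eval q.1.1 :=
        (eval_map _ _).symm
      rw [h1]
      have h2 : P0.map (algebraMap O K) = P := hP0K
      rw [h2, hroot]
    obtain ⟨y, hy⟩ := IsIntegrallyClosed.isIntegral_iff.1 hint
    have hyK : (y : K) = q.1.1 := hy
    have hyO : q.1.1 ∈ O := by
      rw [← hyK]
      exact y.2
    have hyR : y ∈ R'' := by
      have h1 : q.1.1 ∈ R''.map (fun u : O => (u : K)) := by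
        rw [hR''K]
        exact Multiset.mem_filter.2 ⟨Multiset.mem_map.2 ⟨q, hq, rfl⟩, hyO⟩
      obtain ⟨y', hy', hy''⟩ := Multiset.mem_map.1 h1
      have h2 : y' = y := Subtype.ext (hy''.trans hyK.symm)
      rwa [h2] at hy'
    -- the factorisation of the reduction
    have hfac : P0.map (rs O) = (X - C (rs O u)) *
        (C c' * (R''.map fun u => X - C (rs O u)).prod) := by
      rw [hR, hR'', Multiset.map_cons, Multiset.prod_cons]
      ring
    have hG : (C c' * (R''.map fun u => X - C (rs O u)).prod : (rf O)[X]).eval (rs O y) = 0 := by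
      rw [eval_mul, eval_multiset_prod]
      refine mul_eq_zero_of_right _ (Multiset.prod_eq_zero ?_)
      rw [Multiset.map_map]
      refine Multiset.mem_map.2 ⟨y, hyR, ?_⟩
      simp
    have hne : rs O y ≠ rs O u := by
      intro h0
      apply he3
      rw [← hP0k, hfac]
      rw [h0] at hG
      exact BM1_dbl _ _ hG
    have hnB : rs O y ∉ B ∪ Finset.univ.image b := by
      intro h0
      apply he2 _ h0 hne
      rw [← hP0k, hfac, eval_mul, hG, mul_zero]
    rw [Finset.mem_union, not_or] at hnB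
    refine ⟨y, hyK, hnB.1, ?_⟩
    intro j hj
    exact hnB.2 (Finset.mem_image.2 ⟨j, Finset.mem_univ j, hj.symm⟩)
  obtain ⟨hk1, -, -⟩ := hB1 K O l n μ a' a b h h' hμpos
  obtain ⟨T, hT, hTB⟩ := BM1_lift (mapPc O.subtype h) (fun q : Pc O l μ a' => rs O q.1.1 ∉ B) S' (by
    intro q hq
    obtain ⟨y, hy, hyB, hyb⟩ := hother q hq
    obtain ⟨q', hq'⟩ := (hk1 q).2 ⟨y, hy, hyb⟩
    refine ⟨q', hq', ?_⟩
    have h1 : q'.1.1 = y := by
      apply Subtype.ext
      rw [hy, ← hq']
      rfl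
    rw [h1]
    exact hyB)
  refine ⟨T, ?_, hTB⟩
  rw [hT, ← Multiset.prod_cons, ← Multiset.map_cons cl q0 S', ← hS']
  exact ((h7 K l n μ a).2.2.1 S).2 ⟨F, hspan.symm⟩

end

end Pool.Agent.AQ
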