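import Pool.Agent.helper85.AQ.SpecL
import Pool.Agent.helper39.GJ.SpecL

/-!
# Project aq, row LFN: the linear algebra of the proof
-/

set_option autoImplicit false

namespace Pool.Agent.AQ

open Pool.Agent.GJ
open scoped TensorProduct

noncomputable section

section el
variable {Ω W : Type} [Field Ω] [AddCommGroup W] [Module Ω W] {n : ℕ} (v : Module.Basis (Fin n) Ω W)

theorem LFN_el (s t i : Fin n) : el v s t (v i) = if i = t then v s else 0 := v.constr_basis Ω _ i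

theorem LFN_el_comp (s t u w : Fin n) : el v s t ∘ₗ el v u w = if t = u then el v s w else 0 := by
  refine v.ext fun i => ?_
  rw [LinearMap.comp_apply, LFN_el]
  by_cases h1 : i = w
  · rw [if_pos h1, LFN_el]
    by_cases h2 : u = t
    · rw [if_pos h2, if_pos h2.symm, LFN_el, if_pos h1]
    · rw [if_neg h2, if_neg fun h => h2 h.symm, LinearMap.zero_apply]
  · rw [if_neg h1, map_zero]
    by_cases h2 : t = u
    · rw [if_pos h2, LFN_el, if_neg h1]
    · rw [if_neg h2, LinearMap.zero_apply]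

theorem LFN_sum (N : W →ₗ[Ω] W) : N = ∑ t, ∑ s, v.repr (N (v t)) s • el v s t := by
  refine v.ext fun i => ?_
  rw [LinearMap.sum_apply, Finset.sum_eq_single i]
  · rw [LinearMap.sum_apply]
    conv_lhs => rw [← v.sum_repr (N (v i))]
    refine Finset.sum_congr rfl fun s _ => ?_
    rw [LinearMap.smul_apply, LFN_el, if_pos rfl]
  · intro t _ ht
    rw [LinearMap.sum_apply]
    refine Finset.sum_eq_zero fun s _ => ?_
    rw [LinearMap.smul_apply, LFN_el, if_neg ht.symm, smul_zero]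
  · intro h
    exact absurd (Finset.mem_univ i) h

theorem LFN_trace (N : W →ₗ[Ω] W) : LinearMap.trace Ω W N = ∑ t, v.repr (N (v t)) t := by
  rw [LinearMap.trace_eq_matrix_trace Ω v N, Matrix.trace]
  refine Finset.sum_congr rfl fun t _ => ?_
  rw [Matrix.diag_apply, LinearMap.toMatrix_apply]

theorem LFN_trace_el (s t : Fin n) : LinearMap.trace Ω W (el v s t) = if s = t then 1 else 0 := by
  rw [LFN_trace v, Finset.sum_eq_single t]
  · rw [LFN_el, if_pos rfl, v.repr_self, Finsupp.single_apply]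
  · intro i _ hi
    rw [LFN_el, if_neg hi, map_zero, Finsupp.zero_apply]
  · intro h
    exact absurd (Finset.mem_univ t) h

include v in
/-- a subspace which contains all brackets of operators of trace zero contains all operators of trace zero -/
theorem LFN_brackets [CharZero Ω] (P : Submodule Ω (W →ₗ[Ω] W))
    (hP : ∀ M N : W →ₗ[Ω] W, LinearMap.trace Ω W M = 0 → LinearMap.trace Ω W N = 0 → M ∘ₗ N - N ∘ₗ M ∈ P)
    (N : W →ₗ[Ω] W) (hN : LinearMap.trace Ω W N = 0) : N ∈ P := by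
  have hd : ∀ s t : Fin n, el v s s - el v t t ∈ P := by
    intro s t
    by_cases hst : s = t
    · rw [hst, sub_self]
      exact P.zero_mem
    · have h1 := hP (el v s t) (el v t s) (by rw [LFN_trace_el, if_neg hst]) (by rw [LFN_trace_el, if_neg fun h => hst h.symm])
      rwa [LFN_el_comp, LFN_el_comp, if_pos rfl, if_pos rfl] at h1
  have ho : ∀ s t : Fin n, s ≠ t → el v s t ∈ P := by
    intro s t hst
    have h1 := hP (el v s s - el v t t) (el v s t) (by rw [map_sub, LFN_trace_el, LFN_trace_el, if_pos rfl, if_pos rfl, sub_self])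
      (by rw [LFN_trace_el, if_neg hst])
    have h2 : (el v s s - el v t t) ∘ₗ el v s t - el v s t ∘ₗ (el v s s - el v t t) = (2 : Ω) • el v s t := by
      rw [LinearMap.sub_comp, LinearMap.comp_sub, LFN_el_comp, LFN_el_comp, LFN_el_comp, LFN_el_comp, if_pos rfl, if_neg fun h => hst h.symm,
        if_neg fun h => hst h.symm, if_pos rfl, two_smul]
      abel
    rw [h2] at h1
    have h3 := P.smul_mem (2 : Ω)⁻¹ h1
    rwa [smul_smul, inv_mul_cancel₀ (two_ne_zero), one_smul] at h3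
  rcases n with _ | n
  · have h0 : N = 0 := v.ext fun i => i.elim0
    rw [h0]
    exact P.zero_mem
  · have hdiag : ∑ t, v.repr (N (v t)) t • el v t t ∈ P := by
      have h1 : ∑ t, v.repr (N (v t)) t • el v t t = ∑ t, v.repr (N (v t)) t • (el v t t - el v 0 0) := by
        have h2 : ∑ t, v.repr (N (v t)) t • el v 0 0 = 0 := by
          rw [← Finset.sum_smul, ← LFN_trace v, hN, zero_smul]
        have h3 : ∑ t, v.repr (N (v t)) t • (el v t t - el v 0 0) = ∑ t, v.repr (N (v t)) t • el v t t - ∑ t, v.repr (N (v t)) t • el v 0 0 := by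
          rw [← Finset.sum_sub_distrib]
          exact Finset.sum_congr rfl fun t _ => smul_sub _ _ _
        rw [h3, h2, sub_zero]
      rw [h1]
      exact P.sum_mem fun t _ => P.smul_mem _ (hd t 0)
    have h4 : N = ∑ t, v.repr (N (v t)) t • el v t t + ∑ t, ∑ s ∈ Finset.univ.erase t, v.repr (N (v t)) s • el v s t := by
      conv_lhs => rw [LFN_sum v N]
      rw [← Finset.sum_add_distrib]
      refine Finset.sum_congr rfl fun t _ => ?_
      rw [Finset.add_sum_erase Finset.univ (fun s => v.repr (N (v t)) s • el v s t) (Finset.mem_univ t)]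
    rw [h4]
    refine P.add_mem hdiag (P.sum_mem fun t _ => P.sum_mem fun s hs => P.smul_mem _ (ho s t (Finset.ne_of_mem_erase hs)))

end el

section fam
variable {Ω : Type} [Field Ω] {k : ℕ} {V : Fin k → Type} [∀ i, AddCommGroup (V i)] [∀ i, Module Ω (V i)]

theorem LFN_sgl_same (i : Fin k) (A : V i →ₗ[Ω] V i) : sgl i A i = A := by
  rw [sgl, Function.update_self]

theorem LFN_sgl_ne {i j : Fin k} (h : j ≠ i) (A : V i →ₗ[Ω] V i) : sgl i A j = 0 := by
  rw [sgl, Function.update_of_ne h]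

theorem LFN_sgl_add (i : Fin k) (A B : V i →ₗ[Ω] V i) : sgl i (A + B) = fun j => sgl i A j + sgl i B j := by
  funext j
  by_cases h : j = i
  · subst h
    rw [LFN_sgl_same, LFN_sgl_same, LFN_sgl_same]
  · rw [LFN_sgl_ne h, LFN_sgl_ne h, LFN_sgl_ne h, add_zero]

theorem LFN_sgl_smul (i : Fin k) (c : Ω) (A : V i →ₗ[Ω] V i) : sgl i (c • A) = fun j => c • sgl i A j := by
  funext j
  by_cases h : j = i
  · subst h
    rw [LFN_sgl_same, LFN_sgl_same]
  · rw [LFN_sgl_ne h, LFN_sgl_ne h, smul_zero]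

theorem LFN_sgl_br (i : Fin k) (A B : V i →ₗ[Ω] V i) :
    sgl i (A ∘ₗ B - B ∘ₗ A) = fun j => sgl i A j ∘ₗ sgl i B j - sgl i B j ∘ₗ sgl i A j := by
  funext j
  by_cases h : j = i
  · subst h
    rw [LFN_sgl_same, LFN_sgl_same, LFN_sgl_same]
  · rw [LFN_sgl_ne h, LFN_sgl_ne h, LFN_sgl_ne h, LinearMap.comp_zero, sub_zero]

theorem LFN_dia_add (e : Fin k → ℕ) (A B : ∀ i, V i →ₗ[Ω] V i) : dia e (fun i => A i + B i) = dia e A + dia e B := by
  refine LinearMap.ext fun x => ?_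
  funext i c
  rfl

theorem LFN_dia_smul (e : Fin k → ℕ) (a : Ω) (A : ∀ i, V i →ₗ[Ω] V i) : dia e (fun i => a • A i) = a • dia e A := by
  refine LinearMap.ext fun x => ?_
  funext i c
  rfl

theorem LFN_dia_zero (e : Fin k → ℕ) : dia e (fun i => (0 : V i →ₗ[Ω] V i)) = 0 := by
  refine LinearMap.ext fun x => ?_
  funext i c
  rfl

end fam

section eg
variable {Ω V : Type} [Field Ω] [AddCommGroup V] [Module Ω V]

theorem LFN_mem_eg (Z : V →ₗ[Ω] V) (ζ : Ω) (s : ℕ) (x : V) : x ∈ eg Z ζ s ↔ Z x = ζ ^ s • x := by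
  rw [eg, LinearMap.mem_ker, LinearMap.sub_apply, LinearMap.smul_apply, LinearMap.id_apply, sub_eq_zero]

theorem LFN_eg_stable {Z : V →ₗ[Ω] V} (ζ : Ω) (s : ℕ) {A : V →ₗ[Ω] V} (h : ∀ x, A (Z x) = Z (A x)) {x : V} (hx : x ∈ eg Z ζ s) :
    A x ∈ eg Z ζ s := by
  rw [LFN_mem_eg] at hx ⊢
  rw [← h, hx, map_smul]

/-- the restriction of an operator commuting with `Z` -/
def LFN_res {Z : V →ₗ[Ω] V} (ζ : Ω) (s : ℕ) {A : V →ₗ[Ω] V} (h : ∀ x, A (Z x) = Z (A x)) : eg Z ζ s →ₗ[Ω] eg Z ζ s :=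
  A.restrict fun _ hx => LFN_eg_stable ζ s h hx

theorem LFN_res_apply {Z : V →ₗ[Ω] V} (ζ : Ω) (s : ℕ) {A : V →ₗ[Ω] V} (h : ∀ x, A (Z x) = Z (A x)) (x : eg Z ζ s) :
    (LFN_res ζ s h x : V) = A x := rfl

/-- the restriction of an automorphism commuting with `Z` -/
def LFN_resE {Z : V →ₗ[Ω] V} (ζ : Ω) (s : ℕ) (g : V ≃ₗ[Ω] V) (h : ∀ x, g (Z x) = Z (g x)) : eg Z ζ s ≃ₗ[Ω] eg Z ζ s :=
  LinearEquiv.ofLinearMap (LFN_res ζ s (A := (g : V →ₗ[Ω] V)) h)
    (LFN_res ζ s (A := (g.symm : V →ₗ[Ω] V)) fun x => by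
      show g.symm (Z x) = Z (g.symm x)
      rw [LinearEquiv.symm_apply_eq, h, LinearEquiv.apply_symm_apply])
    (LinearMap.ext fun x => Subtype.ext (by
      show g (g.symm (x : V)) = x
      rw [LinearEquiv.apply_symm_apply]))
    (LinearMap.ext fun x => Subtype.ext (by
      show g.symm (g (x : V)) = x
      rw [LinearEquiv.symm_apply_apply]))

theorem LFN_resE_apply {Z : V →ₗ[Ω] V} (ζ : Ω) (s : ℕ) (g : V ≃ₗ[Ω] V) (h : ∀ x, g (Z x) = Z (g x)) (x : eg Z ζ s) :
    (LFN_resE ζ s g h x : V) = g x := rfl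

theorem LFN_comm_cj {Z : V →ₗ[Ω] V} (g : V ≃ₗ[Ω] V) (h : ∀ x, g (Z x) = Z (g x)) {A : V →ₗ[Ω] V} (hA : A ∘ₗ Z = Z ∘ₗ A) :
    cj g A ∘ₗ Z = Z ∘ₗ cj g A := by
  refine LinearMap.ext fun x => ?_
  show g (A (g.symm (Z x))) = Z (g (A (g.symm x)))
  have h1 : g.symm (Z x) = Z (g.symm x) := by
    rw [LinearEquiv.symm_apply_eq, h, LinearEquiv.apply_symm_apply]
  have h2 : A (Z (g.symm x)) = Z (A (g.symm x)) := LinearMap.congr_fun hA _
  rw [h1, h2, h]

theorem LFN_only_cj {l : ℕ} {Z : V →ₗ[Ω] V} {ζ : Ω} {s : ℕ} (g : V ≃ₗ[Ω] V) (h : ∀ x, g (Z x) = Z (g x)) {A : V →ₗ[Ω] V} (hA : Only l Z ζ s A) :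
    Only l Z ζ s (cj g A) := by
  intro r h1 h2 h3 h4 x hx
  have h5 : g.symm x ∈ eg Z ζ r := LFN_eg_stable (A := (g.symm : V →ₗ[Ω] V)) ζ r (fun x => by
      show g.symm (Z x) = Z (g.symm x)
      rw [LinearEquiv.symm_apply_eq, h, LinearEquiv.apply_symm_apply]) hx
  show g (A (g.symm x)) = 0
  rw [hA r h1 h2 h3 h4 _ h5, map_zero]

theorem LFN_only_add {l : ℕ} {Z : V →ₗ[Ω] V} {ζ : Ω} {s : ℕ} {A B : V →ₗ[Ω] V} (hA : Only l Z ζ s A) (hB : Only l Z ζ s B) :
    Only l Z ζ s (A + B) := by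
  intro r h1 h2 h3 h4 x hx
  rw [LinearMap.add_apply, hA r h1 h2 h3 h4 x hx, hB r h1 h2 h3 h4 x hx, add_zero]

theorem LFN_only_smul {l : ℕ} {Z : V →ₗ[Ω] V} {ζ : Ω} {s : ℕ} {A : V →ₗ[Ω] V} (c : Ω) (hA : Only l Z ζ s A) :
    Only l Z ζ s (c • A) := by
  intro r h1 h2 h3 h4 x hx
  rw [LinearMap.smul_apply, hA r h1 h2 h3 h4 x hx, smul_zero]

theorem LFN_only_br {l : ℕ} {Z : V →ₗ[Ω] V} {ζ : Ω} {s : ℕ} {A B : V →ₗ[Ω] V} (hA : Only l Z ζ s A) (hB : Only l Z ζ s B) :
    Only l Z ζ s (A ∘ₗ B - B ∘ₗ A) := by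
  intro r h1 h2 h3 h4 x hx
  rw [LinearMap.sub_apply, LinearMap.comp_apply, LinearMap.comp_apply, hA r h1 h2 h3 h4 x hx, hB r h1 h2 h3 h4 x hx, map_zero, map_zero, sub_zero]

theorem LFN_comm_br {Z A B : V →ₗ[Ω] V} (hA : A ∘ₗ Z = Z ∘ₗ A) (hB : B ∘ₗ Z = Z ∘ₗ B) :
    (A ∘ₗ B - B ∘ₗ A) ∘ₗ Z = Z ∘ₗ (A ∘ₗ B - B ∘ₗ A) := by
  refine LinearMap.ext fun x => ?_
  have h1 : ∀ y, A (Z y) = Z (A y) := fun y => LinearMap.congr_fun hA y
  have h2 : ∀ y, B (Z y) = Z (B y) := fun y => LinearMap.congr_fun hB y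
  show A (B (Z x)) - B (A (Z x)) = Z (A (B x) - B (A x))
  rw [h2, h1, h1, h2, map_sub]

theorem LFN_skew {E : V →ₗ[Ω] V →ₗ[Ω] Ω} {A B : V →ₗ[Ω] V} {c d : Ω} (hA : ∀ x y, E (A x) y + E x (A y) = c * E x y)
    (hB : ∀ x y, E (B x) y + E x (B y) = d * E x y) (x y : V) :
    E ((A ∘ₗ B - B ∘ₗ A) x) y = - E x ((A ∘ₗ B - B ∘ₗ A) y) := by
  show E (A (B x) - B (A x)) y = - E x (A (B y) - B (A y))
  rw [map_sub, LinearMap.sub_apply, map_sub]
  have h1 := hA (B x) y
  have h2 := hB (A x) y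
  have h3 := hB x (A y)
  have h4 := hA x (B y)
  have h5 := hA x y
  have h6 := hB x y
  linear_combination h1 - h2 + c * h6 - d * h5 - h3 + h4

end eg

theorem LFN (hL10 : L10_stmt) (hLBK : LBK_stmt) (hLSK : LSK_stmt) (hLSC : LSC_stmt) (hLWB : LWB_stmt) : LFN_stmt := by
  intro Ω H _ _ l k hl hl2 ζ hζ V _ _ _ e n Z E hP d0 ρ h0 v α c hc hα hcomm hsim heig hgen hTH G hGZ hGn hirr hmove A hA htr d hd κ Y hY heY
  classical
  obtain ⟨hSC1, hSC2⟩ := hLSC Ω H k V e d0 ρ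
  have hrange : ∀ s : Fin ((l - 1) / 2), 0 < (s : ℕ) + 1 ∧ (s : ℕ) + 1 < l := by
    intro s
    have h1 := s.2
    omega
  have hSK := fun i => hLSK Ω (V i) l (n i) hl hl2 (Z i) ζ hζ (hP i).dec (E i) (hP i).nondeg (hP i).alt (hP i).inv
  have key : ∀ i, 0 < e i → ∀ s : Fin ((l - 1) / 2), ∀ N : eg (Z i) ζ ((s : ℕ) + 1) →ₗ[Ω] eg (Z i) ζ ((s : ℕ) + 1), LinearMap.trace Ω _ N = 0 →
      ∃ B : V i →ₗ[Ω] V i, CS (Z i) (E i) B ∧ Only l (Z i) ζ ((s : ℕ) + 1) B ∧ (∀ x : eg (Z i) ζ ((s : ℕ) + 1), B x = N x) ∧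
        ∀ d ≤ d0, ∀ κ : H → Ω, ∀ Y ∈ (⋀[Ω]^d (∀ i, Fin (e i) → V i) : Submodule Ω (ExteriorAlgebra Ω (∀ i, Fin (e i) → V i))),
          (∀ h, ExteriorAlgebra.map (dia e (ρ h)) Y = κ h • Y) → dX (dia e (sgl i B)) Y = 0 := by
    intro i hei s
    obtain ⟨hs1, hs2⟩ := hrange s
    have hzero : Sc e d0 ρ (sgl i (0 : V i →ₗ[Ω] V i)) := by
      refine hLWB Ω H l k hl hl2 ζ hζ V e n Z E hP d0 ρ h0 v α c hc hα hcomm hsim heig hgen i s 0 (fun _ => 0) ⟨?_, ?_⟩ ?_ ?_ ?_
      · rw [LinearMap.zero_comp, LinearMap.comp_zero]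
      · intro x y
        rw [LinearMap.zero_apply, LinearMap.zero_apply, map_zero, map_zero, LinearMap.zero_apply, neg_zero]
      · intro r _ _ _ _ x _
        rfl
      · intro t
        rw [zero_smul, LinearMap.zero_apply]
      · exact Finset.sum_const_zero
    let b : Submodule Ω (eg (Z i) ζ ((s : ℕ) + 1) →ₗ[Ω] eg (Z i) ζ ((s : ℕ) + 1)) :=
      { carrier := {N | ∃ B : V i →ₗ[Ω] V i, B ∘ₗ Z i = Z i ∘ₗ B ∧ Only l (Z i) ζ ((s : ℕ) + 1) B ∧
          (∀ x : eg (Z i) ζ ((s : ℕ) + 1), B x = N x) ∧ Sc e d0 ρ (sgl i B)}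
        add_mem' := by
          rintro N N' ⟨B, h1, h2, h3, h4⟩ ⟨B', h1', h2', h3', h4'⟩
          refine ⟨B + B', ?_, LFN_only_add h2 h2', ?_, ?_⟩
          · rw [LinearMap.add_comp, LinearMap.comp_add, h1, h1']
          · intro x
            rw [LinearMap.add_apply, LinearMap.add_apply, h3, h3']
            rfl
          · rw [LFN_sgl_add]
            exact (hSC1 _ _ 0 h4 h4').1
        zero_mem' := by
          refine ⟨0, ?_, ?_, ?_, hzero⟩
          · rw [LinearMap.zero_comp, LinearMap.comp_zero]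
          · intro r _ _ _ _ x _
            rfl
          · intro x
            rfl
        smul_mem' := by
          rintro a N ⟨B, h1, h2, h3, h4⟩
          refine ⟨a • B, ?_, LFN_only_smul a h2, ?_, ?_⟩
          · rw [LinearMap.smul_comp, LinearMap.comp_smul, h1]
          · intro x
            rw [LinearMap.smul_apply, LinearMap.smul_apply, h3]
            rfl
          · rw [LFN_sgl_smul]
            exact (hSC1 _ _ a h4 h4).2.1 }
    have hb : ∀ N, N ∈ b ↔ ∃ B : V i →ₗ[Ω] V i, B ∘ₗ Z i = Z i ∘ₗ B ∧ Only l (Z i) ζ ((s : ℕ) + 1) B ∧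
          (∀ x : eg (Z i) ζ ((s : ℕ) + 1), B x = N x) ∧ Sc e d0 ρ (sgl i B) := fun N => Iff.rfl
    have hbr : ∀ M ∈ b, ∀ N ∈ b, M ∘ₗ N - N ∘ₗ M ∈ b := by
      intro M hM N hN
      obtain ⟨B, h1, h2, h3, h4⟩ := (hb M).1 hM
      obtain ⟨B', h1', h2', h3', h4'⟩ := (hb N).1 hN
      refine (hb _).2 ⟨B ∘ₗ B' - B' ∘ₗ B, LFN_comm_br h1 h1', LFN_only_br h2 h2', ?_, ?_⟩
      · intro x
        show B (B' x) - B' (B x) = ((M (N x) - N (M x) : eg (Z i) ζ ((s : ℕ) + 1)) : V i)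
        rw [h3', h3, h3, h3']
        rfl
      · rw [LFN_sgl_br]
        exact (hSC1 _ _ 0 h4 h4').2.2.1
    have hdiag : ∀ x : Fin (n i) → Ω, ∑ t, x t = 0 → dg (v i s) x ∈ b := by
      intro x hx
      obtain ⟨B, ⟨h1, h2, h3⟩, -⟩ := (hSK i).1 _ hs1 hs2 (dg (v i s) x)
      refine (hb _).2 ⟨B, h1.1, h3, h2, ?_⟩
      refine hLWB Ω H l k hl hl2 ζ hζ V e n Z E hP d0 ρ h0 v α c hc hα hcomm hsim heig hgen i s B x h1 h3 ?_ hx
      intro t
      rw [h2, dg_apply]
      rfl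
    -- the group
    have hGi : ∀ g ∈ G, ∀ x, g i (Z i x) = Z i (g i x) := fun g hg x => hGZ g hg i x
    let G' : Subgroup (eg (Z i) ζ ((s : ℕ) + 1) ≃ₗ[Ω] eg (Z i) ζ ((s : ℕ) + 1)) :=
      { carrier := {h | ∃ g ∈ G, ∀ x : eg (Z i) ζ ((s : ℕ) + 1), (h x : V i) = g i x}
        mul_mem' := by
          rintro h h' ⟨g, hg, h1⟩ ⟨g', hg', h1'⟩
          refine ⟨g * g', G.mul_mem hg hg', ?_⟩
          intro x
          show (h (h' x) : V i) = g i (g' i x)
          rw [h1, h1']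
        one_mem' := ⟨1, G.one_mem, fun x => rfl⟩
        inv_mem' := by
          rintro h ⟨g, hg, h1⟩
          refine ⟨g⁻¹, G.inv_mem hg, ?_⟩
          intro x
          show (h.symm x : V i) = (g i).symm x
          rw [LinearEquiv.eq_symm_apply, ← h1, LinearEquiv.apply_symm_apply] }
    have hG' : ∀ h, h ∈ G' ↔ ∃ g ∈ G, ∀ x : eg (Z i) ζ ((s : ℕ) + 1), (h x : V i) = g i x := fun h => Iff.rfl
    have hres : ∀ g ∈ G, ∃ h ∈ G', ∀ x : eg (Z i) ζ ((s : ℕ) + 1), (h x : V i) = g i x := by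
      intro g hg
      exact ⟨LFN_resE ζ _ (g i) (hGi g hg), (hG' _).2 ⟨g, hg, fun x => LFN_resE_apply ζ _ (g i) (hGi g hg) x⟩,
        fun x => LFN_resE_apply ζ _ (g i) (hGi g hg) x⟩
    have hnorm : ∀ h ∈ G', ∀ M ∈ b, cj h M ∈ b := by
      intro h hh M hM
      obtain ⟨g, hg, h1⟩ := (hG' h).1 hh
      obtain ⟨B, h2, h3, h4, h5⟩ := (hb M).1 hM
      refine (hb _).2 ⟨cj (g i) B, LFN_comm_cj (g i) (hGi g hg) h2, LFN_only_cj (g i) (hGi g hg) h3, ?_, ?_⟩
      · intro x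
        have h6 : (g i).symm (x : V i) = (h.symm x : eg (Z i) ζ ((s : ℕ) + 1)) := by
          rw [LinearEquiv.symm_apply_eq, ← h1, LinearEquiv.apply_symm_apply]
        show g i (B ((g i).symm x)) = (h (M (h.symm x)) : V i)
        rw [h6, h4, h1]
      · obtain ⟨π, hπ⟩ := hGn g hg
        have h7 := hSC2 g π hπ _ h5
        have h8 : (fun j => cj (g j) (sgl i B j)) = sgl i (cj (g i) B) := by
          funext j
          by_cases hj : j = i
          · subst hj
            rw [LFN_sgl_same, LFN_sgl_same]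
          · rw [LFN_sgl_ne hj, LFN_sgl_ne hj]
            refine LinearMap.ext fun x => ?_
            show g j ((0 : V j →ₗ[Ω] V j) ((g j).symm x)) = 0
            rw [LinearMap.zero_apply, map_zero]
        rw [h8] at h7
        exact h7
    have hirr' : ∀ W : Submodule Ω (eg (Z i) ζ ((s : ℕ) + 1)), (∀ h ∈ G', ∀ w ∈ W, h w ∈ W) → W = ⊥ ∨ W = ⊤ := by
      intro W hW
      have h1 := hirr i s (W.map (eg (Z i) ζ ((s : ℕ) + 1)).subtype) (by
        intro x hx
        obtain ⟨y, -, rfl⟩ := Submodule.mem_map.1 hx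
        exact y.2) (by
        intro g hg w hw
        obtain ⟨y, hy, rfl⟩ := Submodule.mem_map.1 hw
        obtain ⟨h, hh, h2⟩ := hres g hg
        refine Submodule.mem_map.2 ⟨h y, hW h hh y hy, ?_⟩
        exact h2 y)
      rcases h1 with h1 | h1
      · left
        rw [Submodule.eq_bot_iff]
        intro x hx
        have h2 : (x : V i) ∈ W.map (eg (Z i) ζ ((s : ℕ) + 1)).subtype := Submodule.mem_map.2 ⟨x, hx, rfl⟩
        rw [h1] at h2
        exact Subtype.ext ((Submodule.mem_bot Ω).1 h2)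
      · right
        rw [Submodule.eq_top_iff']
        intro x
        have h2 : (x : V i) ∈ W.map (eg (Z i) ζ ((s : ℕ) + 1)).subtype := by
          rw [h1]
          exact x.2
        obtain ⟨y, hy, h3⟩ := Submodule.mem_map.1 h2
        have h4 : y = x := Subtype.ext h3
        rwa [h4] at hy
    have hall : ∀ M : eg (Z i) ζ ((s : ℕ) + 1) →ₗ[Ω] eg (Z i) ζ ((s : ℕ) + 1), LinearMap.trace Ω _ M = 0 → M ∈ b := by
      rcases hLBK Ω _ (n i) (v i s) b hbr hdiag G' hnorm hirr' with h | ⟨S, hS1, hS2, hS3, h, hh, W, hW, hne⟩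
      · exact h
      · exfalso
        have hinj : Function.Injective (Submodule.map (eg (Z i) ζ ((s : ℕ) + 1)).subtype : Submodule Ω (eg (Z i) ζ ((s : ℕ) + 1)) → Submodule Ω (V i)) :=
          Submodule.map_injective_of_injective (Submodule.subtype_injective _)
        have him : ∀ (g : ∀ i, V i ≃ₗ[Ω] V i) (h : eg (Z i) ζ ((s : ℕ) + 1) ≃ₗ[Ω] eg (Z i) ζ ((s : ℕ) + 1)),
            (∀ x : eg (Z i) ζ ((s : ℕ) + 1), (h x : V i) = g i x) → ∀ W : Submodule Ω (eg (Z i) ζ ((s : ℕ) + 1)),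
            im (g i) (W.map (eg (Z i) ζ ((s : ℕ) + 1)).subtype) = (im h W).map (eg (Z i) ζ ((s : ℕ) + 1)).subtype := by
          intro g h hgh W
          rw [im, im, ← Submodule.map_comp, ← Submodule.map_comp]
          refine congrArg (fun f => Submodule.map f W) ?_
          refine LinearMap.ext fun x => ?_
          exact (hgh x).symm
        obtain ⟨g, hg, hgh⟩ := (hG' h).1 hh
        have h1 := hmove i s (S.image (Submodule.map (eg (Z i) ζ ((s : ℕ) + 1)).subtype)) ⟨?_, ?_⟩ ?_ ?_ ?_ g hg _ (Finset.mem_image_of_mem _ hW)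
        · rw [him g h hgh] at h1
          exact hne (hinj h1)
        · intro W' hW'
          obtain ⟨W1, hW1, rfl⟩ := Finset.mem_image.1 hW'
          intro h2
          exact hS1.ne W1 hW1 (hinj (h2.trans (Submodule.map_bot _).symm))
        · intro W' hW' W'' hW'' hne'
          obtain ⟨W1, hW1, rfl⟩ := Finset.mem_image.1 hW'
          obtain ⟨W2, hW2, rfl⟩ := Finset.mem_image.1 hW''
          have h2 : W1 ≠ W2 := fun h3 => hne' (by rw [h3])
          have h3 := hS1.dis W1 hW1 W2 hW2 h2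
          rw [Submodule.disjoint_def] at h3 ⊢
          intro x hx hx'
          obtain ⟨y, hy, rfl⟩ := Submodule.mem_map.1 hx
          obtain ⟨y', hy', h4⟩ := Submodule.mem_map.1 hx'
          have h5 : y' = y := Subtype.ext h4
          rw [h5] at hy'
          rw [h3 y hy hy', map_zero]
        · exact Finset.card_image_le.trans hS2
        · intro W' hW'
          obtain ⟨W1, hW1, rfl⟩ := Finset.mem_image.1 hW'
          intro x hx
          obtain ⟨y, -, rfl⟩ := Submodule.mem_map.1 hx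
          exact y.2
        · intro g' hg' W' hW'
          obtain ⟨W1, hW1, rfl⟩ := Finset.mem_image.1 hW'
          obtain ⟨h', hh', h2⟩ := hres g' hg'
          rw [him g' h' h2]
          exact Finset.mem_image_of_mem _ (hS3 h' hh' W1 hW1)
    -- the operators with the conclusion
    let P : Submodule Ω (eg (Z i) ζ ((s : ℕ) + 1) →ₗ[Ω] eg (Z i) ζ ((s : ℕ) + 1)) :=
      { carrier := {N | ∃ B : V i →ₗ[Ω] V i, CS (Z i) (E i) B ∧ Only l (Z i) ζ ((s : ℕ) + 1) B ∧ (∀ x : eg (Z i) ζ ((s : ℕ) + 1), B x = N x) ∧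
        ∀ d ≤ d0, ∀ κ : H → Ω, ∀ Y ∈ (⋀[Ω]^d (∀ i, Fin (e i) → V i) : Submodule Ω (ExteriorAlgebra Ω (∀ i, Fin (e i) → V i))),
          (∀ h, ExteriorAlgebra.map (dia e (ρ h)) Y = κ h • Y) → dX (dia e (sgl i B)) Y = 0}
        add_mem' := by
          rintro N N' ⟨B, h1, h2, h3, h4⟩ ⟨B', h1', h2', h3', h4'⟩
          refine ⟨B + B', ⟨?_, ?_⟩, LFN_only_add h2 h2', ?_, ?_⟩
          · rw [LinearMap.add_comp, LinearMap.comp_add, h1.1, h1'.1]
          · intro x y
            rw [LinearMap.add_apply, LinearMap.add_apply, map_add, map_add, LinearMap.add_apply, h1.2, h1'.2]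
            ring
          · intro x
            rw [LinearMap.add_apply, LinearMap.add_apply, h3, h3']
            rfl
          · intro d hd κ Y hY heY
            rw [LFN_sgl_add, LFN_dia_add, (hL10 Ω _).2.2.2.1, h4 d hd κ Y hY heY, h4' d hd κ Y hY heY, add_zero]
        zero_mem' := by
          refine ⟨0, ⟨?_, ?_⟩, ?_, ?_, ?_⟩
          · rw [LinearMap.zero_comp, LinearMap.comp_zero]
          · intro x y
            rw [LinearMap.zero_apply, LinearMap.zero_apply, map_zero, map_zero, LinearMap.zero_apply, neg_zero]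
          · intro r _ _ _ _ x _
            rfl
          · intro x
            rfl
          · intro d hd κ Y hY heY
            have h1 : sgl i (0 : V i →ₗ[Ω] V i) = fun j => (0 : Ω) • sgl i (0 : V i →ₗ[Ω] V i) j := by
              rw [← LFN_sgl_smul, zero_smul]
            rw [h1, LFN_dia_smul, (hL10 Ω _).2.2.2.2.1, zero_smul]
        smul_mem' := by
          rintro a N ⟨B, h1, h2, h3, h4⟩
          refine ⟨a • B, ⟨?_, ?_⟩, LFN_only_smul a h2, ?_, ?_⟩
          · rw [LinearMap.smul_comp, LinearMap.comp_smul, h1.1]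
          · intro x y
            rw [LinearMap.smul_apply, LinearMap.smul_apply, map_smul, map_smul, LinearMap.smul_apply, h1.2, smul_neg]
          · intro x
            rw [LinearMap.smul_apply, LinearMap.smul_apply, h3]
            rfl
          · intro d hd κ Y hY heY
            rw [LFN_sgl_smul, LFN_dia_smul, (hL10 Ω _).2.2.2.2.1, h4 d hd κ Y hY heY, smul_zero] }
    intro N hN
    have hNP : N ∈ P := by
      refine LFN_brackets (v i s) P ?_ N hN
      intro M M' hM hM'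
      obtain ⟨B, h1, h2, h3, h4⟩ := (hb M).1 (hall M hM)
      obtain ⟨B', h1', h2', h3', h4'⟩ := (hb M').1 (hall M' hM')
      obtain ⟨c1, hc1⟩ := hTH i hei _ h4
      obtain ⟨c2, hc2⟩ := hTH i hei _ h4'
      rw [LFN_sgl_same] at hc1 hc2
      refine ⟨B ∘ₗ B' - B' ∘ₗ B, ⟨LFN_comm_br h1 h1', LFN_skew hc1 hc2⟩, LFN_only_br h2 h2', ?_, ?_⟩
      · intro x
        show B (B' x) - B' (B x) = ((M (M' x) - M' (M x) : eg (Z i) ζ ((s : ℕ) + 1)) : V i)
        rw [h3', h3, h3, h3']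
        rfl
      · intro d hd κ Y hY heY
        rw [LFN_sgl_br]
        exact (hSC1 _ _ 0 h4 h4').2.2.2 d hd κ Y hY heY
    exact hNP
  -- the given family
  have hzero' : ∀ Y : ExteriorAlgebra Ω (∀ i, Fin (e i) → V i), dX (0 : (∀ i, Fin (e i) → V i) →ₗ[Ω] (∀ i, Fin (e i) → V i)) Y = 0 := by
    intro Y
    have h1 := (hL10 Ω (∀ i, Fin (e i) → V i)).2.2.2.2.1 0 0 Y
    rwa [zero_smul, zero_smul] at h1
  have hsum : ∀ (ι : Type) (S : Finset ι) (f : ι → ((∀ i, Fin (e i) → V i) →ₗ[Ω] (∀ i, Fin (e i) → V i))),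
      (∀ j ∈ S, dX (f j) Y = 0) → dX (∑ j ∈ S, f j) Y = 0 := by
    intro ι S f
    induction S using Finset.induction_on with
    | empty =>
      intro _
      rw [Finset.sum_empty]
      exact hzero' Y
    | insert a S ha ih =>
      intro h
      rw [Finset.sum_insert ha, (hL10 Ω _).2.2.2.1, h a (Finset.mem_insert_self a S), ih fun j hj => h j (Finset.mem_insert_of_mem hj), add_zero]
  choose B hB1 hB2 using fun i => (hSK i).2.1 (A i) (hA i)
  have hdia : dia e A = ∑ i, ∑ s, dia e (sgl i (B i s)) := by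
    refine LinearMap.ext fun x => ?_
    funext j c'
    have h1 : dia e A x j c' = A j (x j c') := rfl
    rw [h1, hB1 j, LinearMap.sum_apply, LinearMap.sum_apply, Finset.sum_apply, Finset.sum_apply, Finset.sum_eq_single j]
    · rw [LinearMap.sum_apply, Finset.sum_apply, Finset.sum_apply]
      refine Finset.sum_congr rfl fun s _ => ?_
      show B j s (x j c') = sgl j (B j s) j (x j c')
      rw [LFN_sgl_same]
    · intro i _ hi
      rw [LinearMap.sum_apply, Finset.sum_apply, Finset.sum_apply]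
      refine Finset.sum_eq_zero fun s _ => ?_
      show sgl i (B i s) j (x j c') = 0
      rw [LFN_sgl_ne hi.symm, LinearMap.zero_apply]
    · intro h
      exact absurd (Finset.mem_univ j) h
  rw [hdia]
  refine hsum _ _ _ fun i _ => hsum _ _ _ fun s _ => ?_
  obtain ⟨hs1, hs2⟩ := hrange s
  obtain ⟨hCS, hOn, hres⟩ := hB2 i s
  rcases Nat.eq_zero_or_pos (e i) with he | he
  · have h1 : dia e (sgl i (B i s)) = 0 := by
      refine LinearMap.ext fun x => ?_
      funext j c'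
      show sgl i (B i s) j (x j c') = 0
      by_cases hj : j = i
      · subst hj
        rw [he] at c'
        exact c'.elim0
      · rw [LFN_sgl_ne hj, LinearMap.zero_apply]
    rw [h1]
    exact hzero' Y
  · have hAZ : ∀ x, A i (Z i x) = Z i (A i x) := fun x => LinearMap.congr_fun (hA i).1 x
    have hN := htr i _ hs1 hs2 (LFN_res ζ _ hAZ) fun x => (LFN_res_apply ζ _ hAZ x).symm
    obtain ⟨B', h1, h2, h3, h4⟩ := key i he s _ hN
    obtain ⟨B0, -, hu⟩ := (hSK i).1 _ hs1 hs2 (LFN_res ζ _ hAZ)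
    have h5 : B i s = B' := by
      rw [hu (B i s) ⟨hCS, fun x => (hres x x.2).trans (LFN_res_apply ζ _ hAZ x).symm, hOn⟩, hu B' ⟨h1, h3, h2⟩]
    rw [h5]
    exact h4 d hd κ Y hY heY

end

end Pool.Agent.AQ
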