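import Pool.Agent.helper85.AQ.SpecL
import Pool.Agent.helper39.GJ.SpecL

/-!
# Project aq, row LKI: the result of the linear algebra part
-/

set_option autoImplicit false

namespace Pool.Agent.AQ

open Pool.Agent.GJ
open scoped TensorProduct

noncomputable section

section hom
variable {H Ω W : Type} [Group H] [Field Ω] [AddCommGroup W] [Module Ω W]

/-- a representation -/
def LKI_hom (φ : H → (W →ₗ[Ω] W)) (h1 : φ 1 = LinearMap.id) (hm : ∀ g h, φ (g * h) = φ g ∘ₗ φ h) : H →* (W ≃ₗ[Ω] W) where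
  toFun g := LinearEquiv.ofLinearMap (φ g) (φ g⁻¹) (by rw [← hm, mul_inv_cancel, h1]) (by rw [← hm, inv_mul_cancel, h1])
  map_one' := by
    refine LinearEquiv.ext fun x => ?_
    show φ 1 x = x
    rw [h1, LinearMap.id_apply]
  map_mul' g h := by
    refine LinearEquiv.ext fun x => ?_
    show φ (g * h) x = φ g (φ h x)
    rw [hm, LinearMap.comp_apply]

theorem LKI_hom_coe (φ : H → (W →ₗ[Ω] W)) (h1 : φ 1 = LinearMap.id) (hm : ∀ g h, φ (g * h) = φ g ∘ₗ φ h) (g : H) :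
    (LKI_hom φ h1 hm g : W →ₗ[Ω] W) = φ g := rfl

end hom

section bc
variable {k Ω V : Type} [Field k] [Field Ω] [Algebra k Ω] [AddCommGroup V] [Module k V]

/-- the base change of an automorphism -/
def LKI_bc (Ω : Type) [Field Ω] [Algebra k Ω] (g : V ≃ₗ[k] V) : (Ω ⊗[k] V) ≃ₗ[Ω] (Ω ⊗[k] V) :=
  LinearEquiv.ofLinearMap (LinearMap.baseChange Ω (g : V →ₗ[k] V)) (LinearMap.baseChange Ω (g.symm : V →ₗ[k] V))
    (by
      rw [← LinearMap.baseChange_comp, LinearEquiv.comp_coe, LinearEquiv.symm_trans_self, LinearEquiv.refl_toLinearMap, LinearMap.baseChange_id])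
    (by
      rw [← LinearMap.baseChange_comp, LinearEquiv.comp_coe, LinearEquiv.self_trans_symm, LinearEquiv.refl_toLinearMap, LinearMap.baseChange_id])

theorem LKI_bc_apply (g : V ≃ₗ[k] V) (x : Ω ⊗[k] V) : LKI_bc Ω g x = LinearMap.baseChange Ω (g : V →ₗ[k] V) x := rfl

theorem LKI_bc_symm (g : V ≃ₗ[k] V) (x : Ω ⊗[k] V) : (LKI_bc Ω g).symm x = LinearMap.baseChange Ω (g.symm : V →ₗ[k] V) x := rfl

theorem LKI_bc_comm {A B C D : V →ₗ[k] V} (h : A ∘ₗ B = C ∘ₗ D) (x : Ω ⊗[k] V) :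
    LinearMap.baseChange Ω A (LinearMap.baseChange Ω B x) = LinearMap.baseChange Ω C (LinearMap.baseChange Ω D x) := by
  rw [← LinearMap.comp_apply, ← LinearMap.comp_apply, ← LinearMap.baseChange_comp, ← LinearMap.baseChange_comp, h]

end bc

section deg
variable {Ω V : Type} [Field Ω] [AddCommGroup V] [Module Ω V]

theorem LKI_two (hL10 : L10_stmt) (θ : ExteriorAlgebra Ω V) (h : θ ∈ (⋀[Ω]^2 V : Submodule Ω (ExteriorAlgebra Ω V))) :
    dX (LinearMap.id : V →ₗ[Ω] V) θ = (2 : Ω) • θ := by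
  have h1 : θ ∈ (LinearMap.range (ExteriorAlgebra.ι Ω : V →ₗ[Ω] ExteriorAlgebra Ω V)) * (LinearMap.range (ExteriorAlgebra.ι Ω : V →ₗ[Ω] ExteriorAlgebra Ω V)) := by
    rw [← pow_two]
    exact h
  refine Submodule.mul_induction_on h1 ?_ ?_
  · rintro x ⟨v, rfl⟩ y ⟨w, rfl⟩
    rw [(hL10 Ω V).2.2.1, (hL10 Ω V).1, (hL10 Ω V).1, LinearMap.id_apply, LinearMap.id_apply, two_smul]
  · intro x y hx hy
    rw [map_add, hx, hy, smul_add]

theorem LKI_simil [CharZero Ω] (hL10 : L10_stmt) (θ : ExteriorAlgebra Ω V) (h : θ ∈ (⋀[Ω]^2 V : Submodule Ω (ExteriorAlgebra Ω V)))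
    (E : V →ₗ[Ω] V →ₗ[Ω] Ω) (hE : ∀ A : V →ₗ[Ω] V, dX A θ = 0 ↔ ∀ x y, E (A x) y + E x (A y) = 0) (A : V →ₗ[Ω] V) (c : Ω)
    (hA : dX A θ = c • θ) (x y : V) : E (A x) y + E x (A y) = c * E x y := by
  have h1 : dX (A + (-(c / 2)) • (LinearMap.id : V →ₗ[Ω] V)) θ = 0 := by
    rw [(hL10 Ω V).2.2.2.1, (hL10 Ω V).2.2.2.2.1, LKI_two hL10 θ h, hA, smul_smul, ← add_smul]
    have h2 : c + -(c / 2) * 2 = 0 := by
      have h3 : (2 : Ω) ≠ 0 := two_ne_zero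
      field_simp
      ring
    rw [h2, zero_smul]
  have h2 := (hE _).1 h1 x y
  rw [LinearMap.add_apply, LinearMap.smul_apply, LinearMap.id_apply, LinearMap.add_apply, LinearMap.smul_apply, LinearMap.id_apply,
    map_add, map_add, LinearMap.add_apply, map_smul, map_smul, LinearMap.smul_apply, smul_eq_mul] at h2
  linear_combination h2

end deg

theorem LKI (hLPB : LPB_stmt) (hLFE : LFE_stmt) (hLFN : LFN_stmt) (hLBC : LBC_stmt) (hLND : LND_stmt) (hLDE : LDE_stmt)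
    (hLTH : LTH_stmt) (hLTR : LTR_stmt) (hL9 : L9_stmt) (hL10 : L10_stmt) : LKI_stmt := by
  intro k Ω H _ _ _ _ _ _ l r hl hl2 ζ hζ V _ _ _ e n W _ _ _ Z hfree hsumZ θ hθ2 hθN hθZ ρ ρW χ hχ J _ f ψ hψ d0 hd0 h0 hcomm hχ0 v α hα
    heig hgen G hGZ hGn hirr hmove A hAZ hAθ hAtr d hd X hX κ heX
  classical
  have hchar : CharZero Ω := charZero_of_injective_algebraMap (algebraMap k Ω).injective
  obtain ⟨b, hbinj, hbdeg, hbnat⟩ := hLPB k Ω r V e W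
  -- the data over `Ω`
  have hdat : ∀ i, ∃ (E : (Ω ⊗[k] V i) →ₗ[Ω] (Ω ⊗[k] V i) →ₗ[Ω] Ω) (θ' : ExteriorAlgebra Ω (Ω ⊗[k] V i)),
      θ' ∈ (⋀[Ω]^2 (Ω ⊗[k] V i) : Submodule Ω (ExteriorAlgebra Ω (Ω ⊗[k] V i))) ∧ Pt l (n i) ζ (LinearMap.baseChange Ω (Z i)) E ∧
      (∀ (g : V i →ₗ[k] V i) (c : k), ExteriorAlgebra.map g (θ i) = c • θ i → ExteriorAlgebra.map (LinearMap.baseChange Ω g) θ' = (algebraMap k Ω c) • θ') ∧
      (∀ (g : Ω ⊗[k] V i →ₗ[Ω] Ω ⊗[k] V i) (c : Ω), c ≠ 0 → ExteriorAlgebra.map g θ' = c • θ' → ∀ x y, E (g x) (g y) = c * E x y) ∧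
      (∀ (B : Ω ⊗[k] V i →ₗ[Ω] Ω ⊗[k] V i) (c : Ω), dX B θ' = c • θ' → ∀ x y, E (B x) y + E x (B y) = c * E x y) ∧
      (∀ B : V i →ₗ[k] V i, dX B (θ i) = 0 → ∀ x y, E (LinearMap.baseChange Ω B x) y + E x (LinearMap.baseChange Ω B y) = 0) := by
    intro i
    obtain ⟨bi, -, hb1, hbι, hbm, hbd, hbn⟩ := hLBC k Ω (V i)
    obtain ⟨w, bs, hbs⟩ := hfree i
    obtain ⟨hrank, hdec⟩ := hLDE k Ω (V i) l (n i) hl (Z i) w bs hbs (hsumZ i) ζ hζ
    have hθ'2 := hbd 2 (θ i) (hθ2 i)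
    have hN : NonDeg (bi (θ i)) := hLND k Ω (V i) bi (fun x y => by rw [hbm, hbι, hbι]) (θ i) (hθ2 i) (hθN i)
    obtain ⟨E, hE0, hEn, hEg, hEA⟩ := hL9 Ω (Ω ⊗[k] V i) (bi (θ i)) hθ'2 hN
    have hmap : ∀ (g : V i →ₗ[k] V i) (c : k), ExteriorAlgebra.map g (θ i) = c • θ i →
        ExteriorAlgebra.map (LinearMap.baseChange Ω g) (bi (θ i)) = (algebraMap k Ω c) • bi (θ i) := by
      intro g c hg
      rw [← (hbn g (θ i)).1, hg, map_smul, algebraMap_smul]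
    refine ⟨E, bi (θ i), hθ'2, ⟨hdec, hrank, hEn, ?_, ?_⟩, hmap, hEg, ?_, ?_⟩
    · intro x y
      have h1 := hE0 (x + y)
      rw [map_add, map_add, LinearMap.add_apply, LinearMap.add_apply, hE0, hE0, zero_add, add_zero] at h1
      rw [← add_eq_zero_iff_eq_neg, add_comm]
      exact h1
    · intro x y
      have h1 := hmap (Z i) 1 (by rw [one_smul, hθZ])
      rw [map_one] at h1
      rw [hEg _ 1 one_ne_zero h1, one_mul]
    · exact fun B c hB => LKI_simil hL10 (bi (θ i)) hθ'2 E hEA B c hB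
    · intro B hB
      refine (hEA _).1 ?_
      rw [← (hbn B (θ i)).2, hB, map_zero]
  choose E θ' hθ'2 hPt hmap hEg hEs hEA using hdat
  -- the actions
  have hρ1 : ∀ i, (ρ i 1 : V i →ₗ[k] V i) = LinearMap.id := by
    intro i
    rw [map_one]
    rfl
  have hρm : ∀ i g h, (ρ i (g * h) : V i →ₗ[k] V i) = (ρ i g : V i →ₗ[k] V i) ∘ₗ (ρ i h : V i →ₗ[k] V i) := by
    intro i g h
    rw [map_mul]
    rfl
  let ρ' : H → ∀ i, Ω ⊗[k] V i →ₗ[Ω] Ω ⊗[k] V i := fun h i => LinearMap.baseChange Ω (ρ i h : V i →ₗ[k] V i)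
  let ρ1 : H →* ((∀ i, Fin (e i) → Ω ⊗[k] V i) ≃ₗ[Ω] (∀ i, Fin (e i) → Ω ⊗[k] V i)) :=
    LKI_hom (fun h => dia (V := fun i => Ω ⊗[k] V i) e (ρ' h)) (by
      refine LinearMap.ext fun x => ?_
      funext i c
      show LinearMap.baseChange Ω (ρ i 1 : V i →ₗ[k] V i) (x i c) = x i c
      rw [hρ1, LinearMap.baseChange_id, LinearMap.id_apply]) (by
      intro g h
      refine LinearMap.ext fun x => ?_
      funext i c
      show LinearMap.baseChange Ω (ρ i (g * h) : V i →ₗ[k] V i) (x i c) = LinearMap.baseChange Ω (ρ i g : V i →ₗ[k] V i) (LinearMap.baseChange Ω (ρ i h : V i →ₗ[k] V i) (x i c))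
      rw [hρm, LinearMap.baseChange_comp, LinearMap.comp_apply])
  let ρ2 : H →* ((Ω ⊗[k] W) ≃ₗ[Ω] (Ω ⊗[k] W)) :=
    LKI_hom (fun h => LinearMap.baseChange Ω (ρW h : W →ₗ[k] W)) (by
      rw [map_one]
      exact LinearMap.baseChange_id) (by
      intro g h
      rw [map_mul, ← LinearMap.baseChange_comp]
      rfl)
  let A' : ∀ i, Ω ⊗[k] V i →ₗ[Ω] Ω ⊗[k] V i := fun i => LinearMap.baseChange Ω (A i)
  -- the eigenvectors of the first factor
  have hA'Z : ∀ i, A' i ∘ₗ LinearMap.baseChange Ω (Z i) = LinearMap.baseChange Ω (Z i) ∘ₗ A' i := by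
    intro i
    show LinearMap.baseChange Ω (A i) ∘ₗ LinearMap.baseChange Ω (Z i) = LinearMap.baseChange Ω (Z i) ∘ₗ LinearMap.baseChange Ω (A i)
    rw [← LinearMap.baseChange_comp, ← LinearMap.baseChange_comp, hAZ]
  let GΩ : Subgroup (∀ i, (Ω ⊗[k] V i) ≃ₗ[Ω] (Ω ⊗[k] V i)) :=
    { carrier := {g' | ∃ g ∈ G, ∀ i x, g' i x = LinearMap.baseChange Ω (g i : V i →ₗ[k] V i) x}
      mul_mem' := by
        rintro g' h' ⟨g, hg, h1⟩ ⟨h, hh, h2⟩
        refine ⟨g * h, G.mul_mem hg hh, fun i x => ?_⟩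
        show g' i (h' i x) = _
        rw [h2, h1, ← LinearMap.comp_apply, ← LinearMap.baseChange_comp]
        rfl
      one_mem' := by
        refine ⟨1, G.one_mem, fun i x => ?_⟩
        show x = LinearMap.baseChange Ω (LinearMap.id : V i →ₗ[k] V i) x
        rw [LinearMap.baseChange_id, LinearMap.id_apply]
      inv_mem' := by
        rintro g' ⟨g, hg, h1⟩
        refine ⟨g⁻¹, G.inv_mem hg, fun i x => ?_⟩
        show (g' i).symm x = LKI_bc Ω (g i).symm x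
        rw [LinearEquiv.symm_apply_eq, h1]
        exact (LinearEquiv.apply_symm_apply (LKI_bc Ω (g i)) x).symm }
  have hGΩ : ∀ g', g' ∈ GΩ ↔ ∃ g ∈ G, ∀ i x, g' i x = LinearMap.baseChange Ω (g i : V i →ₗ[k] V i) x := fun g' => Iff.rfl
  have hGmem : ∀ g ∈ G, (fun i => LKI_bc Ω (g i)) ∈ GΩ := fun g hg => (hGΩ _).2 ⟨g, hg, fun i x => rfl⟩
  have hsmall : ∀ e' ≤ d, ∀ Y ∈ (⋀[Ω]^e' (∀ i, Fin (e i) → Ω ⊗[k] V i) : Submodule Ω (ExteriorAlgebra Ω (∀ i, Fin (e i) → Ω ⊗[k] V i))), ∀ κ' : H → Ω,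
      (∀ h, ExteriorAlgebra.map (ρ1 h : (∀ i, Fin (e i) → Ω ⊗[k] V i) →ₗ[Ω] (∀ i, Fin (e i) → Ω ⊗[k] V i)) Y = κ' h • Y) →
      dX (dia (V := fun i => Ω ⊗[k] V i) e A') Y = 0 := by
    intro e' he' Y hY κ' hκ'
    refine hLFN Ω H l r hl hl2 ζ hζ (fun i => Ω ⊗[k] V i) e n (fun i => LinearMap.baseChange Ω (Z i)) E hPt d0 ρ' h0 v α (algebraMap k Ω (χ h0))
      ?_ hα ?_ ?_ heig hgen ?_ GΩ ?_ ?_ ?_ ?_ A' ?_ ?_ e' (he'.trans hd) κ' Y hY hκ'
    · exact (map_ne_zero (algebraMap k Ω)).2 hχ0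
    · intro i
      show LinearMap.baseChange Ω (ρ i h0 : V i →ₗ[k] V i) ∘ₗ LinearMap.baseChange Ω (Z i) = LinearMap.baseChange Ω (Z i) ∘ₗ LinearMap.baseChange Ω (ρ i h0 : V i →ₗ[k] V i)
      rw [← LinearMap.baseChange_comp, ← LinearMap.baseChange_comp]
      refine congrArg _ (LinearMap.ext fun x => ?_)
      exact hcomm i x
    · intro i x y
      exact hEg i _ _ ((map_ne_zero (algebraMap k Ω)).2 hχ0) (hmap i _ _ (hχ h0 i)) x y
    · intro i hei B hB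
      refine hLTH Ω H r (fun i => Ω ⊗[k] V i) e d0 ρ' i (E i) (θ' i) (hθ'2 i) (hEs i) ?_ hei hd0 B hB
      intro h
      exact ⟨_, hmap i _ _ (hχ h i)⟩
    · intro g' hg' i x
      obtain ⟨g, hg, h1⟩ := (hGΩ g').1 hg'
      rw [h1, h1]
      exact LKI_bc_comm (LinearMap.ext fun y => hGZ g hg i y) x
    · intro g' hg'
      obtain ⟨g, hg, h1⟩ := (hGΩ g').1 hg'
      obtain ⟨π, hπ⟩ := hGn g hg
      refine ⟨π, fun h i => LinearMap.ext fun x => ?_⟩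
      show LinearMap.baseChange Ω (ρ i h : V i →ₗ[k] V i) (g' i x) = g' i (LinearMap.baseChange Ω (ρ i (π h) : V i →ₗ[k] V i) x)
      rw [h1, h1]
      exact LKI_bc_comm (LinearMap.ext fun y => hπ h i y) x
    · intro i s U hU hst
      exact hirr i s U hU fun g hg w hw => hst _ (hGmem g hg) w hw
    · intro i s S hS hc hle hst g' hg' U hU
      obtain ⟨g, hg, h1⟩ := (hGΩ g').1 hg'
      have h2 : ∀ (g' : ∀ i, (Ω ⊗[k] V i) ≃ₗ[Ω] (Ω ⊗[k] V i)) (g : ∀ i, V i ≃ₗ[k] V i), (∀ i x, g' i x = LinearMap.baseChange Ω (g i : V i →ₗ[k] V i) x) →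
          ∀ U : Submodule Ω (Ω ⊗[k] V i), im (g' i) U = U.map (LinearMap.baseChange Ω (g i : V i →ₗ[k] V i)) := by
        intro g' g h U
        rw [im]
        refine congrArg (fun f => Submodule.map f U) ?_
        exact LinearMap.ext fun x => h i x
      rw [h2 g' g h1]
      refine hmove i s S hS hc hle ?_ g hg U hU
      intro g2 hg2 U2 hU2
      have h3 := hst _ (hGmem g2 hg2) U2 hU2
      have h4 := h2 (fun i => LKI_bc Ω (g2 i)) g2 (fun i x => rfl) U2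
      rw [← h4]
      exact h3
    · intro i
      refine ⟨hA'Z i, fun x y => ?_⟩
      exact eq_neg_of_add_eq_zero_left (hEA i (A i) (hAθ i) x y)
    · intro i s hs1 hs2 N hN
      refine hLTR Ω (Ω ⊗[k] V i) l hl (LinearMap.baseChange Ω (Z i)) ζ hζ (hPt i).dec (A' i) (hA'Z i) ?_ s hs1 hs2 N hN
      intro j
      have h1 : ((LinearMap.baseChange Ω (Z i) : Module.End Ω (Ω ⊗[k] V i)) ^ j) ∘ₗ A' i =
          LinearMap.baseChange Ω (((Z i : Module.End k (V i)) ^ j) ∘ₗ A i) := by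
        rw [LinearMap.baseChange_comp, LinearMap.baseChange_pow]
      rw [h1, LinearMap.trace_baseChange, hAtr, map_zero]
  -- the Fermat part
  have hfin := hLFE Ω (∀ i, Fin (e i) → Ω ⊗[k] V i) (Ω ⊗[k] W) J H f ρ1 ρ2 ψ hψ (dia (V := fun i => Ω ⊗[k] V i) e A') d hsmall (b X) (hbdeg d X hX)
    (fun h => algebraMap k Ω (κ h)) (by
      intro h
      have h1 := (hbnat (fun i => (ρ i h : V i →ₗ[k] V i)) (ρW h : W →ₗ[k] W) X).1
      rw [heX, map_smul] at h1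
      rw [algebraMap_smul]
      exact h1.symm)
  have h2 := (hbnat A (0 : W →ₗ[k] W) X).2
  rw [LinearMap.baseChange_zero] at h2
  have h3 : b (dX (LinearMap.prodMap (dia e A) (0 : W →ₗ[k] W)) X) = 0 := h2.trans hfin
  exact hbinj (h3.trans (map_zero b).symm)

end

end Pool.Agent.AQ
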