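import Pool.Agent.helper85.AQ.SpecB
import Pool.Agent.helper85.AQ.LFN
import Pool.Agent.helper85.AQ.LKI
import Pool.Agent.helper39.TQ.SpecN

/-!
# Project aq, row BRF: irreducibility
-/

set_option autoImplicit false

namespace Pool.Agent.AQ

open Polynomial Pool.Agent.HC Pool.Agent.HC.SJ Pool.Agent.SJ Pool.Agent.GJ Pool.Agent.TK Pool.Agent.CM
open Pool.Agent.TQJ Pool.Agent.TQG
open Pool.Agent.FJ (VT Om chiO rf rs IsFrobO)
open Pool.Agent.TD (zK DvK bC mK IsPhiK Stab)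
open scoped TensorProduct NumberField

noncomputable section

theorem BRF_iota : Nonempty (Om →+* ℂ) := by
  have : Algebra.IsAlgebraic ℚ Om := AlgebraicClosure.isAlgebraic ℚ
  exact ⟨(IsAlgClosed.lift : Om →ₐ[ℚ] ℂ).toRingHom⟩

theorem BRF_count : Countable Om := by
  rw [← Cardinal.mk_le_aleph0_iff]
  have h : Algebra.IsAlgebraic ℚ (AlgebraicClosure ℚ) := AlgebraicClosure.isAlgebraic ℚ
  refine (Algebra.IsAlgebraic.cardinalMk_le_max ℚ (AlgebraicClosure ℚ)).trans ?_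
  simp

theorem BRF_ne {l m p : ℕ} (hl : l.Prime) (hp : p.Prime) (hm : m.Prime) (hlp : l ∣ p - 1)
    (hprim : ∀ x y : ZMod m, x ≠ 0 → y ≠ 0 → ∃ k : ℕ, y = (p : ZMod m) ^ k * x) : m ≠ p := by
  intro h
  subst h
  rcases Nat.lt_or_ge 2 m with h2 | h2
  · have hF : Fact m.Prime := ⟨hm⟩
    have h21 : (2 : ZMod m) ≠ 0 := by
      intro h0
      have h1 : ((2 : ℕ) : ZMod m) = 0 := by exact_mod_cast h0
      rw [ZMod.natCast_eq_zero_iff] at h1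
      exact absurd (Nat.le_of_dvd two_pos h1) (not_le.2 h2)
    obtain ⟨k, hk⟩ := hprim 1 2 one_ne_zero h21
    rw [CharP.cast_eq_zero, mul_one] at hk
    rcases Nat.eq_zero_or_pos k with h0 | h0
    · rw [h0, pow_zero] at hk
      have h3 : (1 : ZMod m) = 0 := by linear_combination hk
      exact one_ne_zero h3
    · rw [zero_pow h0.ne'] at hk
      exact h21 hk
  · have h3 : m = 2 := le_antisymm h2 hm.two_le
    rw [h3] at hlp
    have h4 := Nat.le_of_dvd one_pos hlp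
    exact absurd hl.one_lt (not_lt.2 h4)

/-- `zK q z` with explicit type -/
abbrev BRF_Z {l : ℕ} [Fact l.Prime] (D : Dat l) (q : ℕ) [Fact q.Prime] (i : Fin D.k) (z : rootsOfUnity l Om) :
    VT q (JC Om l (D.μ i) (D.a i)) →ₗ[ℚ_[q]] VT q (JC Om l (D.μ i) (D.a i)) := zK q z

section op
variable {Ω V : Type} [Field Ω] [AddCommGroup V] [Module Ω V]

theorem BRF_pow {Z : V →ₗ[Ω] V} (ζ : Ω) (s : ℕ) (g : V ≃ₗ[Ω] V) (h : ∀ x, g (Z x) = Z (g x)) (j : ℕ) (x : eg Z ζ s) :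
    (((LFN_resE ζ s g h) ^ j) x : V) = (((g : V →ₗ[Ω] V) : Module.End Ω V) ^ j) x := by
  induction j generalizing x with
  | zero => rfl
  | succ j ih =>
    rw [pow_succ, pow_succ]
    show (((LFN_resE ζ s g h) ^ j) (LFN_resE ζ s g h x) : V) = (((g : V →ₗ[Ω] V) : Module.End Ω V) ^ j) (g x)
    rw [ih, LFN_resE_apply]

theorem BRF_pow' {Z : V →ₗ[Ω] V} (ζ : Ω) (s : ℕ) (g : V ≃ₗ[Ω] V) (h : ∀ x, g (Z x) = Z (g x)) (j : ℕ) (x : eg Z ζ s) :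
    (((((LFN_resE ζ s g h : eg Z ζ s ≃ₗ[Ω] eg Z ζ s) : eg Z ζ s →ₗ[Ω] eg Z ζ s) : Module.End Ω (eg Z ζ s)) ^ j) x : V) =
      (((g : V →ₗ[Ω] V) : Module.End Ω V) ^ j) x := by
  induction j generalizing x with
  | zero => rfl
  | succ j ih =>
    rw [pow_succ, pow_succ]
    show (((((LFN_resE ζ s g h : eg Z ζ s ≃ₗ[Ω] eg Z ζ s) : eg Z ζ s →ₗ[Ω] eg Z ζ s) : Module.End Ω (eg Z ζ s)) ^ j) (LFN_resE ζ s g h x) : V) =
      (((g : V →ₗ[Ω] V) : Module.End Ω V) ^ j) (g x)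
    rw [ih, LFN_resE_apply]

theorem BRF_scalar {Z : V →ₗ[Ω] V} (ζ : Ω) (s : ℕ) (j : ℕ) (x : V) (hx : x ∈ eg Z ζ s) : ((Z : Module.End Ω V) ^ j) x = (ζ ^ s) ^ j • x := by
  induction j with
  | zero => rw [pow_zero, pow_zero, one_smul]; rfl
  | succ j ih =>
    rw [pow_succ', Module.End.mul_apply, ih, map_smul, (LFN_mem_eg Z ζ s x).1 hx, smul_smul, ← pow_succ]

end op

theorem BRF (hBPL : BPL_stmt) (hLIB : LIB_stmt) (hLIR : LIR_stmt) (hLDE : LDE_stmt) (hBGP : BGP_stmt) (hVF : TD.VF_stmt) (hNB1 : TQ.NB1_stmt)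
    (h4 : KA4_stmt) : BRF_stmt := by
  intro l p _ _ hl2 hlp D hPF i hm hprim hμ F u hFm hFE hF
  have hl : l.Prime := Fact.out
  have hp : p.Prime := Fact.out
  have hne := BRF_ne hl hp hm hlp hprim
  obtain ⟨τ, φ, hτ, hφ, r, hq⟩ := hBPL l p hl2 hlp D hPF i hm hne hμ F u hFm hFE hF
  refine ⟨τ, φ, hτ, hφ, ?_⟩
  intro q _ hqp Ω _ _ _ _ ζ hζ z hz s hs0 hsl
  obtain ⟨hT, hΦ⟩ := hq q hqp
  have hl0 : NeZero (l : Om) := ⟨by exact_mod_cast hl.ne_zero⟩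
  have hded : ∀ i, IsDedekindDomain (CR Om l (D.μ i) (D.a i)) := fun i => h4 Om l (D.n i) (D.μ i) (D.a i)
  have hn : 0 < D.n i := by
    have := hm.two_le
    omega
  obtain ⟨ι⟩ := BRF_iota
  have hcount : Countable Om := BRF_count
  obtain ⟨v, b, hb⟩ := hVF Om ι l (D.n i) q hl2 hn (D.μ i) (D.a i) z hz
  have hfd : FiniteDimensional ℚ_[q] (VT q (JC Om l (D.μ i) (D.a i))) := Module.Finite.of_basis b
  have hzmul : ∀ s t : rootsOfUnity l Om, (zK q (s * t) : Module.End ℚ_[q] (VT q (JC Om l (D.μ i) (D.a i)))) = zK q s * zK q t :=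
    fun s t => (hNB1 l q D).2.2.2.1 i s t
  have hzone : (zK q (1 : rootsOfUnity l Om) : Module.End ℚ_[q] (VT q (JC Om l (D.μ i) (D.a i)))) = 1 := (hNB1 l q D).2.2.2.2.1 i
  have hzsum : ∑ j ∈ Finset.range l, (zK q z : Module.End ℚ_[q] (VT q (JC Om l (D.μ i) (D.a i)))) ^ j = 0 :=
    (hNB1 l q D).2.2.2.2.2.2.1 i z hz
  obtain ⟨hrank, -⟩ := hLDE ℚ_[q] Ω (VT q (JC Om l (D.μ i) (D.a i))) l (D.n i) hl (zK q z) v b hb hzsum ζ hζ
  have hrk := hrank s hs0 hsl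
  obtain ⟨hPF1, hPFm, hPFi, hG⟩ := hBGP l q D
  obtain ⟨hGm, hG1, -, hGz, -⟩ := hG i
  -- the operators
  have hone : ∀ (σ : Om ≃+* Om) (h : PF D σ), σ = 1 → ∀ v, galP q h i v = v := by
    rintro σ h rfl v
    exact hG1 h v
  have hinv : ∀ (σ : Om ≃+* Om) (h : PF D σ) (h' : PF D σ⁻¹) v, galP q h i (galP q h' i v) = v := by
    intro σ h h' v
    rw [← hGm σ σ⁻¹ h h' (hPFm _ _ h h')]
    exact hone _ _ (mul_inv_cancel σ) v
  have hinv' : ∀ (σ : Om ≃+* Om) (h : PF D σ) (h' : PF D σ⁻¹) v, galP q h' i (galP q h i v) = v := by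
    intro σ h h' v
    rw [← hGm σ⁻¹ σ h' h (hPFm _ _ h' h)]
    exact hone _ _ (inv_mul_cancel σ) v
  let gE : ∀ (σ : Om ≃+* Om) (_ : PF D σ), VT q (JC Om l (D.μ i) (D.a i)) ≃ₗ[ℚ_[q]] VT q (JC Om l (D.μ i) (D.a i)) := fun σ h =>
    LinearEquiv.ofLinearMap (galP q h i) (galP q (hPFi σ h) i) (LinearMap.ext fun v => hinv σ h (hPFi σ h) v) (LinearMap.ext fun v => hinv' σ h (hPFi σ h) v)
  let zE : VT q (JC Om l (D.μ i) (D.a i)) ≃ₗ[ℚ_[q]] VT q (JC Om l (D.μ i) (D.a i)) :=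
    LinearEquiv.ofLinearMap (zK q r) (zK q r⁻¹)
      (by
        have h1 := hzmul r r⁻¹
        rw [mul_inv_cancel, hzone] at h1
        exact h1.symm)
      (by
        have h1 := hzmul r⁻¹ r
        rw [inv_mul_cancel, hzone] at h1
        exact h1.symm)
  let tE : VT q (JC Om l (D.μ i) (D.a i)) ≃ₗ[ℚ_[q]] VT q (JC Om l (D.μ i) (D.a i)) := zE.trans (gE τ hτ)
  have htE : (tE : VT q (JC Om l (D.μ i) (D.a i)) →ₗ[ℚ_[q]] VT q (JC Om l (D.μ i) (D.a i))) = galP q hτ i ∘ₗ zK q r := rfl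
  have hzc : ∀ v : VT q (JC Om l (D.μ i) (D.a i)), zK q r (zK q z v) = zK q z (zK q r v) := by
    intro v
    have h1 := hzmul r z
    rw [mul_comm r z, hzmul z r] at h1
    exact (LinearMap.congr_fun h1 v).symm
  have hcT : ∀ x, LKI_bc Ω tE (LinearMap.baseChange Ω (BRF_Z D q i z) x) = LinearMap.baseChange Ω (BRF_Z D q i z) (LKI_bc Ω tE x) := by
    intro x
    refine LKI_bc_comm (LinearMap.ext fun v => ?_) x
    show galP q hτ i (zK q r (zK q z v)) = zK q z (galP q hτ i (zK q r v))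
    rw [hzc, hGz]
  have hcΦ : ∀ x, LKI_bc Ω (gE φ hφ) (LinearMap.baseChange Ω (BRF_Z D q i z) x) = LinearMap.baseChange Ω (BRF_Z D q i z) (LKI_bc Ω (gE φ hφ) x) := by
    intro x
    refine LKI_bc_comm (LinearMap.ext fun v => ?_) x
    exact hGz φ hφ z v
  have hTsum : (∑ j ∈ Finset.range (D.n i + 1), (((LFN_resE ζ s (LKI_bc Ω tE) hcT : eg (LinearMap.baseChange Ω (BRF_Z D q i z)) ζ s ≃ₗ[Ω] eg (LinearMap.baseChange Ω (BRF_Z D q i z)) ζ s) :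
      eg (LinearMap.baseChange Ω (BRF_Z D q i z)) ζ s →ₗ[Ω] eg (LinearMap.baseChange Ω (BRF_Z D q i z)) ζ s) : Module.End Ω _) ^ j) = 0 := by
    refine LinearMap.ext fun x => Subtype.ext ?_
    rw [LinearMap.sum_apply, AddSubmonoidClass.coe_finsetSum]
    have h1 : ∀ j ∈ Finset.range (D.n i + 1), (((((LFN_resE ζ s (LKI_bc Ω tE) hcT : eg (LinearMap.baseChange Ω (BRF_Z D q i z)) ζ s ≃ₗ[Ω] eg (LinearMap.baseChange Ω (BRF_Z D q i z)) ζ s) :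
      eg (LinearMap.baseChange Ω (BRF_Z D q i z)) ζ s →ₗ[Ω] eg (LinearMap.baseChange Ω (BRF_Z D q i z)) ζ s) : Module.End Ω _) ^ j) x : Ω ⊗[ℚ_[q]] VT q (JC Om l (D.μ i) (D.a i))) =
        LinearMap.baseChange Ω ((galP q hτ i ∘ₗ zK q r : Module.End ℚ_[q] (VT q (JC Om l (D.μ i) (D.a i)))) ^ j) x := by
      intro j _
      rw [BRF_pow', LinearMap.baseChange_pow]
      rfl
    rw [Finset.sum_congr rfl h1]
    have h2 : ∑ j ∈ Finset.range (D.n i + 1), LinearMap.baseChange Ω ((galP q hτ i ∘ₗ zK q r : Module.End ℚ_[q] (VT q (JC Om l (D.μ i) (D.a i)))) ^ j) =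
        LinearMap.baseChange Ω (∑ j ∈ Finset.range (D.n i + 1), (galP q hτ i ∘ₗ zK q r : Module.End ℚ_[q] (VT q (JC Om l (D.μ i) (D.a i)))) ^ j) := by
      exact (map_sum (LinearMap.baseChangeHom ℚ_[q] Ω (VT q (JC Om l (D.μ i) (D.a i))) (VT q (JC Om l (D.μ i) (D.a i)))) _ _).symm
    rw [← LinearMap.sum_apply, h2, hT, LinearMap.baseChange_zero]
    rfl
  have hΦT : ∀ x : eg (LinearMap.baseChange Ω (BRF_Z D q i z)) ζ s, LFN_resE ζ s (LKI_bc Ω (gE φ hφ)) hcΦ (LFN_resE ζ s (LKI_bc Ω tE) hcT x) =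
      ((LFN_resE ζ s (LKI_bc Ω tE) hcT) ^ p) (LFN_resE ζ s (LKI_bc Ω (gE φ hφ)) hcΦ x) := by
    intro x
    apply Subtype.ext
    rw [BRF_pow, LFN_resE_apply, LFN_resE_apply, LFN_resE_apply]
    have h1 : (galP q hφ i : Module.End ℚ_[q] (VT q (JC Om l (D.μ i) (D.a i)))) ∘ₗ (galP q hτ i ∘ₗ zK q r) =
        ((galP q hτ i ∘ₗ zK q r : Module.End ℚ_[q] (VT q (JC Om l (D.μ i) (D.a i)))) ^ p) ∘ₗ galP q hφ i := LinearMap.ext fun v => hΦ v
    have h2 := LKI_bc_comm (Ω := Ω) h1 (x : Ω ⊗[ℚ_[q]] VT q (JC Om l (D.μ i) (D.a i)))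
    rw [LinearMap.baseChange_pow] at h2
    exact h2
  have hrk' : Module.finrank Ω (eg (LinearMap.baseChange Ω (BRF_Z D q i z)) ζ s) = D.n i + 1 - 1 := hrk
  -- the scalar
  obtain ⟨j0, hj0⟩ : ∃ j : ℕ, z ^ j = r := by
    have hlz : NeZero l := ⟨hl.ne_zero⟩
    have hz' : IsPrimitiveRoot ((z : Omˣ) : Om) l := hz
    have h1 : ((r : Omˣ) : Om) ^ l = 1 := by
      rw [← Units.val_pow_eq_pow_val, (mem_rootsOfUnity l _).1 r.2, Units.val_one]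
    obtain ⟨j, -, hj⟩ := hz'.eq_pow_of_pow_eq_one h1
    refine ⟨j, ?_⟩
    apply Subtype.ext
    apply Units.ext
    rw [SubmonoidClass.coe_pow, Units.val_pow_eq_pow_val]
    exact hj
  have hzpow : ∀ j : ℕ, (zK q (z ^ j) : Module.End ℚ_[q] (VT q (JC Om l (D.μ i) (D.a i)))) = (zK q z : Module.End ℚ_[q] (VT q (JC Om l (D.μ i) (D.a i)))) ^ j := by
    intro j
    induction j with
    | zero => rw [pow_zero, pow_zero, hzone]
    | succ j ih => rw [pow_succ, pow_succ, ← ih, hzmul]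
  have hζ0 : ζ ≠ 0 := hζ.ne_zero hl.ne_zero
  have ha0 : (ζ ^ s) ^ j0 ≠ 0 := pow_ne_zero _ (pow_ne_zero _ hζ0)
  have hrE : ∀ x ∈ eg (LinearMap.baseChange Ω (BRF_Z D q i z)) ζ s,
      LinearMap.baseChange Ω (BRF_Z D q i r) x = (ζ ^ s) ^ j0 • x := by
    intro x hx
    have h1 : (BRF_Z D q i r) = (zK q z : Module.End ℚ_[q] (VT q (JC Om l (D.μ i) (D.a i)))) ^ j0 := by
      rw [← hj0]
      exact hzpow j0
    rw [h1, LinearMap.baseChange_pow]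
    exact BRF_scalar ζ s j0 x hx
  have hTE : ∀ x ∈ eg (LinearMap.baseChange Ω (BRF_Z D q i z)) ζ s,
      LKI_bc Ω tE x = (ζ ^ s) ^ j0 • LinearMap.baseChange Ω (galP q hτ i) x := by
    intro x hx
    rw [LKI_bc_apply, htE, LinearMap.baseChange_comp, LinearMap.comp_apply, hrE x hx, map_smul]
  constructor
  · obtain ⟨ω, w, hω, hw1, hw2⟩ := hLIB Ω _ (D.n i + 1) p hm hrk' hprim (LFN_resE ζ s (LKI_bc Ω tE) hcT) (LFN_resE ζ s (LKI_bc Ω (gE φ hφ)) hcΦ) hTsum hΦT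
    refine ⟨((ζ ^ s) ^ j0)⁻¹, ω, w, ?_, hω, ?_, ?_⟩
    · have h1 : ((ζ ^ s) ^ j0) ^ l = 1 := by
        calc ((ζ ^ s) ^ j0) ^ l = (ζ ^ l) ^ (s * j0) := by ring
          _ = 1 := by rw [hζ.pow_eq_one, one_pow]
      rw [inv_pow, h1, inv_one]
    · intro j
      have h1 := congrArg (fun y : eg (LinearMap.baseChange Ω (BRF_Z D q i z)) ζ s =>
        (y : Ω ⊗[ℚ_[q]] VT q (JC Om l (D.μ i) (D.a i)))) (hw1 j)
      have h2 : LKI_bc Ω tE (w j : Ω ⊗[ℚ_[q]] VT q (JC Om l (D.μ i) (D.a i))) = ω ^ ((j : ℕ) + 1) • (w j : Ω ⊗[ℚ_[q]] VT q (JC Om l (D.μ i) (D.a i))) := h1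
      rw [hTE _ (w j).2] at h2
      rw [mul_smul, ← h2, smul_smul, inv_mul_cancel₀ ha0, one_smul]
    · intro j j' hjj
      obtain ⟨d, hd, h1⟩ := hw2 j j' hjj
      refine ⟨d, hd, ?_⟩
      exact congrArg (fun y : eg (LinearMap.baseChange Ω (BRF_Z D q i z)) ζ s =>
        (y : Ω ⊗[ℚ_[q]] VT q (JC Om l (D.μ i) (D.a i)))) h1
  · intro W hW hWτ hWφ
    have h1 := hLIR Ω _ (D.n i + 1) p hm hrk' hprim (LFN_resE ζ s (LKI_bc Ω tE) hcT) (LFN_resE ζ s (LKI_bc Ω (gE φ hφ)) hcΦ) hTsum hΦT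
      (W.comap (eg (LinearMap.baseChange Ω (BRF_Z D q i z)) ζ s).subtype) (by
        intro w hw
        show (LFN_resE ζ s (LKI_bc Ω tE) hcT w : Ω ⊗[ℚ_[q]] VT q (JC Om l (D.μ i) (D.a i))) ∈ W
        rw [LFN_resE_apply, hTE _ w.2]
        exact W.smul_mem _ (hWτ _ hw)) (by
        intro w hw
        show (LFN_resE ζ s (LKI_bc Ω (gE φ hφ)) hcΦ w : Ω ⊗[ℚ_[q]] VT q (JC Om l (D.μ i) (D.a i))) ∈ W
        rw [LFN_resE_apply]
        exact hWφ _ hw)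
    rcases h1 with h1 | h1
    · left
      rw [Submodule.eq_bot_iff]
      intro x hx
      have h2 : (⟨x, hW hx⟩ : eg (LinearMap.baseChange Ω (BRF_Z D q i z)) ζ s) ∈
          W.comap (eg (LinearMap.baseChange Ω (BRF_Z D q i z)) ζ s).subtype := hx
      rw [h1] at h2
      exact congrArg Subtype.val ((Submodule.mem_bot Ω).1 h2)
    · right
      refine le_antisymm hW fun x hx => ?_
      have h2 : (⟨x, hx⟩ : eg (LinearMap.baseChange Ω (BRF_Z D q i z)) ζ s) ∈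
          W.comap (eg (LinearMap.baseChange Ω (BRF_Z D q i z)) ζ s).subtype := by
        rw [h1]
        exact Submodule.mem_top
      exact h2

end

end Pool.Agent.AQ
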