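import Pool.Agent.helper46.TD.All
import Pool.Agent.helper76.AQ.LRT
import Pool.Agent.helper31.AQ.LBK
import Pool.Agent.helper93.AQ.LMV
import Pool.Agent.helper93.AQ.LOP
import Pool.Agent.helper11.AQ.LMU
import Pool.Agent.helper27.AQ.LIB
import Pool.Agent.helper27.AQ.LIR
import Pool.Agent.helper93.AQ.LNM
import Pool.Agent.helper15.AQ.LWT
import Pool.Agent.helper90.AQ.LFE
import Pool.Agent.helper27.AQ.LBC
import Pool.Agent.helper27.AQ.LDE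
import Pool.Agent.helper15.AQ.LSK
import Pool.Agent.helper76.AQ.LTR
import Pool.Agent.helper24.AQ.LSC
import Pool.Agent.helper15.AQ.LWB
import Pool.Agent.helper88.AQ.LTH
import Pool.Agent.helper85.AQ.LFN
import Pool.Agent.helper11.AQ.LND
import Pool.Agent.helper24.AQ.LPB
import Pool.Agent.helper85.AQ.LKI
import Pool.Agent.helper85.AQ.BM1
import Pool.Agent.helper49.AQ.BM2
import Pool.Agent.helper24.AQ.BM6
import Pool.Agent.helper23.AQ.BD1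
import Pool.Agent.helper23.AQ.BD2
import Pool.Agent.helper45.AQ.BYP
import Pool.Agent.helper23.AQ.BE1
import Pool.Agent.helper23.AQ.BE2
import Pool.Agent.helper23.AQ.BCO
import Pool.Agent.helper45.AQ.BLI
import Pool.Agent.helper89.AQ.BIN
import Pool.Agent.helper11.AQ.BT1
import Pool.Agent.helper90.AQ.BT2
import Pool.Agent.helper11.AQ.BT3
import Pool.Agent.helper23.AQ.BGP
import Pool.Agent.helper76.AQ.BPA
import Pool.Agent.helper89.AQ.BSE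
import Pool.Agent.helper78.AQ.BRO
import Pool.Agent.helper78.AQ.BEI
import Pool.Agent.helper47.AQ.BIL
import Pool.Agent.helper50.AQ.BIF
import Pool.Agent.helper9.AQ.BFR
import Pool.Agent.helper76.AQ.BPR
import Pool.Agent.helper89.AQ.BEF
import Pool.Agent.helper20.AQ.BST
import Pool.Agent.helper6.AQ.BPL
import Pool.Agent.helper85.AQ.BRF

/-!
# Project AQ (problem MP_3703a7_ag, project A+), blocks BR and LA: the closed assembly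

Every statement of the specs `Pool/Agent/helper85/AQ/SpecL.lean` and `Pool/Agent/helper85/AQ/SpecB.lean`, proved without hypotheses.
-/

set_option autoImplicit false

namespace Pool.Agent.AQAll

theorem t_LRT : Pool.Agent.AQ.LRT_stmt := Pool.Agent.AQ.LRT
theorem t_LBK : Pool.Agent.AQ.LBK_stmt := Pool.Agent.AQ.LBK t_LRT
theorem t_LMV : Pool.Agent.AQ.LMV_stmt := Pool.Agent.AQ.LMV
theorem t_LOP : Pool.Agent.AQ.LOP_stmt := Pool.Agent.AQ.LOP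
theorem t_LMU : Pool.Agent.AQ.LMU_stmt := Pool.Agent.AQ.LMU
theorem t_LIB : Pool.Agent.AQ.LIB_stmt := Pool.Agent.AQ.LIB
theorem t_LIR : Pool.Agent.AQ.LIR_stmt := Pool.Agent.AQ.LIR t_LIB
theorem t_LNM : Pool.Agent.AQ.LNM_stmt := Pool.Agent.AQ.LNM t_LMV t_LOP
theorem t_LWT : Pool.Agent.AQ.LWT_stmt := Pool.Agent.AQ.LWT Pool.Agent.TKAll.t_L10
theorem t_LFE : Pool.Agent.AQ.LFE_stmt := Pool.Agent.AQ.LFE Pool.Agent.TKAll.t_L10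
theorem t_LBC : Pool.Agent.AQ.LBC_stmt := Pool.Agent.AQ.LBC
theorem t_LDE : Pool.Agent.AQ.LDE_stmt := Pool.Agent.AQ.LDE
theorem t_LSK : Pool.Agent.AQ.LSK_stmt := Pool.Agent.AQ.LSK
theorem t_LTR : Pool.Agent.AQ.LTR_stmt := Pool.Agent.AQ.LTR
theorem t_LSC : Pool.Agent.AQ.LSC_stmt := Pool.Agent.AQ.LSC Pool.Agent.TKAll.t_L10
theorem t_LWB : Pool.Agent.AQ.LWB_stmt := Pool.Agent.AQ.LWB t_LSK t_LWT
theorem t_LTH : Pool.Agent.AQ.LTH_stmt := Pool.Agent.AQ.LTH Pool.Agent.TKAll.t_L10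
theorem t_LFN : Pool.Agent.AQ.LFN_stmt := Pool.Agent.AQ.LFN Pool.Agent.TKAll.t_L10 t_LBK t_LSK t_LSC t_LWB
theorem t_LND : Pool.Agent.AQ.LND_stmt := Pool.Agent.AQ.LND
theorem t_LPB : Pool.Agent.AQ.LPB_stmt := Pool.Agent.AQ.LPB t_LBC Pool.Agent.TKAll.t_L10
theorem t_LKI : Pool.Agent.AQ.LKI_stmt := Pool.Agent.AQ.LKI t_LPB t_LFE t_LFN t_LBC t_LND t_LDE t_LTH t_LTR Pool.Agent.TKAll.t_L9 Pool.Agent.TKAll.t_L10
theorem t_BM1 : Pool.Agent.AQ.BM1_stmt := Pool.Agent.AQ.BM1 Pool.Agent.TDAll.t_MN Pool.Agent.TDAll.t_MK Pool.Agent.CMAll.t_YA4 Pool.Agent.TKAll.t_KA7 Pool.Agent.TKAll.t_KB1 Pool.Agent.FJ.B1 Pool.Agent.FJ.B3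
theorem t_BM2 : Pool.Agent.AQ.BM2_stmt := Pool.Agent.AQ.BM2 Pool.Agent.TDAll.t_MN Pool.Agent.TDAll.t_MK Pool.Agent.CMAll.t_YA4 Pool.Agent.TKAll.t_KA7 Pool.Agent.TKAll.t_KB1 Pool.Agent.FJ.B3
theorem t_BM6 : Pool.Agent.AQ.BM6_stmt := Pool.Agent.AQ.BM6 t_BM1 t_BM2 Pool.Agent.TKAll.t_KA7
theorem t_BD1 : Pool.Agent.AQ.BD1_stmt := Pool.Agent.AQ.BD1 Pool.Agent.TKAll.t_KB1 Pool.Agent.TKAll.t_KB3 Pool.Agent.TKAll.t_KB4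
theorem t_BD2 : Pool.Agent.AQ.BD2_stmt := Pool.Agent.AQ.BD2 Pool.Agent.CMAll.t_YA1 Pool.Agent.TKAll.t_KA5 Pool.Agent.FJ.B1
theorem t_BYP : Pool.Agent.AQ.BYP_stmt := Pool.Agent.AQ.BYP t_BM6 t_BD1 Pool.Agent.CMAll.t_YA4 Pool.Agent.CMAll.t_YA5 Pool.Agent.TKAll.t_KA7 Pool.Agent.TKAll.t_KB1 Pool.Agent.TKAll.t_KB5 Pool.Agent.FJ.B1
theorem t_BE1 : Pool.Agent.AQ.BE1_stmt := Pool.Agent.AQ.BE1 Pool.Agent.TKAll.t_R1 Pool.Agent.TKAll.t_R4 Pool.Agent.TKAll.t_R5 Pool.Agent.TKAll.t_R6 Pool.Agent.TD.MN_YD0 Pool.Agent.CMAll.t_YA4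
theorem t_BE2 : Pool.Agent.AQ.BE2_stmt := Pool.Agent.AQ.BE2 Pool.Agent.TKAll.t_R4 Pool.Agent.TKAll.t_R5 Pool.Agent.TKAll.t_R6 Pool.Agent.TD.MN_YD0
theorem t_BCO : Pool.Agent.AQ.BCO_stmt := Pool.Agent.AQ.BCO t_BE1 Pool.Agent.TKAll.t_KA5
theorem t_BLI : Pool.Agent.AQ.BLI_stmt := Pool.Agent.AQ.BLI t_BE1 t_BE2 Pool.Agent.TDAll.t_MK Pool.Agent.CMAll.t_YA4 Pool.Agent.TKAll.t_KA5 Pool.Agent.TKAll.t_KB1 Pool.Agent.TKAll.t_KB3 Pool.Agent.TKAll.t_KB4 Pool.Agent.FJ.B1 Pool.Agent.FJ.B3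
theorem t_BIN : Pool.Agent.AQ.BIN_stmt := Pool.Agent.AQ.BIN Pool.Agent.CMAll.t_H19 Pool.Agent.CMAll.t_YI0 Pool.Agent.TQAll.t_TOR Pool.Agent.TDAll.t_V3 Pool.Agent.TDAll.t_V5 Pool.Agent.TDAll.t_VK t_BYP t_BD2 t_BLI t_BCO Pool.Agent.TKAll.t_KA7 Pool.Agent.CMAll.t_YA5 Pool.Agent.FJ.B1
theorem t_BT1 : Pool.Agent.AQ.BT1_stmt := Pool.Agent.AQ.BT1 Pool.Agent.TKAll.t_KA1
theorem t_BT2 : Pool.Agent.AQ.BT2_stmt := Pool.Agent.AQ.BT2 t_BT1 Pool.Agent.TKAll.t_KA7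
theorem t_BT3 : Pool.Agent.AQ.BT3_stmt := Pool.Agent.AQ.BT3 Pool.Agent.TKAll.t_KA1 Pool.Agent.TKAll.t_KA7
theorem t_BGP : Pool.Agent.AQ.BGP_stmt := Pool.Agent.AQ.BGP t_BT1 t_BT2 t_BT3 Pool.Agent.TKAll.t_KA7 Pool.Agent.TKAll.t_KA4
theorem t_BPA : Pool.Agent.AQ.BPA_stmt := Pool.Agent.AQ.BPA
theorem t_BSE : Pool.Agent.AQ.BSE_stmt := Pool.Agent.AQ.BSE t_BT1 Pool.Agent.TKAll.t_KA7 Pool.Agent.TKAll.t_KB1
theorem t_BRO : Pool.Agent.AQ.BRO_stmt := Pool.Agent.AQ.BRO Pool.Agent.TDAll.t_MN Pool.Agent.TDAll.t_MK Pool.Agent.TKAll.t_KA5 Pool.Agent.TKAll.t_KA7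
theorem t_BEI : Pool.Agent.AQ.BEI_stmt := Pool.Agent.AQ.BEI
theorem t_BIL : Pool.Agent.AQ.BIL_stmt := Pool.Agent.AQ.BIL Pool.Agent.TDAll.t_CONJ
theorem t_BIF : Pool.Agent.AQ.BIF_stmt := Pool.Agent.AQ.BIF t_BEI t_BIL
theorem t_BFR : Pool.Agent.AQ.BFR_stmt := Pool.Agent.AQ.BFR Pool.Agent.FJ.E2
theorem t_BPR : Pool.Agent.AQ.BPR_stmt := Pool.Agent.AQ.BPR
theorem t_BEF : Pool.Agent.AQ.BEF_stmt := Pool.Agent.AQ.BEF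
theorem t_BST : Pool.Agent.AQ.BST_stmt := Pool.Agent.AQ.BST t_BEI t_BT1 t_BT2 t_BT3 t_BSE t_BIN Pool.Agent.TKAll.t_KA4 Pool.Agent.TKAll.t_KA7 Pool.Agent.TKAll.t_KB6 Pool.Agent.FJ.B1
theorem t_BPL : Pool.Agent.AQ.BPL_stmt := Pool.Agent.AQ.BPL t_BFR t_BIF t_BST t_BRO t_BT1 t_BT2 Pool.Agent.TKAll.t_KA4 Pool.Agent.TKAll.t_KA7 Pool.Agent.FJ.B1
theorem t_BRF : Pool.Agent.AQ.BRF_stmt := Pool.Agent.AQ.BRF t_BPL t_LIB t_LIR t_LDE t_BGP Pool.Agent.TDAll.t_VF Pool.Agent.TQ.t_NB1 Pool.Agent.TKAll.t_KA4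

end Pool.Agent.AQAll
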