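import Mathlib
import Pool.Agent.helper39.GJ.Defs

/-!
# Project aq (MP_3703a7_ag, all primes `q` at once): specification, part L: linear algebra

Rules: every `XX_stmt` is proved in `Pool/Agent/<seat>/AQ/XX.lean`: `import Pool.Agent.helper85.AQ.SpecL`, `set_option autoImplicit false`, `namespace Pool.Agent.AQ`, the open lines of this file, `noncomputable section`,
`theorem XX (h : YY_stmt) ... : XX_stmt`; hypotheses: other statements of the project (not circularly). Auxiliary lemmas are prefixed `XX_`. No sorry, no double quotes, no `congr!`, no `convert`.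

Everything in this file is elementary linear algebra over an abstract field `Ω`. The reader may think of `Ω` as an algebraic closure of `ℚ_q`; `V` is a `χ`-part of `Ω ⊗ V_q(J)`.
-/

set_option autoImplicit false

namespace Pool.Agent.AQ

open Pool.Agent.GJ
open scoped TensorProduct

noncomputable section

/-! ## Definitions -/

/-- the operator with the diagonal matrix `x` in the basis `v` -/
def dg {Ω W ι : Type} [Field Ω] [AddCommGroup W] [Module Ω W] (v : Module.Basis ι Ω W) (x : ι → Ω) : W →ₗ[Ω] W :=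
  v.constr Ω fun t => x t • v t

theorem dg_apply {Ω W ι : Type} [Field Ω] [AddCommGroup W] [Module Ω W] (v : Module.Basis ι Ω W) (x : ι → Ω) (t : ι) :
    dg v x (v t) = x t • v t := v.constr_basis Ω _ t

/-- `V_t ↦ v_s`, the other basis vectors to `0` -/
def el {Ω W ι : Type} [Field Ω] [DecidableEq ι] [AddCommGroup W] [Module Ω W] (v : Module.Basis ι Ω W) (s t : ι) : W →ₗ[Ω] W :=
  v.constr Ω fun i => if i = t then v s else 0

/-- a finite set of nonzero subspaces, two different ones meet only in `0` -/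
structure Blk {Ω V : Type} [Field Ω] [AddCommGroup V] [Module Ω V] (S : Finset (Submodule Ω V)) : Prop where
  ne : ∀ W ∈ S, W ≠ ⊥
  dis : ∀ W ∈ S, ∀ W' ∈ S, W ≠ W' → Disjoint W W'

/-- the image of a subspace under an automorphism -/
def im {Ω V : Type} [Field Ω] [AddCommGroup V] [Module Ω V] (g : V ≃ₗ[Ω] V) (W : Submodule Ω V) : Submodule Ω V :=
  W.map (g : V →ₗ[Ω] V)

/-- conjugation -/
def cj {Ω V : Type} [Field Ω] [AddCommGroup V] [Module Ω V] (g : V ≃ₗ[Ω] V) (M : V →ₗ[Ω] V) : V →ₗ[Ω] V :=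
  (g : V →ₗ[Ω] V) ∘ₗ M ∘ₗ (g.symm : V →ₗ[Ω] V)

/-! ## Blocks -/

/-- LRT (short-medium). ROOT VECTORS. A subspace `b` of `End V` closed under the bracket which contains the diagonal operators of trace zero contains `E_(s,t)`, `s ≠ t`, as soon as it contains an operator `M` whose entry `M_(s,t) = v.repr (M (v t)) s` is not zero.
PROOF. `n ≥ 2`. Choose `x : Fin n → Ω` with `∑ x = 0` and `x_i - x_j`, `i ≠ j`, pairwise different for different pairs `(i, j)` and different from `0` (characteristic zero: for instance `x_i = 3^i - (∑ 3^j) / n`: `3^i + 3^j' = 3^i' + 3^j`, `i ≠ j`, `i' ≠ j'`, implies `(i, j) = (i', j')` (for `i = j'` and `i' = j`: `2 * 3^i = 2 * 3^j`);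
or: finitely many hyperplanes do not cover a vector space over an infinite field). `ad = [dg v x, .]` maps `b` to `b` and multiplies the entry `(i, j)` by `x_i - x_j`. The polynomial `P(Y) = Y * ∏_((i, j) ≠ (s, t), i ≠ j) (Y - (x_i - x_j))` has `P(ad) M ∈ b` (no constant term is needed: `b` is a subspace stable under `ad`),
and `P(ad) M` has the entries `P(x_i - x_j) M_(i,j)`: `0` on the diagonal (`P(0) = 0`) and for `(i, j) ≠ (s, t)`, and `P(x_s - x_t) M_(s,t) ≠ 0` at `(s, t)`. -/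
def LRT_stmt : Prop := ∀ (Ω V : Type) [Field Ω] [CharZero Ω] [AddCommGroup V] [Module Ω V] (n : ℕ)
  (v : Module.Basis (Fin n) Ω V) (b : Submodule Ω (V →ₗ[Ω] V)),
  (∀ M ∈ b, ∀ N ∈ b, M ∘ₗ N - N ∘ₗ M ∈ b) → (∀ x : Fin n → Ω, ∑ t, x t = 0 → dg v x ∈ b) →
  ∀ M ∈ b, ∀ s t : Fin n, s ≠ t → v.repr (M (v t)) s ≠ 0 → el v s t ∈ b

/-- LBK (medium). BLOCKS. `b` as in LRT, normalised by the group `G`, and `V` is irreducible under `G`. Then `b` contains all operators of trace zero, or there is a set of at least two blocks (irreducible `b`-submodules), permuted by `G`, and some `g ∈ G` moves a block.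
PROOF. `n = 0`: every operator is `0`, `b` contains `0`. `n = 1`: trace zero means `M = 0`. Let `n ≥ 2`. (1) A subspace `W` stable under `b` is spanned by the `v_t` it contains: the operators `dg v x`, `∑ x = 0`, have different weights on the `v_t` (choose `x` with `x_t` pairwise different, `∑ x = 0`), so `W` is the sum of its intersections with
the eigenspaces `Ω v_t` (Lagrange interpolation, or `Submodule`-lemmas for eigenspaces: `Module.End.iSup_iInf..`; directly: `w = ∑ c_t v_t ∈ W`, `∏_(t ≠ s) (D - x_t) w = c_s ∏ (x_s - x_t) v_s ∈ W`). So there are finitely many `b`-stable subspaces: `W ↦ {t | v_t ∈ W}` is injective. (2) `S` = the set of the minimal nonzero `b`-stable subspaces; it is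
not empty (`V ≠ 0`, finite), two different ones meet in `0` (the intersection is `b`-stable); so the sets `{t | v_t ∈ W}`, `W ∈ S`, are not empty and disjoint: `card S ≤ n`. For `g ∈ G`, `W ∈ S`: `gW` is `b`-stable (`M g w = g (g⁻¹ M g) w`, `g⁻¹ ∈ G`) and minimal. The sum of all `W ∈ S` is stable under `G` and not `0`, so it is `V`. (3) If `S` has one element then it is `V`: `V` is an irreducible `b`-module. For `s ≠ t`: `E_(s,t) ∈ b`:
the set `R` of the `s` with `s = t` or `E_(s,t) ∈ b`: the span of the `v_s`, `s ∈ R`, is stable under `b`: let `s ∈ R`, `M ∈ b`, `v.repr (M v_s) r ≠ 0`, `r ≠ s`, `r ≠ t`: `E_(r,s) ∈ b` (LRT), `[E_(r,s), E_(s,t)] = E_(r,t)` if `s ≠ t` (as `r ≠ t`), so `r ∈ R`. So the span is `V`, `R` is everything. An operator of trace zero is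
the sum of its diagonal part, which has trace zero, and of multiples of the `E_(s,t)`. (4) If `S` has at least two elements: if all `g` fix all `W ∈ S`, then a `W ∈ S` is stable under `G`, not `0`, so it is `V`, and does not meet another element of `S` in `0`: a contradiction. -/
def LBK_stmt : Prop := ∀ (Ω V : Type) [Field Ω] [CharZero Ω] [AddCommGroup V] [Module Ω V] (n : ℕ)
  (v : Module.Basis (Fin n) Ω V) (b : Submodule Ω (V →ₗ[Ω] V)),
  (∀ M ∈ b, ∀ N ∈ b, M ∘ₗ N - N ∘ₗ M ∈ b) → (∀ x : Fin n → Ω, ∑ t, x t = 0 → dg v x ∈ b) →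
  ∀ G : Subgroup (V ≃ₗ[Ω] V), (∀ g ∈ G, ∀ M ∈ b, cj g M ∈ b) →
  (∀ W : Submodule Ω V, (∀ g ∈ G, ∀ w ∈ W, g w ∈ W) → W = ⊥ ∨ W = ⊤) →
  (∀ M : V →ₗ[Ω] V, LinearMap.trace Ω V M = 0 → M ∈ b) ∨
    ∃ S : Finset (Submodule Ω V), Blk S ∧ S.card ≤ n ∧ (∀ g ∈ G, ∀ W ∈ S, im g W ∈ S) ∧ ∃ g ∈ G, ∃ W ∈ S, im g W ≠ W

/-- LMV (short). A MOVED BLOCK GIVES A REPEATED EIGENVALUE. `W ↦ im g W` is an injective map of the finite set `S` to itself, a permutation; its `M`-th power is the identity if `(card S)!` divides `M`. So `g^M W0 = W0`; `g^M` has an eigenvector `u ≠ 0` in `W0` (`Ω` is algebraically closed, `W0` is finite dimensional and not `0`);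
`w = g u ∈ im g W0` is an eigenvector for the same eigenvalue, and `u, w` are linearly independent as `W0` and `im g W0` are disjoint (`Blk.dis`). -/
def LMV_stmt : Prop := ∀ (Ω V : Type) [Field Ω] [IsAlgClosed Ω] [AddCommGroup V] [Module Ω V] [FiniteDimensional Ω V]
  (S : Finset (Submodule Ω V)), Blk S → ∀ g : V ≃ₗ[Ω] V, (∀ W ∈ S, im g W ∈ S) → ∀ W0 ∈ S, im g W0 ≠ W0 →
  ∀ M : ℕ, (S.card).factorial ∣ M → ∃ (c : Ω) (u w : V), u ∈ W0 ∧ w ∈ im g W0 ∧ LinearIndependent Ω ![u, w] ∧ (g ^ M) u = c • u ∧ (g ^ M) w = c • w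

/-- LOP (short). OPENNESS. For `W ≠ W'` in `S` choose `u ∈ W`, `u ≠ 0`; `u ∉ W'`, so there is a linear form `f` with `f u = 1`, `f = 0` on `W'` (`Submodule.exists_le_ker_of_notMem` or similar). If `im g W = W'` then `f (g u) = 0`, but `|f (g u - u)| < 1` if the entries of `g - 1` are small: `g u - u = ∑ c_j (g v_j - v_j)`, `|f(..)| ≤ C ε`.
Take the minimum of finitely many `ε`. (Only the triangle inequality is used.) -/
def LOP_stmt : Prop := ∀ (Ω V : Type) [NormedField Ω] [AddCommGroup V] [Module Ω V] (n : ℕ) (v : Module.Basis (Fin n) Ω V)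
  (S : Finset (Submodule Ω V)), Blk S → ∃ ε : ℝ, 0 < ε ∧ ∀ g : V ≃ₗ[Ω] V, (∀ W ∈ S, im g W ∈ S) →
  (∀ i j, ‖v.repr (g (v j) - v j) i‖ ≤ ε) → ∀ W ∈ S, im g W = W

/-! ## Eigenvalues -/

/-- LMU (short-medium). MULTIPLICITIES FROM THE DETERMINANT. `∏ (g - α_t) = 0` with different `α_t`: `V` is the direct sum of the eigenspaces `ker (g - α_t)` (`Module.End`: the minimal polynomial divides a separable split polynomial; or the primary decomposition); `m_t` = the dimension of `ker (g - α_t)`: `∑ m_t = n`, `det g = ∏ α_t^(m_t)`;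
so `∏ α_t^(w m_t) = ∏ α_t^w`, and the hypothesis gives `m_t = 1`: choose a nonzero vector in every eigenspace. -/
def LMU_stmt : Prop := ∀ (Ω V : Type) [Field Ω] [AddCommGroup V] [Module Ω V] [FiniteDimensional Ω V] (n w : ℕ),
  Module.finrank Ω V = n → ∀ (α : Fin n → Ω), Function.Injective α → ∀ g : V →ₗ[Ω] V,
  ((List.finRange n).map fun t => g - α t • LinearMap.id).prod = (0 : Module.End Ω V) → LinearMap.det g ^ w = (∏ t, α t) ^ w →
  (∀ m : Fin n → ℕ, ∑ t, m t = n → ∏ t, α t ^ (w * m t) = (∏ t, α t) ^ w → ∀ t, m t = 1) →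
  ∃ v : Module.Basis (Fin n) Ω V, g = dg v α

/-- LIB (medium). THE LOCAL STRUCTURE. `m` a prime number, `dim V = m - 1`, `1 + T + .. + T^(m-1) = 0`, `Φ T = T^p Φ`, `p` a primitive root modulo `m`. PROOF. `ω ∈ Ω` a primitive `m`-th root of unity. `T^m = 1`, `V` is the direct sum of the `V_i = ker (T - ω^i)`, `0 < i < m` (`V_0 = 0`: on it `m = 0`; the polynomial
`1 + X + .. + X^(m-1) = ∏ (X - ω^i)` is separable). If `T v = ω^i v` then `T^p (Φ v) = Φ (T v) = ω^i Φ v`; with `p i' = i` modulo `m` and `p p' = 1`: `T (Φ v) = (T^p)^(p') Φ v = ω^(i p') Φ v = ω^(i') Φ v`. So `Φ V_i ⊂ V_(i')`, `Φ` injective: `dim V_i ≤ dim V_(i')`; by `hp` all `i, j ≠ 0` are connected (`p'` is also a primitive root), so all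
dimensions are equal, `(m - 1) d = m - 1`, `d = 1`: `v_j` = a basis of `V_(j+1)`. -/
def LIB_stmt : Prop := ∀ (Ω V : Type) [Field Ω] [IsAlgClosed Ω] [CharZero Ω] [AddCommGroup V] [Module Ω V] [FiniteDimensional Ω V]
  (m p : ℕ), m.Prime → Module.finrank Ω V = m - 1 → (∀ i j : ZMod m, i ≠ 0 → j ≠ 0 → ∃ k : ℕ, j = (p : ZMod m) ^ k * i) →
  ∀ (T Φ : V ≃ₗ[Ω] V), (∑ i ∈ Finset.range m, ((T : V →ₗ[Ω] V) : Module.End Ω V) ^ i) = 0 →
  (∀ v, Φ (T v) = (T ^ p) (Φ v)) → ∃ (ω : Ω) (v : Module.Basis (Fin (m - 1)) Ω V), IsPrimitiveRoot ω m ∧ (∀ j, T (v j) = ω ^ ((j : ℕ) + 1) • v j) ∧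
    ∀ j j' : Fin (m - 1), ((((j' : ℕ) + 1) * p : ℕ) : ZMod m) = (((j : ℕ) + 1 : ℕ) : ZMod m) → ∃ d : Ω, d ≠ 0 ∧ Φ (v j) = d • v j'

/-- LIR (short-medium). THE LOCAL IRREDUCIBILITY. LIB: a subspace `W` stable under `T` is spanned by the `v_j` it contains (the eigenvalues `ω^(j+1)` are different; as in LBK (1)), and if it is stable under `Φ` and contains one `v_j`, it contains all (`hp`: `p` generates the group of units, so do the powers of its inverse). -/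
def LIR_stmt : Prop := ∀ (Ω V : Type) [Field Ω] [IsAlgClosed Ω] [CharZero Ω] [AddCommGroup V] [Module Ω V] [FiniteDimensional Ω V]
  (m p : ℕ), m.Prime → Module.finrank Ω V = m - 1 → (∀ i j : ZMod m, i ≠ 0 → j ≠ 0 → ∃ k : ℕ, j = (p : ZMod m) ^ k * i) →
  ∀ (T Φ : V ≃ₗ[Ω] V), (∑ i ∈ Finset.range m, ((T : V →ₗ[Ω] V) : Module.End Ω V) ^ i) = 0 →
  (∀ v, Φ (T v) = (T ^ p) (Φ v)) → ∀ W : Submodule Ω V, (∀ w ∈ W, T w ∈ W) → (∀ w ∈ W, Φ w ∈ W) → W = ⊥ ∨ W = ⊤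

/-- LNM (medium). NO BLOCK IS MOVED. `U` a subspace of `V` of dimension `< m`, `m` a prime number, irreducible under `T`, `Φ ∈ G`, `T^m` a scalar on `U`; `S` a set of blocks in `U`, permuted by `G`, at most `dim U` of them. For every `ε` and `s0` there is `F ∈ G` such that some power `F^r` is `Φ u` with `u ∈ G` close to `1` and some `F^s`, `s0 ∣ s`, has no
repeated eigenvalue on `U`. Then no `g ∈ G` moves a block. PROOF. `W ↦ im T W` is a permutation of `S` whose `m`-th power is the identity (`T^m` is a scalar on `U`), its orbits have `1` or `m > card S` elements: `T` fixes all blocks. If `Φ` fixes all blocks then every `W ∈ S` is stable under `T` and `Φ`: `W = U`; so `S ⊂ {U}` and nothing is moved. Let `im Φ W0 ≠ W0`.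
LOP: `ε`. `F` for `ε` and `s0 = (card S)!`: `im (F^r) W0 = im Φ (im u W0) = im Φ W0 ≠ W0`, so `F` moves some block `W1`. LMV for `g = F`, `M = s`: a repeated eigenvalue of `F^s` on `U`: a contradiction. -/
def LNM_stmt : Prop := ∀ (Ω V : Type) [NormedField Ω] [IsAlgClosed Ω] [AddCommGroup V] [Module Ω V] [FiniteDimensional Ω V] (N m : ℕ) (e : Module.Basis (Fin N) Ω V)
  (U : Submodule Ω V), m.Prime → Module.finrank Ω U < m → ∀ (G : Subgroup (V ≃ₗ[Ω] V)) (T Φ : V ≃ₗ[Ω] V), T ∈ G → Φ ∈ G →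
  (∀ W ≤ U, (∀ w ∈ W, T w ∈ W) → (∀ w ∈ W, Φ w ∈ W) → W = ⊥ ∨ W = U) → (∃ c : Ω, ∀ x ∈ U, (T ^ m) x = c • x) →
  (∀ (ε : ℝ) (s0 : ℕ), 0 < ε → 0 < s0 → ∃ F ∈ G, ∃ u ∈ G, ∃ r s : ℕ, 0 < s ∧ s0 ∣ s ∧ F ^ r = Φ * u ∧ (∀ i j, ‖e.repr (u (e j) - e j) i‖ ≤ ε) ∧
    ∀ (c : Ω) (x y : V), x ∈ U → y ∈ U → (F ^ s) x = c • x → (F ^ s) y = c • y → ¬ LinearIndependent Ω ![x, y]) →
  ∀ S : Finset (Submodule Ω V), Blk S → S.card ≤ Module.finrank Ω U → (∀ W ∈ S, W ≤ U) → (∀ g ∈ G, ∀ W ∈ S, im g W ∈ S) → ∀ g ∈ G, ∀ W ∈ S, im g W = W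

/-! ## Exterior algebras -/

/-- LWT (medium). WEIGHTS. `W` has the basis `v`, indexed by the finite set `ι`. The products `v_I = v_(i_1) .. v_(i_d)`, `I = {i_1 < .. < i_d}` (any order), are a basis of `Λ^d W`; `map (dg v α) v_I = (∏_I α) v_I`, `dX (dg v x) v_I = (∑_I x) v_I`. `Y = ∑ y_I v_I` with `map (dg v α) Y = κ Y`: `y_I ≠ 0` implies `∏_I α = κ`;
the sums `∑_I x` over these `I` are equal by hypothesis: call them `c` (`c = 0` if there is no such `I`). (The linear independence of the `v_I` is needed: Mathlib has bases of exterior powers, or see the rows of project gj: `GJ.L10_stmt` and the files `Pool/Agent/*/GJ/L*.lean`.) -/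
def LWT_stmt : Prop := ∀ (Ω W ι : Type) [Field Ω] [AddCommGroup W] [Module Ω W] [Fintype ι] (v : Module.Basis ι Ω W)
  (α x : ι → Ω) (d : ℕ), (∀ I I' : Finset ι, I.card = d → I'.card = d → ∏ t ∈ I, α t = ∏ t ∈ I', α t →
    ∑ t ∈ I, x t = ∑ t ∈ I', x t) → ∀ κ : Ω, ∃ c : Ω, ∀ Y ∈ (⋀[Ω]^d W : Submodule Ω (ExteriorAlgebra Ω W)),
    ExteriorAlgebra.map (dg v α) Y = κ • Y → dX (dg v x) Y = c • Y

/-- LFE (medium). EIGENVECTORS ON THE SECOND FACTOR. `W2` has a basis `f` of common eigenvectors of the group `H` (characters `ψ_j`). If `dX A` kills all `H`-eigenvectors of `Λ^e W1`, `e ≤ d`, then `dX (A × 0)` kills all `H`-eigenvectors of `Λ^d (W1 × W2)`.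
PROOF. `Λ^d (W1 × W2) = ⊕_I Λ^(d - |I|) W1 * f_I`, `f_I` the products of the `f_j`, `j ∈ I` (ordered): every `X` is uniquely `∑_I X_I f_I` with `X_I` in the image of `Λ^(d - |I|) W1` (`ExteriorAlgebra.map (inl)`, injective). `h X = ∑_I (h X_I) ψ_I(h) f_I`, `ψ_I = ∏_I ψ_j`; so `h X_I = κ(h) ψ_I(h)⁻¹ X_I` (`ψ_j(h) ≠ 0` as `ρ2 h` is invertible; `ρ2` is a
homomorphism from a group). `dX (A × 0) (X_I f_I) = (dX A X_I) f_I` (`dX` is a derivation, `GJ.L10_stmt`, and kills the `f_j`). -/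
def LFE_stmt : Prop := ∀ (Ω W1 W2 ι H : Type) [Field Ω] [AddCommGroup W1] [Module Ω W1] [FiniteDimensional Ω W1] [AddCommGroup W2] [Module Ω W2] [Fintype ι] [Group H]
  (f : Module.Basis ι Ω W2) (ρ1 : H →* (W1 ≃ₗ[Ω] W1)) (ρ2 : H →* (W2 ≃ₗ[Ω] W2)) (ψ : ι → H → Ω),
  (∀ h j, ρ2 h (f j) = ψ j h • f j) → ∀ (A : W1 →ₗ[Ω] W1) (d : ℕ),
  (∀ e ≤ d, ∀ Y ∈ (⋀[Ω]^e W1 : Submodule Ω (ExteriorAlgebra Ω W1)), ∀ κ : H → Ω,
    (∀ h, ExteriorAlgebra.map (ρ1 h : W1 →ₗ[Ω] W1) Y = κ h • Y) → dX A Y = 0) →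
  ∀ X ∈ (⋀[Ω]^d (W1 × W2) : Submodule Ω (ExteriorAlgebra Ω (W1 × W2))), ∀ κ : H → Ω,
    (∀ h, ExteriorAlgebra.map (LinearMap.prodMap (ρ1 h : W1 →ₗ[Ω] W1) (ρ2 h : W2 →ₗ[Ω] W2)) X = κ h • X) →
    dX (LinearMap.prodMap A (0 : W2 →ₗ[Ω] W2)) X = 0

/-- LBC (medium). BASE CHANGE of the exterior algebra. `b` = `ExteriorAlgebra.lift` of `v ↦ ι (1 ⊗ v)`, an algebra homomorphism over `k`. `b (map A X) = map (1 ⊗ A) (b X)` and `b (dX A X) = dX (1 ⊗ A) (b X)`: both sides agree on the generators (derivations over `b`). Injective: bases (`v_I ↦ (1 ⊗ v)_I`). -/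
def LBC_stmt : Prop := ∀ (k Ω V : Type) [Field k] [Field Ω] [Algebra k Ω] [AddCommGroup V] [Module k V] [FiniteDimensional k V],
  ∃ b : ExteriorAlgebra k V →ₗ[k] ExteriorAlgebra Ω (Ω ⊗[k] V), Function.Injective b ∧
    b 1 = 1 ∧ (∀ v, b (ExteriorAlgebra.ι k v) = ExteriorAlgebra.ι Ω ((1 : Ω) ⊗ₜ[k] v)) ∧ (∀ X Y, b (X * Y) = b X * b Y) ∧
    (∀ d, ∀ X ∈ (⋀[k]^d V : Submodule k (ExteriorAlgebra k V)), b X ∈ (⋀[Ω]^d (Ω ⊗[k] V) : Submodule Ω (ExteriorAlgebra Ω (Ω ⊗[k] V)))) ∧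
    ∀ (A : V →ₗ[k] V) (X : ExteriorAlgebra k V), b (ExteriorAlgebra.map A X) = ExteriorAlgebra.map (A.baseChange Ω) (b X) ∧
      b (dX A X) = dX (A.baseChange Ω) (b X)

/-! ## The decomposition of `Ω ⊗ V_q` under `ζ` -/

/-- the eigenspace of `Z` for `ζ^s` -/
def eg {Ω V : Type} [Field Ω] [AddCommGroup V] [Module Ω V] (Z : V →ₗ[Ω] V) (ζ : Ω) (s : ℕ) : Submodule Ω V :=
  LinearMap.ker (Z - ζ ^ s • LinearMap.id)

/-- `V` is the direct sum of the eigenspaces of `Z` for `ζ^s`, `0 < s < l` -/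
def Dec {Ω V : Type} [Field Ω] [AddCommGroup V] [Module Ω V] (l : ℕ) (Z : V →ₗ[Ω] V) (ζ : Ω) : Prop :=
  ∀ w : V, ∃! u : Fin (l - 1) → V, (∀ s : Fin (l - 1), u s ∈ eg Z ζ ((s : ℕ) + 1)) ∧ w = ∑ s, u s

/-- LDE (medium). THE EIGENSPACES OF `Z`. `V` (over `k`) has the basis `Z^j v_k`, `k < n`, `j < l - 1`, and `1 + Z + .. + Z^(l-1) = 0`. Over `Ω` with a primitive `l`-th root of unity `ζ`: for `0 < s < l` the eigenspace of `1 ⊗ Z` for `ζ^s` has dimension `n`, and `Ω ⊗ V` is their direct sum. PROOF. `Z^l = 1`; `Ω ⊗ V` is the direct sum of the eigenspaces for the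
roots `ζ^s`, `0 < s < l`, of `1 + X + .. + X^(l-1)` (separable as `l ≠ 0`). `e_(k,s) = ∏_(0 < r < l, r ≠ s) (Z - ζ^r) v_k = ∑_j c_j Z^j v_k` with `c_(l-2) = 1`, so `e_(k,s)`, `k < n`, are `n` linearly independent vectors in the eigenspace for `ζ^s`: dimension `≥ n`; the sum of the `l - 1` dimensions is `n (l - 1)`. -/
def LDE_stmt : Prop := ∀ (k Ω V : Type) [Field k] [Field Ω] [Algebra k Ω] [CharZero Ω] [AddCommGroup V] [Module k V] (l n : ℕ), l.Prime →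
  ∀ (Z : Module.End k V) (v : Fin n → V) (b : Module.Basis (Fin n × Fin (l - 1)) k V), (∀ i j, b (i, j) = (Z ^ (j : ℕ)) (v i)) →
  ∑ i ∈ Finset.range l, Z ^ i = 0 → ∀ ζ : Ω, IsPrimitiveRoot ζ l →
  (∀ s : ℕ, 0 < s → s < l → Module.finrank Ω (eg (LinearMap.baseChange Ω Z) ζ s) = n) ∧
  Dec l (LinearMap.baseChange Ω Z) ζ

/-- the operator `A` commutes with `Z` and is skew for the form `E` -/
def CS {Ω V : Type} [Field Ω] [AddCommGroup V] [Module Ω V] (Z : V →ₗ[Ω] V) (E : V →ₗ[Ω] V →ₗ[Ω] Ω) (A : V →ₗ[Ω] V) : Prop :=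
  A ∘ₗ Z = Z ∘ₗ A ∧ ∀ x y, E (A x) y = - E x (A y)

/-- `A` vanishes on the eigenspaces of `Z` for `ζ^r`, `0 < r < l`, `r ≠ s`, `r ≠ l - s` -/
def Only {Ω V : Type} [Field Ω] [AddCommGroup V] [Module Ω V] (l : ℕ) (Z : V →ₗ[Ω] V) (ζ : Ω) (s : ℕ) (A : V →ₗ[Ω] V) : Prop :=
  ∀ r, 0 < r → r < l → r ≠ s → r ≠ l - s → ∀ x ∈ eg Z ζ r, A x = 0

/-- LSK (medium). SKEW OPERATORS. `V` over `Ω` is the direct sum of the eigenspaces `E_s`, `0 < s < l`, of `Z`; `E` is a nondegenerate form, alternating, with `E(Z x, Z y) = E(x, y)`. So `E` pairs `E_s` and `E_r` to zero unless `r + s = l`, and `E_s` and `E_(l-s)` are dual. (1) Let `0 < s < l` (`l` odd), `N ∈ End(E_s)`: there is exactly one `A` which commutes with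
`Z`, is skew, is `N` on `E_s` and vanishes on the `E_r`, `r ≠ s, l - s` (on `E_(l-s)` it is minus the transpose of `N`). (2) Every `A` which commutes with `Z` and is skew is the sum over `s = 1, .., (l-1)/2` of its parts `A_s` (equal to `A` on `E_s` and `E_(l-s)`, zero on the others), which commute with `Z` and are skew. (3) For a basis `v` of `E_s` there is a basis `v'` of
`E_(l-s)` with `E(v_i, v'_j) = δ_ij`; if `g` preserves `E` up to the factor `c ≠ 0`, commutes with `Z` and `g v_i = α_i v_i`, `α_i ≠ 0`, then `g v'_i = (c / α_i) v'_i`; and if `A` commutes with `Z`, is skew and `A v_i = x_i v_i` then `A v'_i = - x_i v'_i`. -/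
def LSK_stmt : Prop := ∀ (Ω V : Type) [Field Ω] [CharZero Ω] [AddCommGroup V] [Module Ω V] [FiniteDimensional Ω V] (l n : ℕ), l.Prime → l ≠ 2 →
  ∀ (Z : V →ₗ[Ω] V) (ζ : Ω), IsPrimitiveRoot ζ l →
  Dec l Z ζ →
  ∀ E : V →ₗ[Ω] V →ₗ[Ω] Ω, (∀ x, (∀ y, E x y = 0) → x = 0) → (∀ x y, E x y = - E y x) → (∀ x y, E (Z x) (Z y) = E x y) →
  (∀ s, 0 < s → s < l → ∀ N : eg Z ζ s →ₗ[Ω] eg Z ζ s, ∃! A : V →ₗ[Ω] V, CS Z E A ∧ (∀ x : eg Z ζ s, A x = N x) ∧ Only l Z ζ s A) ∧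
  (∀ A, CS Z E A → ∃ B : Fin ((l - 1) / 2) → (V →ₗ[Ω] V), A = ∑ s, B s ∧
    ∀ s, CS Z E (B s) ∧ Only l Z ζ (s + 1) (B s) ∧ ∀ x ∈ eg Z ζ (s + 1), B s x = A x) ∧
  ∀ s, 0 < s → s < l → ∀ v : Module.Basis (Fin n) Ω (eg Z ζ s), ∃ v' : Module.Basis (Fin n) Ω (eg Z ζ (l - s)),
    (∀ i j, E (v i) (v' j) = if i = j then 1 else 0) ∧
    (∀ (g : V →ₗ[Ω] V) (c : Ω) (α : Fin n → Ω), g ∘ₗ Z = Z ∘ₗ g → (∀ x y, E (g x) (g y) = c * E x y) → (∀ i, α i ≠ 0) →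
      (∀ i, g (v i) = α i • (v i : V)) → ∀ i, g (v' i) = (c / α i) • (v' i : V)) ∧
    ∀ (A : V →ₗ[Ω] V) (x : Fin n → Ω), CS Z E A → (∀ i, A (v i) = x i • (v i : V)) → ∀ i, A (v' i) = - x i • (v' i : V)

/-- LTR (short-medium). TRACES. `A` commutes with `Z` and `tr(Z^j A) = 0` for all `j`: then the trace of `A` on every eigenspace `E_s` is `0`: `tr(Z^j A) = ∑_s ζ^(s j) tr(A | E_s)`, and the Vandermonde matrix is invertible (or multiply by `ζ^(-r j)` and sum over `j < l`). -/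
def LTR_stmt : Prop := ∀ (Ω V : Type) [Field Ω] [CharZero Ω] [AddCommGroup V] [Module Ω V] [FiniteDimensional Ω V] (l : ℕ), l.Prime →
  ∀ (Z : V →ₗ[Ω] V) (ζ : Ω), IsPrimitiveRoot ζ l →
  Dec l Z ζ →
  ∀ A : V →ₗ[Ω] V, A ∘ₗ Z = Z ∘ₗ A → (∀ j : ℕ, LinearMap.trace Ω V ((Z ^ j : Module.End Ω V) ∘ₗ A) = 0) →
  ∀ s, 0 < s → s < l → ∀ N : eg Z ζ s →ₗ[Ω] eg Z ζ s, (∀ x : eg Z ζ s, A x = N x) → LinearMap.trace Ω _ N = 0

/-! ## The assembly of the linear algebra -/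

/-- operators on the factors `V_i` give an operator on `∏ V_i^(e_i)` -/
def dia {Ω : Type} [Field Ω] {k : ℕ} {V : Fin k → Type} [∀ i, AddCommGroup (V i)] [∀ i, Module Ω (V i)] (e : Fin k → ℕ)
    (A : ∀ i, V i →ₗ[Ω] V i) : (∀ i, Fin (e i) → V i) →ₗ[Ω] (∀ i, Fin (e i) → V i) :=
  LinearMap.pi fun i => LinearMap.pi fun c => A i ∘ₗ LinearMap.proj c ∘ₗ LinearMap.proj i

/-- `A_i` on the factors `V_i`, zero on the others -/
def sgl {Ω : Type} [Field Ω] {k : ℕ} {V : Fin k → Type} [∀ i, AddCommGroup (V i)] [∀ i, Module Ω (V i)] (i : Fin k)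
    (A : V i →ₗ[Ω] V i) : ∀ j, V j →ₗ[Ω] V j := Function.update (fun _ => 0) i A

/-- `A` acts by scalars on all eigenspaces of the group `H` (acting on `V_i` by `ρ i`) in `Λ^d ∏ V_i^(e_i)`, `d ≤ d0` -/
def Sc {Ω H : Type} [Field Ω] {k : ℕ} {V : Fin k → Type} [∀ i, AddCommGroup (V i)] [∀ i, Module Ω (V i)] (e : Fin k → ℕ) (d0 : ℕ)
    (ρ : H → ∀ i, V i →ₗ[Ω] V i) (A : ∀ i, V i →ₗ[Ω] V i) : Prop :=
  ∀ d ≤ d0, ∀ κ : H → Ω, ∃ c : Ω, ∀ Y ∈ (⋀[Ω]^d (∀ i, Fin (e i) → V i) : Submodule Ω (ExteriorAlgebra Ω (∀ i, Fin (e i) → V i))),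
    (∀ h, ExteriorAlgebra.map (dia e (ρ h)) Y = κ h • Y) → dX (dia e A) Y = c • Y

/-- LSC (medium). (1) The `A` with `Sc` are a vector space, closed under the bracket (`dX [A, B] = [dX A, dX B]`: both are derivations which agree on the generators; scalars commute; `dia` is linear and multiplicative). (2) They are normalised by every `g` (a family of automorphisms `g_i`) which normalises `H`: for every `h` there is `h'` with `ρ h ∘ g = g ∘ ρ h'`, and `h ↦ h'` onto: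
if `Y` is an eigenvector with `κ` then `g⁻¹ Y` is an eigenvector for `κ'(h') = κ(h)`.. (take `H` a group, `g` with a permutation `π` of `H`: `ρ h ∘ g = g ∘ ρ (π h)`): `dX (g A g⁻¹) Y = g dX A g⁻¹ Y = c Y`, where `ρ(π h) g⁻¹ Y = g⁻¹ ρ(h) Y = κ(h) g⁻¹ Y`, so `g⁻¹ Y` has the character `κ ∘ π⁻¹`. (3) If all brackets `[A, B]` of a set of `A`s satisfying `Sc` .. : `[A, B]` kills the eigenvectors. -/
def LSC_stmt : Prop := ∀ (Ω H : Type) [Field Ω] (k : ℕ) (V : Fin k → Type) [∀ i, AddCommGroup (V i)] [∀ i, Module Ω (V i)]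
  [∀ i, FiniteDimensional Ω (V i)] (e : Fin k → ℕ) (d0 : ℕ) (ρ : H → ∀ i, V i →ₗ[Ω] V i),
  (∀ (A B : ∀ i, V i →ₗ[Ω] V i) (c : Ω), Sc e d0 ρ A → Sc e d0 ρ B → Sc e d0 ρ (fun i => A i + B i) ∧ Sc e d0 ρ (fun i => c • A i) ∧
    Sc e d0 ρ (fun i => A i ∘ₗ B i - B i ∘ₗ A i) ∧
    ∀ d ≤ d0, ∀ κ : H → Ω, ∀ Y ∈ (⋀[Ω]^d (∀ i, Fin (e i) → V i) : Submodule Ω (ExteriorAlgebra Ω (∀ i, Fin (e i) → V i))),
      (∀ h, ExteriorAlgebra.map (dia e (ρ h)) Y = κ h • Y) → dX (dia e fun i => A i ∘ₗ B i - B i ∘ₗ A i) Y = 0) ∧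
  ∀ (g : ∀ i, V i ≃ₗ[Ω] V i) (π : Equiv.Perm H), (∀ h i, ρ h i ∘ₗ (g i : V i →ₗ[Ω] V i) = (g i : V i →ₗ[Ω] V i) ∘ₗ ρ (π h) i) →
    ∀ A : ∀ i, V i →ₗ[Ω] V i, Sc e d0 ρ A → Sc e d0 ρ fun i => cj (g i) (A i)

/-- the data for the final theorem: `V_i` with `Z_i`, the form `E_i`, rank `n_i` -/
structure Pt {Ω V : Type} [Field Ω] [AddCommGroup V] [Module Ω V] (l n : ℕ) (ζ : Ω) (Z : V →ₗ[Ω] V) (E : V →ₗ[Ω] V →ₗ[Ω] Ω) : Prop where
  dec : Dec l Z ζ
  rank : ∀ s, 0 < s → s < l → Module.finrank Ω (eg Z ζ s) = n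
  nondeg : ∀ x, (∀ y, E x y = 0) → x = 0
  alt : ∀ x y, E x y = - E y x
  inv : ∀ x y, E (Z x) (Z y) = E x y

/-- no multiplicative relations with exponents at most `B` between the `α_(i,s,t)` and `c`, apart from those between `c` and the products over `t` -/
def GenA {Ω : Type} [Field Ω] {k : ℕ} (h : ℕ) (n : Fin k → ℕ) (B : ℕ) (α : ∀ i, Fin h → Fin (n i) → Ω) (c : Ω) : Prop :=
  ∀ (x : ∀ i, Fin h → Fin (n i) → ℤ) (c' : ℤ), (∀ i s t, |x i s t| ≤ B) → |c'| ≤ B →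
    (∏ i, ∏ s, ∏ t, α i s t ^ x i s t) * c ^ c' = 1 → ∀ i s t t', x i s t = x i s t'

/-- LWB (medium-long). THE TORUS OF A GENERIC ELEMENT. `h0 ∈ H` is diagonal in bases `v_(i,s)` of the `E_(i,s)`, `1 ≤ s ≤ (l-1)/2`, with eigenvalues `α`, commutes with `Z_i` and is a similitude with factor `c`; `GenA` with `B = 2 d0`. `A` commutes with `Z_(i0)`, is skew, lives on `E_(i0,s0)`, `E_(i0,l-s0)` and is diagonal there with entries `x_t`, `∑ x = 0`.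
Then `sgl i0 A` satisfies `Sc`. PROOF. LSK (3): dual bases `v'_(i,s)` of `E_(i,l-s)`, `h0` has the eigenvalues `c / α` on them. The `v_(i,s,t)`, `v'_(i,s,t)` in all the copies `c < e_i` are a basis `ι` of `∏ V_i^(e_i)` (`Dec`); `dia e (ρ h0) = dg` with the values `α`, `c / α`, and `dia e (sgl i0 A) = dg` with the values `x_t` at `v_(i0,s0,t)`, `- x_t` at `v'_(i0,s0,t)`, `0` elsewhere.
LWT for every `d ≤ d0`: let `I, I'` have `d` elements and equal products of the eigenvalues of `h0`. With `N(i,s,t)` the number of the copies of `v_(i,s,t)` in `I` minus the number in `I'`, `N'` the same for `v'`: `∏ α^(N - N') c^(∑ N') = 1`, `|N - N'| ≤ 2 d0`, `|∑ N'| ≤ d0`, so `N - N'` is independent of `t`, and `∑_I x - ∑_I' x = ∑_t (N - N')(i0,s0,t) x_t = 0`.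
An `H`-eigenvector with character `κ` is an eigenvector of `h0` for `κ(h0)`. -/
def LWB_stmt : Prop := ∀ (Ω H : Type) [Field Ω] [CharZero Ω] (l k : ℕ), l.Prime → l ≠ 2 → ∀ (ζ : Ω), IsPrimitiveRoot ζ l →
  ∀ (V : Fin k → Type) [∀ i, AddCommGroup (V i)] [∀ i, Module Ω (V i)] [∀ i, FiniteDimensional Ω (V i)] (e n : Fin k → ℕ)
  (Z : ∀ i, V i →ₗ[Ω] V i) (E : ∀ i, V i →ₗ[Ω] V i →ₗ[Ω] Ω), (∀ i, Pt l (n i) ζ (Z i) (E i)) → ∀ (d0 : ℕ) (ρ : H → ∀ i, V i →ₗ[Ω] V i) (h0 : H)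
  (v : ∀ i, ∀ s : Fin ((l - 1) / 2), Module.Basis (Fin (n i)) Ω (eg (Z i) ζ ((s : ℕ) + 1))) (α : ∀ i, Fin ((l - 1) / 2) → Fin (n i) → Ω) (c : Ω), c ≠ 0 →
  (∀ i s t, α i s t ≠ 0) → (∀ i, ρ h0 i ∘ₗ Z i = Z i ∘ₗ ρ h0 i) → (∀ i x y, E i (ρ h0 i x) (ρ h0 i y) = c * E i x y) →
  (∀ i s t, ρ h0 i (v i s t) = α i s t • (v i s t : V i)) → GenA ((l - 1) / 2) n (2 * d0) α c →
  ∀ (i0 : Fin k) (s0 : Fin ((l - 1) / 2)) (A : V i0 →ₗ[Ω] V i0) (x : Fin (n i0) → Ω), CS (Z i0) (E i0) A → Only l (Z i0) ζ ((s0 : ℕ) + 1) A →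
  (∀ t, A (v i0 s0 t) = x t • (v i0 s0 t : V i0)) → ∑ t, x t = 0 → Sc e d0 ρ (sgl i0 A)

/-- LTH (medium). THE CLASS `θ_i` FORCES SIMILITUDES. `E` is a form on `V_i0`, `θ ∈ Λ² V_i0` such that for every operator `A` on `V_i0` and every `c`: `dX A θ = c θ` implies `E(A x, y) + E(x, A y) = c E(x, y)` (this is a property of the form attached to a nondegenerate bivector); `θ` is an eigenvector of `H`.
If `e i0 > 0`, `2 ≤ d0` and `A` satisfies `Sc`, then `A i0` is a similitude. PROOF. The inclusion `j` of the copy `(i0, 0)` is compatible with `ρ h i0` and `dia e (ρ h)`, and with `A i0` and `dia e A`; `map j θ ∈ Λ²` is an eigenvector of `H`; `dX (dia e A) (map j θ) = c map j θ`, and `dX (dia e A) ∘ map j = map j ∘ dX (A i0)` (derivations over `map j` which agree on the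
generators: `GJ.L10_stmt` or `ExteriorAlgebra.induction`); `map j` is injective (`j` has a left inverse). -/
def LTH_stmt : Prop := ∀ (Ω H : Type) [Field Ω] (k : ℕ) (V : Fin k → Type) [∀ i, AddCommGroup (V i)] [∀ i, Module Ω (V i)]
  (e : Fin k → ℕ) (d0 : ℕ) (ρ : H → ∀ i, V i →ₗ[Ω] V i) (i0 : Fin k) (E : V i0 →ₗ[Ω] V i0 →ₗ[Ω] Ω) (θ : ExteriorAlgebra Ω (V i0)),
  θ ∈ (⋀[Ω]^2 (V i0) : Submodule Ω (ExteriorAlgebra Ω (V i0))) →
  (∀ (A : V i0 →ₗ[Ω] V i0) (c : Ω), dX A θ = c • θ → ∀ x y, E (A x) y + E x (A y) = c * E x y) →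
  (∀ h, ∃ c : Ω, ExteriorAlgebra.map (ρ h i0) θ = c • θ) → 0 < e i0 → 2 ≤ d0 →
  ∀ A : ∀ i, V i →ₗ[Ω] V i, Sc e d0 ρ A → ∃ c : Ω, ∀ x y, E (A i0 x) y + E x (A i0 y) = c * E x y

/-- LFN (medium-long). THE LINEAR ALGEBRA OF THE PROOF. Data as in LWB; the operators with `Sc` are similitudes of `E_i` (if `e i > 0`; this is LTH); `G` is a group of families of automorphisms `g_i` of the `V_i` which commute with the `Z_i` and normalise `H`; every `E_(i,s)` is irreducible under `G`, and no `g ∈ G` moves a block.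
Then every family of skew operators `A_i`, commuting with `Z_i`, with trace zero on all `E_(i,s)`, kills all `H`-eigenvectors.
PROOF. Fix `i` with `e i > 0` and `s`, `1 ≤ s ≤ (l-1)/2`. `b` = the set of the `N ∈ End(E_s)` for which there is an operator `A` on `V_i` commuting with `Z_i`, zero on the `E_r`, `r ≠ s, l - s` (`Only`), equal to `N` on `E_s`, with `Sc (sgl i A)`. It is a subspace, closed under brackets (LSC (1); `sgl` is compatible with sums and brackets), it contains the `dg v x`, `∑ x = 0` (LWB; the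
operator is the one of LSK (1) for `N = dg v x`), and it is normalised by the restrictions of the `g ∈ G` to `E_s` (LSC (2); `cj` of `A` by `g` commutes with `Z`, is `Only`, and `cj (g j) 0 = 0` for `j ≠ i`). LBK for `E_s` (basis `v_(i,s)`) and the group of the restrictions: in the second case there is a set `S` of subspaces of `E_s`, one of them moved by some `g`: excluded by
the hypothesis (map the subspaces to `V_i` by `Submodule.map` of the inclusion). So `b` contains all `N` of trace zero. Every `N` of trace zero is a sum of brackets of operators of trace zero (`E_(s,t) = [(E_(s,s) - E_(t,t)) / 2, E_(s,t)]`, `E_(s,s) - E_(t,t) = [E_(s,t), E_(t,s)]`; `n = 1`: `N = 0`): `N = ∑ [N_j, N'_j]`, with `A_j`, `A'_j`: `A = ∑ [A_j, A'_j]` commutes with `Z`, is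
`Only`, equals `N` on `E_s`, is skew (a bracket of two similitudes `E(A x, y) + E(x, A y) = c E(x, y)` is skew), and `sgl i A` kills the eigenvectors (LSC (1), last statement; `dX` is additive). By LSK (1) it is the only skew operator with these properties. Finally for the given family `A_i = ∑_s B_(i,s)` (LSK (2)); `B_(i,s)` is the operator just constructed for `N` = the restriction of
`A_i` to `E_s`, of trace zero; `A = ∑_i ∑_s sgl i B_(i,s)`; for `e i = 0` `dia e (sgl i B) = 0`. -/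
def LFN_stmt : Prop := ∀ (Ω H : Type) [Field Ω] [CharZero Ω] (l k : ℕ), l.Prime → l ≠ 2 → ∀ (ζ : Ω), IsPrimitiveRoot ζ l →
  ∀ (V : Fin k → Type) [∀ i, AddCommGroup (V i)] [∀ i, Module Ω (V i)] [∀ i, FiniteDimensional Ω (V i)] (e n : Fin k → ℕ)
  (Z : ∀ i, V i →ₗ[Ω] V i) (E : ∀ i, V i →ₗ[Ω] V i →ₗ[Ω] Ω), (∀ i, Pt l (n i) ζ (Z i) (E i)) → ∀ (d0 : ℕ) (ρ : H → ∀ i, V i →ₗ[Ω] V i) (h0 : H)
  (v : ∀ i, ∀ s : Fin ((l - 1) / 2), Module.Basis (Fin (n i)) Ω (eg (Z i) ζ ((s : ℕ) + 1))) (α : ∀ i, Fin ((l - 1) / 2) → Fin (n i) → Ω) (c : Ω), c ≠ 0 →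
  (∀ i s t, α i s t ≠ 0) → (∀ i, ρ h0 i ∘ₗ Z i = Z i ∘ₗ ρ h0 i) → (∀ i x y, E i (ρ h0 i x) (ρ h0 i y) = c * E i x y) →
  (∀ i s t, ρ h0 i (v i s t) = α i s t • (v i s t : V i)) → GenA ((l - 1) / 2) n (2 * d0) α c →
  (∀ i, 0 < e i → ∀ A : ∀ i, V i →ₗ[Ω] V i, Sc e d0 ρ A → ∃ c : Ω, ∀ x y, E i (A i x) y + E i x (A i y) = c * E i x y) →
  ∀ G : Subgroup (∀ i, V i ≃ₗ[Ω] V i), (∀ g ∈ G, ∀ i x, g i (Z i x) = Z i (g i x)) →
  (∀ g ∈ G, ∃ π : Equiv.Perm H, ∀ h i, ρ h i ∘ₗ (g i : V i →ₗ[Ω] V i) = (g i : V i →ₗ[Ω] V i) ∘ₗ ρ (π h) i) →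
  (∀ i, ∀ s : Fin ((l - 1) / 2), ∀ W : Submodule Ω (V i), W ≤ eg (Z i) ζ ((s : ℕ) + 1) → (∀ g ∈ G, ∀ w ∈ W, g i w ∈ W) → W = ⊥ ∨ W = eg (Z i) ζ ((s : ℕ) + 1)) →
  (∀ i, ∀ s : Fin ((l - 1) / 2), ∀ S : Finset (Submodule Ω (V i)), Blk S → S.card ≤ n i → (∀ W ∈ S, W ≤ eg (Z i) ζ ((s : ℕ) + 1)) → (∀ g ∈ G, ∀ W ∈ S, im (g i) W ∈ S) →
    ∀ g ∈ G, ∀ W ∈ S, im (g i) W = W) →
  ∀ A : ∀ i, V i →ₗ[Ω] V i, (∀ i, CS (Z i) (E i) (A i)) →
  (∀ i, ∀ s, 0 < s → s < l → ∀ N : eg (Z i) ζ s →ₗ[Ω] eg (Z i) ζ s, (∀ x : eg (Z i) ζ s, A i x = N x) → LinearMap.trace Ω _ N = 0) →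
  ∀ d ≤ d0, ∀ κ : H → Ω, ∀ Y ∈ (⋀[Ω]^d (∀ i, Fin (e i) → V i) : Submodule Ω (ExteriorAlgebra Ω (∀ i, Fin (e i) → V i))),
    (∀ h, ExteriorAlgebra.map (dia e (ρ h)) Y = κ h • Y) → dX (dia e A) Y = 0

/-! ## Descent to `ℚ_q` -/

/-- LND (short-medium). NONDEGENERACY OVER `Ω`. `b` as in LBC (only its values on products of two vectors matter: `b (ι v) = ι (1 ⊗ v)`, `b` multiplicative). With a basis `e_i` of `V` and the dual basis: the matrix `θ_ij = pr2 e_i* e_j* θ` is invertible (`NonDeg`); `pr2 (1 ⊗ e_i*) (1 ⊗ e_j*) (b θ) = θ_ij` (check on `θ = ι v * ι w`, which span `Λ²`); `pr2` is bilinear: if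
`f = ∑ f_i (1 ⊗ e_i*)` and `pr2 f g (b θ) = 0` for all `g` then `∑_i f_i θ_ij = 0`, so `f = 0`. -/
def LND_stmt : Prop := ∀ (k Ω V : Type) [Field k] [Field Ω] [Algebra k Ω] [AddCommGroup V] [Module k V] [FiniteDimensional k V]
  (b : ExteriorAlgebra k V →ₗ[k] ExteriorAlgebra Ω (Ω ⊗[k] V)), (∀ v w : V, b (ExteriorAlgebra.ι k v * ExteriorAlgebra.ι k w) =
    ExteriorAlgebra.ι Ω ((1 : Ω) ⊗ₜ[k] v) * ExteriorAlgebra.ι Ω ((1 : Ω) ⊗ₜ[k] w)) →
  ∀ θ ∈ (⋀[k]^2 V : Submodule k (ExteriorAlgebra k V)), NonDeg θ → NonDeg (b θ)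

/-- LPB (medium). BASE CHANGE OF THE PRODUCT. The isomorphism `c : Ω ⊗ (∏ V_i^(e_i) × W) → ∏ (Ω ⊗ V_i)^(e_i) × Ω ⊗ W` (the maps `1 ⊗ proj`, `1 ⊗ fst`, ..; bijective: the inverse is the sum of the `1 ⊗ (single)`; or `TensorProduct.prodRight`, `TensorProduct.piRight`), `b` = `ExteriorAlgebra.map c` after the `b` of LBC; naturality: `ExteriorAlgebra.map_comp_map`, `GJ.L10_stmt` (last part),
as `c ∘ (1 ⊗ prodMap (dia e A) B) = prodMap (dia e (1 ⊗ A_i)) (1 ⊗ B) ∘ c`. -/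
def LPB_stmt : Prop := ∀ (k Ω : Type) [Field k] [Field Ω] [Algebra k Ω] (r : ℕ) (V : Fin r → Type) [∀ i, AddCommGroup (V i)] [∀ i, Module k (V i)]
  [∀ i, FiniteDimensional k (V i)] (e : Fin r → ℕ) (W : Type) [AddCommGroup W] [Module k W] [FiniteDimensional k W],
  ∃ b : ExteriorAlgebra k ((∀ i, Fin (e i) → V i) × W) →ₗ[k] ExteriorAlgebra Ω ((∀ i, Fin (e i) → Ω ⊗[k] V i) × (Ω ⊗[k] W)), Function.Injective b ∧
    (∀ d, ∀ X ∈ (⋀[k]^d ((∀ i, Fin (e i) → V i) × W) : Submodule k (ExteriorAlgebra k ((∀ i, Fin (e i) → V i) × W))),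
      b X ∈ (⋀[Ω]^d ((∀ i, Fin (e i) → Ω ⊗[k] V i) × (Ω ⊗[k] W)) : Submodule Ω (ExteriorAlgebra Ω ((∀ i, Fin (e i) → Ω ⊗[k] V i) × (Ω ⊗[k] W))))) ∧
    ∀ (A : ∀ i, V i →ₗ[k] V i) (B : W →ₗ[k] W) (X : ExteriorAlgebra k ((∀ i, Fin (e i) → V i) × W)),
      b (ExteriorAlgebra.map (LinearMap.prodMap (dia e A) B) X) =
        ExteriorAlgebra.map (LinearMap.prodMap (dia (V := fun i => Ω ⊗[k] V i) e fun i => (A i).baseChange Ω) (B.baseChange Ω)) (b X) ∧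
      b (dX (LinearMap.prodMap (dia e A) B) X) = dX (LinearMap.prodMap (dia (V := fun i => Ω ⊗[k] V i) e fun i => (A i).baseChange Ω) (B.baseChange Ω)) (b X)

/-- LKI (medium-long). THE RESULT OF THIS PART, over `k = ℚ_q`, with the Fermat part `W`. `V_i` is free of rank `n_i` over `k[Z_i] = k ⊗ ℚ(ζ)`, `θ_i` the class of the curve; the group `H` acts on `V_i` (`ρ i`) and on `W` (`ρW`), with a basis of common eigenvectors of `Ω ⊗ W`; `h0 ∈ H` is diagonal over `Ω` with `GenA`; `G` a group of families of automorphisms of the `V_i` which commute with `Z_i` and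
normalise `H`; the eigenspaces `E_(i,s)` are irreducible under `G` and no block is moved. `X ∈ Λ^d` an eigenvector of `H`, `d ≤ d0`. Then `X` is killed by all families `A_i` in `su(V_i)`.
PROOF. LPB: `b`. `b X` is an `H`-eigenvector (`algebraMap` of the character). LFE for `W1 = ∏ (Ω ⊗ V_i)^(e_i)`, `W2 = Ω ⊗ W`: it is enough that `dX (dia e (1 ⊗ A_i))` kills the `H`-eigenvectors of degree `≤ d0` in `Λ W1`: LFN. Its hypotheses: `Pt`: LDE (`dec`, `rank`), `E_i` from `GJ.L9_stmt` for `θ'_i = b_i θ_i` over `Ω` (`b_i` from LBC, `θ'_i` nondegenerate: LND): `alt` from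
`E x x = 0`; `inv`: `map (1 ⊗ Z) θ' = θ'`, `L9` with `c = 1`. `c` = the factor of `h0`: `map (ρ h0) θ = c θ`: `L9`. The similitude hypothesis: LTH with `θ'_i`: if `dX A θ' = c θ'` then `dX (A - (c / 2) id) θ' = 0` (`dX id = 2` on `Λ²`), so `L9` (last part) gives `E(A x, y) + E(x, A y) = c E(x, y)`. `CS (1 ⊗ Z) E (1 ⊗ A_i)`: `L9` for `dX (1 ⊗ A) θ' = b (dX A θ) = 0`.
The traces on the eigenspaces: LTR (`LinearMap.trace_baseChange`). So `b (dX (prodMap (dia e A) 0) X) = 0` and `b` is injective. (`G` acts on `Ω ⊗ V_i` by base change of the `g i`: `LinearEquiv.baseChange`; the subgroup of `∏ Aut(Ω ⊗ V_i)` is the image.) -/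
def LKI_stmt : Prop := ∀ (k Ω H : Type) [Field k] [CharZero k] [Field Ω] [IsAlgClosed Ω] [Algebra k Ω] [Group H] (l r : ℕ), l.Prime → l ≠ 2 → ∀ ζ : Ω, IsPrimitiveRoot ζ l →
  ∀ (V : Fin r → Type) [∀ i, AddCommGroup (V i)] [∀ i, Module k (V i)] [∀ i, FiniteDimensional k (V i)] (e n : Fin r → ℕ) (W : Type) [AddCommGroup W] [Module k W] [FiniteDimensional k W]
  (Z : ∀ i, V i →ₗ[k] V i), (∀ i, ∃ (v : Fin (n i) → V i) (b : Module.Basis (Fin (n i) × Fin (l - 1)) k (V i)), ∀ κ j, b (κ, j) = ((Z i : Module.End k (V i)) ^ (j : ℕ)) (v κ)) →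
  (∀ i, ∑ j ∈ Finset.range l, (Z i : Module.End k (V i)) ^ j = 0) →
  ∀ (θ : ∀ i, ExteriorAlgebra k (V i)), (∀ i, θ i ∈ (⋀[k]^2 (V i) : Submodule k (ExteriorAlgebra k (V i)))) → (∀ i, NonDeg (θ i)) → (∀ i, ExteriorAlgebra.map (Z i) (θ i) = θ i) →
  ∀ (ρ : ∀ i, H →* (V i ≃ₗ[k] V i)) (ρW : H →* (W ≃ₗ[k] W)) (χ : H → k), (∀ h i, ExteriorAlgebra.map (ρ i h : V i →ₗ[k] V i) (θ i) = χ h • θ i) →
  ∀ (J : Type) [Fintype J] (f : Module.Basis J Ω (Ω ⊗[k] W)) (ψ : J → H → Ω), (∀ h j, LinearMap.baseChange Ω (ρW h : W →ₗ[k] W) (f j) = ψ j h • f j) →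
  ∀ (d0 : ℕ), 2 ≤ d0 → ∀ (h0 : H), (∀ i x, ρ i h0 (Z i x) = Z i (ρ i h0 x)) → χ h0 ≠ 0 →
  ∀ (v : ∀ i, ∀ s : Fin ((l - 1) / 2), Module.Basis (Fin (n i)) Ω (eg (LinearMap.baseChange Ω (Z i)) ζ ((s : ℕ) + 1))) (α : ∀ i, Fin ((l - 1) / 2) → Fin (n i) → Ω),
  (∀ i s t, α i s t ≠ 0) → (∀ i s t, LinearMap.baseChange Ω (ρ i h0 : V i →ₗ[k] V i) (v i s t : Ω ⊗[k] V i) = α i s t • (v i s t : Ω ⊗[k] V i)) →
  GenA ((l - 1) / 2) n (2 * d0) α (algebraMap k Ω (χ h0)) →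
  ∀ G : Subgroup (∀ i, V i ≃ₗ[k] V i), (∀ g ∈ G, ∀ i x, g i (Z i x) = Z i (g i x)) →
  (∀ g ∈ G, ∃ π : Equiv.Perm H, ∀ h i x, ρ i h (g i x) = g i (ρ i (π h) x)) →
  (∀ i, ∀ s : Fin ((l - 1) / 2), ∀ U : Submodule Ω (Ω ⊗[k] V i), U ≤ eg (LinearMap.baseChange Ω (Z i)) ζ ((s : ℕ) + 1) →
    (∀ g ∈ G, ∀ w ∈ U, LinearMap.baseChange Ω (g i : V i →ₗ[k] V i) w ∈ U) → U = ⊥ ∨ U = eg (LinearMap.baseChange Ω (Z i)) ζ ((s : ℕ) + 1)) →
  (∀ i, ∀ s : Fin ((l - 1) / 2), ∀ S : Finset (Submodule Ω (Ω ⊗[k] V i)), Blk S → S.card ≤ n i → (∀ U ∈ S, U ≤ eg (LinearMap.baseChange Ω (Z i)) ζ ((s : ℕ) + 1)) →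
    (∀ g ∈ G, ∀ U ∈ S, U.map (LinearMap.baseChange Ω (g i : V i →ₗ[k] V i)) ∈ S) → ∀ g ∈ G, ∀ U ∈ S, U.map (LinearMap.baseChange Ω (g i : V i →ₗ[k] V i)) = U) →
  ∀ A : ∀ i, V i →ₗ[k] V i, (∀ i, A i ∘ₗ Z i = Z i ∘ₗ A i) → (∀ i, dX (A i) (θ i) = 0) → (∀ i (j : ℕ), LinearMap.trace k (V i) (((Z i : Module.End k (V i)) ^ j) ∘ₗ A i) = 0) →
  ∀ d ≤ d0, ∀ X ∈ (⋀[k]^d ((∀ i, Fin (e i) → V i) × W) : Submodule k (ExteriorAlgebra k ((∀ i, Fin (e i) → V i) × W))), ∀ κ : H → k,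
    (∀ h, ExteriorAlgebra.map (LinearMap.prodMap (dia e fun i => (ρ i h : V i →ₗ[k] V i)) (ρW h : W →ₗ[k] W)) X = κ h • X) →
    dX (LinearMap.prodMap (dia e A) (0 : W →ₗ[k] W)) X = 0

end

end Pool.Agent.AQ
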