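import Pool.Agent.helper46.TD.SpecV
import Pool.Agent.helper85.AQ.SpecL

/-!
# Project aq (MP_3703a7_ag, all primes `q` at once): definitions: automorphisms which permute the branch points

`σ ∈ Aut(ℚbar)` with `σ(a_j) = a_(π j)`, `μ_(π j) = μ_j`: `σ` maps the curve `y^l = ∏ (x - a_j)^(μ_j)` to itself. It acts on the class group: the class of the point `(u, v)` goes to the class of `(σ(u), σ(v))`.
-/

set_option autoImplicit false

namespace Pool.Agent.AQ

open Polynomial Pool.Agent.GJ Pool.Agent.TK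
open Pool.Agent.FJ (VT Om chiO rf rs)
open Pool.Agent.TD (zK)

noncomputable section

section ring
variable {A B : Type} [CommRing A] [CommRing B] {l n : ℕ} {μ : Fin (n + 1) → ℕ} {a : Fin (n + 1) → A}

/-- `σ` permutes the branch points, with the same weights -/
structure IsP (σ : A → B) (μ : Fin (n + 1) → ℕ) (a : Fin (n + 1) → A) (b : Fin (n + 1) → B) (π : Equiv.Perm (Fin (n + 1))) : Prop where
  pt : ∀ j, σ (a j) = b (π j)
  wt : ∀ j, μ (π j) = μ j

theorem eval₂_fpP (φ : A →+* B) {b : Fin (n + 1) → B} {π : Equiv.Perm (Fin (n + 1))} (h : IsP φ μ a b π) (u : B) :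
    eval₂ φ u (fp A μ a) = ∏ j, (u - b j) ^ μ j := by
  rw [CR.eval₂_fp φ (fun j => b (π j)) h.pt u, ← Equiv.prod_comp π (fun j => (u - b j) ^ μ j)]
  exact Finset.prod_congr rfl fun j _ => by rw [h.wt]

/-- `φ` on the coefficients, `x ↦ x`, `y ↦ y` -/
def mapP (φ : A →+* B) {b : Fin (n + 1) → B} {π : Equiv.Perm (Fin (n + 1))} (h : IsP φ μ a b π) :
    CR A l μ a →+* CR B l μ b :=
  CR.lift ((algebraMap B (CR B l μ b)).comp φ) CR.x CR.y
    (by
      rw [CR.rel, CR.pol_fp, eval₂_fpP (b := fun j => algebraMap B (CR B l μ b) (b j)) (π := π) _ ⟨fun j => ?_, h.wt⟩]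
      rw [RingHom.comp_apply, h.pt])
    (by
      rw [eval₂_fpP (b := fun j => algebraMap B (CR B l μ b) (b j)) (π := π) _ ⟨fun j => by rw [RingHom.comp_apply, h.pt], h.wt⟩, ← CR.pol_fp]
      exact CR.unit_f)

@[simp] theorem mapP_x (φ : A →+* B) {b : Fin (n + 1) → B} {π : Equiv.Perm (Fin (n + 1))} (h : IsP φ μ a b π) :
    mapP φ h (CR.x : CR A l μ a) = CR.x := CR.lift_x _ _ _ _ _

@[simp] theorem mapP_y (φ : A →+* B) {b : Fin (n + 1) → B} {π : Equiv.Perm (Fin (n + 1))} (h : IsP φ μ a b π) :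
    mapP φ h (CR.y : CR A l μ a) = CR.y := CR.lift_y _ _ _ _ _

@[simp] theorem mapP_C (φ : A →+* B) {b : Fin (n + 1) → B} {π : Equiv.Perm (Fin (n + 1))} (h : IsP φ μ a b π) (c : A) :
    mapP φ h (algebraMap A (CR A l μ a) c) = algebraMap B (CR B l μ b) (φ c) := CR.lift_C _ _ _ _ _ _

end ring

section aut
variable {K : Type} [Field K] {l n : ℕ} {μ : Fin (n + 1) → ℕ} {a : Fin (n + 1) → K}

theorem IsP.symm {σ : K ≃+* K} {π : Equiv.Perm (Fin (n + 1))} (h : IsP σ μ a a π) : IsP σ.symm μ a a π.symm :=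
  ⟨fun j => by rw [RingEquiv.symm_apply_eq, h.pt, Equiv.apply_symm_apply], fun j => by
    have h1 := h.wt (π.symm j)
    rw [Equiv.apply_symm_apply] at h1
    exact h1.symm⟩

/-- the automorphism `σ` on the coefficients, `x ↦ x`, `y ↦ y`, of the ring of the curve. It maps the ideal of the point `(u, v)` to the ideal of `(σ(u), σ(v))`. -/
def autP (σ : K ≃+* K) {π : Equiv.Perm (Fin (n + 1))} (h : IsP σ μ a a π) : CR K l μ a ≃+* CR K l μ a :=
  RingEquiv.ofRingHom (mapP (b := a) (σ : K →+* K) ⟨h.pt, h.wt⟩) (mapP (b := a) (σ.symm : K →+* K) ⟨h.symm.pt, h.symm.wt⟩)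
    (CR.hom_ext _ _ (fun c => by simp) (by simp) (by simp))
    (CR.hom_ext _ _ (fun c => by simp) (by simp) (by simp))

variable [Fact l.Prime] [Good K l μ a]

/-- the action of `σ` on the class group -/
def actP (σ : K ≃+* K) {π : Equiv.Perm (Fin (n + 1))} (h : IsP σ μ a a π) : JC K l μ a →+ JC K l μ a :=
  MonoidHom.toAdditive (ClassGroup.mulEquiv (autP σ h)).toMonoidHom

end aut

/-- `σ` fixes the `l`-th roots of unity and permutes the branch points of all curves -/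
def PF {l : ℕ} [Fact l.Prime] (D : Dat l) (σ : Om ≃+* Om) : Prop :=
  (∀ s : Om, s ^ l = 1 → σ s = s) ∧ ∀ i, ∃ π, IsP σ (D.μ i) (D.a i) (D.a i) π

/-- the action of `σ` on `V_q(J_i)` -/
def galP {l : ℕ} [Fact l.Prime] {D : Dat l} (q : ℕ) [Fact q.Prime] {σ : Om ≃+* Om} (h : PF D σ) (i : Fin D.k) :
    VT q (JC Om l (D.μ i) (D.a i)) →ₗ[ℚ_[q]] VT q (JC Om l (D.μ i) (D.a i)) :=
  VT.map q (actP σ (h.2 i).choose_spec)

/-- the data of an isomorphism of curves `(u, v) ↦ (c σ(u) + e, d σ(v))`, from `v^l = ∏ (u - a_j)^(μ_j)` to the same curve with branch points `a'_j` -/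
structure IsQ {K K' : Type} [Field K] [Field K'] (l : ℕ) {n : ℕ} (μ : Fin (n + 1) → ℕ) (a : Fin (n + 1) → K) (a' : Fin (n + 1) → K')
    (σ : K ≃+* K') (c e d : K') (π : Equiv.Perm (Fin (n + 1))) : Prop where
  ne : c ≠ 0
  pt : ∀ j, c * σ (a j) + e = a' (π j)
  wt : ∀ j, μ (π j) = μ j
  rel : d ^ l = c ^ (∑ j, μ j)

/-- `E` maps the class of the point `(u, v)` to the class of the point `(c σ(u) + e, d σ(v))` -/
def IsT {K K' : Type} [Field K] [Field K'] {l n : ℕ} [Fact l.Prime] {μ : Fin (n + 1) → ℕ} {a : Fin (n + 1) → K} {a' : Fin (n + 1) → K'}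
    [Good K l μ a] [Good K' l μ a'] [IsDedekindDomain (CR K l μ a)] [IsDedekindDomain (CR K' l μ a')] (σ : K ≃+* K') (c e d : K')
    (E : ClassGroup (CR K l μ a) →* ClassGroup (CR K' l μ a')) : Prop :=
  ∀ (q : Pc K l μ a) (q' : Pc K' l μ a'), q'.1.1 = c * σ q.1.1 + e → q'.1.2 = d * σ q.1.2 → E (cl q) = cl q'

/-- `σ'` is the automorphism of the residue field induced by `σ` -/
def Rd {K : Type} [Field K] (O : ValuationSubring K) (σ : K ≃+* K) (σ' : rf O ≃+* rf O) : Prop :=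
  ∀ y z : O, σ (y : K) = z → σ' (rs O y) = rs O z

end

end Pool.Agent.AQ
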